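import Mathlib

-- part Pool.Agent.P.MP_57148c_nt.Defs
section

/-! Rational curves of degree at most five on the Fermat sextic: definitions.
`A` is a valuation ring of `ℂ` above 3, `kk A` its residue field. -/

open Polynomial

noncomputable section
namespace Pool.Agent.FS

/-- the valuation ring lies above 3 -/
class Three (A : ValuationSubring ℂ) : Prop where
  three : IsLocalRing.residue A 3 = 0

/-- residue field -/
abbrev kk (A : ValuationSubring ℂ) := IsLocalRing.ResidueField A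

variable {A : ValuationSubring ℂ}

/-- residue of an element -/
abbrev res (a : A) : kk A := IsLocalRing.residue A a

instance charP [Three A] : CharP (kk A) 3 :=
  (CharP.charP_iff_prime_eq_zero Nat.prime_three).2 (by
    have := Three.three (A := A)
    rwa [map_ofNat] at this)

/-- reduction of a polynomial -/
def bar (f : A[X]) : (kk A)[X] := f.map (IsLocalRing.residue A)

open Classical in
/-- reduction after division by the content (well defined up to a nonzero scalar) -/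
def nred (f : A[X]) : (kk A)[X] :=
  if h : ∃ g : A[X], bar g ≠ 0 ∧ ∃ c : A, c ≠ 0 ∧ f = C c * g then bar h.choose else 0

/-- a normalised solution of degree `D` -/
structure Sol (D : ℕ) (x : Fin 4 → A[X]) : Prop where
  deg : ∀ i, (x i).natDegree ≤ D
  full : ∃ i, (x i).coeff D ≠ 0
  sum : ∑ i, x i ^ 6 = 0
  ind : ∀ i j, i ≠ j → wronskian (x i) (x j) ≠ 0
  cop : ∀ t : ℂ, ∃ i, aeval t (x i) ≠ 0
  prim : ∃ i, bar (x i) ≠ 0

/-- the inequalities carried by a disc of weight `n` with boundary point `P`, where `o i j` is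
the number of zeros of the Wronskian of `x i`, `x j` in the disc -/
structure Ineq {k : Type} [Field k] (n : ℕ) (P : Fin 4 → k) (o : Fin 4 → Fin 4 → ℕ) : Prop where
  line : 0 < n → ∃ j l, j ≠ l ∧ P j ^ 2 + P l ^ 2 = 0
  one : (∀ i, P i ≠ 0) → ∀ i j l, i ≠ j → i ≠ l → j ≠ l → P j ^ 2 + P l ^ 2 ≠ 0 →
    4 * n ≤ o i j + o i l
  two : 0 < n → ∀ i j, i ≠ j → P i = 0 → P j = 0 → 2 * n + 2 ≤ o i j

/-- the claim for the open residue disc of `b`, if it has weight `n` -/
def Claim (x : Fin 4 → A[X]) (b : kk A) (n : ℕ) : Prop :=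
  ∀ Z : Fin 4 → (kk A)[X], (∀ i, bar (x i) = (X - C b) ^ n * Z i) → (∃ i, (Z i).eval b ≠ 0) →
    Ineq n (fun i => (Z i).eval b)
      fun i j => rootMultiplicity b (nred (wronskian (x i) (x j)))

/-- the claim for the closed unit disc, if it has weight `n` -/
def Top (x : Fin 4 → A[X]) (n : ℕ) : Prop :=
  (∀ i, (bar (x i)).natDegree ≤ n) → (∃ i, (bar (x i)).coeff n ≠ 0) →
    Ineq n (fun i => (bar (x i)).coeff n) fun i j => (nred (wronskian (x i) (x j))).natDegree

/-- the reduction is the Frobenius of a line -/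
def Insep (x : Fin 4 → A[X]) : Prop :=
  ∃ (h : (kk A)[X]) (a : Fin 4 → (kk A)[X]), h ≠ 0 ∧ (∀ i, bar (x i) = h * a i ^ 3) ∧
    (∀ i, (a i).natDegree ≤ 1) ∧ ∃ i j, wronskian (a i) (a j) ≠ 0

/-- the same, with the point at infinity in general position -/
structure Good (D : ℕ) (x : Fin 4 → A[X]) (h : (kk A)[X]) (a : Fin 4 → (kk A)[X]) : Prop where
  ne : h ≠ 0
  eq : ∀ i, bar (x i) = h * a i ^ 3
  degh : h.natDegree + 3 = D
  dega : ∀ i, (a i).natDegree ≤ 1
  nc : ∃ i j, wronskian (a i) (a j) ≠ 0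
  one : ∀ i, a i ≠ 0 → (a i).natDegree = 1
  two : ∀ i j, a i ^ 2 + a j ^ 2 ≠ 0 → (a i ^ 2 + a j ^ 2).natDegree = 2

/-- near a special line: the generic case -/
def Gen (x : Fin 4 → A[X]) (i i' : kk A) : Prop :=
  ∃ (c : A) (q1 q3 : A[X]), wronskian (x 0) (x 1) = C c * q1 ∧ wronskian (x 2) (x 3) = C c * q3 ∧
    (bar q1 ≠ 0 ∨ bar q3 ≠ 0) ∧
    C i * bar (x 1) ^ 4 * bar q1 + C i' * bar (x 3) ^ 4 * bar q3 = 0

/-- near a special line: the exceptional shallow case -/
def Shal (x : Fin 4 → A[X]) (i i' : kk A) : Prop :=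
  ∃ (I I' ρ μ : A) (m1 m3 : A[X]), I ^ 2 = -1 ∧ I' ^ 2 = -1 ∧ res I = i ∧ res I' = i' ∧
    ρ ≠ 0 ∧ res ρ = 0 ∧ res μ = 0 ∧ 3 = ρ ^ 2 * μ ∧
    x 0 = C I * x 1 + C ρ * m1 ∧ x 2 = C I' * x 3 + C ρ * m3 ∧ (bar m1 ≠ 0 ∨ bar m3 ≠ 0) ∧
    C i * bar (x 1) * bar m1 + C i' * bar (x 3) * bar m3 = 0 ∧
    wronskian (bar m1) (bar (x 1)) = 0 ∧ wronskian (bar m3) (bar (x 3)) = 0

/-- near a special line: the exceptional deep case -/
def Deep (D : ℕ) (x : Fin 4 → A[X]) (i i' : kk A) : Prop :=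
  ∃ (ρ : A) (m1 m3 p1 p3 : A[X]) (ν : kk A), ρ ≠ 0 ∧
    wronskian (x 0) (x 1) = C (3 * ρ) * p1 ∧ wronskian (x 2) (x 3) = C (3 * ρ) * p3 ∧
    wronskian m1 (x 1) = 3 * p1 ∧ wronskian m3 (x 3) = 3 * p3 ∧
    m1.natDegree ≤ D ∧ m3.natDegree ≤ D ∧
    C i * bar (x 1) ^ 3 * (bar m1 * (bar (x 1) ^ 2 - C ν * bar m1 ^ 2)) +
      C i' * bar (x 3) ^ 3 * (bar m3 * (bar (x 3) ^ 2 - C ν * bar m3 ^ 2)) = 0 ∧
    bar m1 * (bar (x 1) ^ 2 - C ν * bar m1 ^ 2) ≠ 0 ∧
    bar m3 * (bar (x 3) ^ 2 - C ν * bar m3 ^ 2) ≠ 0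

/-- linear relations satisfied by the Pluecker coordinates of a tangent direction -/
structure Rel {R : Type} [CommRing R] (a : Fin 4 → R) (Q : Fin 4 → Fin 4 → R) : Prop where
  anti : ∀ i j, Q i j = -Q j i
  cyc : ∀ i j l, a i * Q j l + a j * Q l i + a l * Q i j = 0
  syz : ∀ j, ∑ i, a i ^ 5 * Q i j = 0

@[simp] theorem bar_add (f g : A[X]) : bar (f + g) = bar f + bar g := Polynomial.map_add _
@[simp] theorem bar_sub (f g : A[X]) : bar (f - g) = bar f - bar g := Polynomial.map_sub _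
@[simp] theorem bar_neg (f : A[X]) : bar (-f) = -bar f := Polynomial.map_neg _
@[simp] theorem bar_mul (f g : A[X]) : bar (f * g) = bar f * bar g := Polynomial.map_mul _
@[simp] theorem bar_pow (f : A[X]) (n : ℕ) : bar (f ^ n) = bar f ^ n := Polynomial.map_pow _ _
@[simp] theorem bar_C (c : A) : bar (C c) = C (res c) := Polynomial.map_C _
@[simp] theorem bar_X : bar (X : A[X]) = X := Polynomial.map_X _
@[simp] theorem bar_zero : bar (0 : A[X]) = 0 := Polynomial.map_zero _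
@[simp] theorem bar_one : bar (1 : A[X]) = 1 := Polynomial.map_one _
@[simp] theorem bar_ofNat (n : ℕ) [n.AtLeastTwo] :
    bar (ofNat(n) : A[X]) = ofNat(n) := Polynomial.map_ofNat _ _
theorem bar_derivative (f : A[X]) : bar (derivative f) = derivative (bar f) :=
  (Polynomial.derivative_map _ _).symm
theorem bar_wronskian (f g : A[X]) : bar (wronskian f g) = wronskian (bar f) (bar g) := by
  simp only [wronskian, bar_sub, bar_mul, bar_derivative]
theorem coeff_bar (f : A[X]) (n : ℕ) : (bar f).coeff n = res (f.coeff n) := coeff_map _ _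
theorem natDegree_bar_le (f : A[X]) : (bar f).natDegree ≤ f.natDegree := natDegree_map_le
theorem bar_sum {ι : Type} (s : Finset ι) (f : ι → A[X]) :
    bar (∑ i ∈ s, f i) = ∑ i ∈ s, bar (f i) := Polynomial.map_sum _ _ _
theorem res_eq_zero_iff (a : A) : res a = 0 ↔ ¬ IsUnit a :=
  (IsLocalRing.residue_eq_zero_iff a).trans (IsLocalRing.mem_maximalIdeal a)
theorem res_surj (b : kk A) : ∃ a : A, res a = b := IsLocalRing.residue_surjective b

/-- `3 = 0` in polynomials over a field of characteristic 3 -/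
theorem three_eq_zero {k : Type} [Field k] [CharP k 3] : (3 : k[X]) = 0 := by
  have : ((3 : ℕ) : k[X]) = 0 := CharP.cast_eq_zero _ 3
  exact_mod_cast this

theorem three_eq_zero' {k : Type} [Field k] [CharP k 3] : (3 : k) = 0 := by
  have : ((3 : ℕ) : k) = 0 := CharP.cast_eq_zero _ 3
  exact_mod_cast this

theorem Ineq.zero {k : Type} [Field k] (P : Fin 4 → k) (o : Fin 4 → Fin 4 → ℕ) : Ineq 0 P o :=
  ⟨fun h => absurd h (lt_irrefl 0), fun _ _ _ _ _ _ _ _ => by simp,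
    fun h => absurd h (lt_irrefl 0)⟩

theorem Ineq.mono {k : Type} [Field k] {n : ℕ} {P : Fin 4 → k} {o o' : Fin 4 → Fin 4 → ℕ}
    (h : Ineq n P o) (ho : ∀ i j, i ≠ j → o i j ≤ o' i j) : Ineq n P o' :=
  ⟨h.line, fun hP i j l hij hil hjl hne => (h.one hP i j l hij hil hjl hne).trans
    (Nat.add_le_add (ho i j hij) (ho i l hil)),
    fun hn i j hij hi hj => (h.two hn i j hij hi hj).trans (ho i j hij)⟩

theorem Ineq.perm {k : Type} [Field k] {n : ℕ} {P : Fin 4 → k} {o : Fin 4 → Fin 4 → ℕ}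
    (h : Ineq n P o) (σ : Equiv.Perm (Fin 4)) :
    Ineq n (fun i => P (σ i)) fun i j => o (σ i) (σ j) := by
  refine ⟨fun hn => ?_, fun hP i j l hij hil hjl hne => ?_, fun hn i j hij hi hj => ?_⟩
  · obtain ⟨j, l, hjl, e⟩ := h.line hn
    exact ⟨σ.symm j, σ.symm l, fun e' => hjl (σ.symm.injective e'), by simpa using e⟩
  · exact h.one (fun i => by simpa using hP (σ.symm i)) _ _ _ (σ.injective.ne hij)
      (σ.injective.ne hil) (σ.injective.ne hjl) hne
  · exact h.two hn _ _ (σ.injective.ne hij) hi hj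

theorem Sol.perm {D : ℕ} {x : Fin 4 → A[X]} (h : Sol D x) (σ : Equiv.Perm (Fin 4)) :
    Sol D fun i => x (σ i) := by
  refine ⟨fun i => h.deg _, ?_, ?_, fun i j hij => h.ind _ _ (σ.injective.ne hij), fun t => ?_, ?_⟩
  · obtain ⟨i, hi⟩ := h.full
    exact ⟨σ.symm i, by simpa using hi⟩
  · rw [Equiv.sum_comp σ fun i => x i ^ 6]; exact h.sum
  · obtain ⟨i, hi⟩ := h.cop t
    exact ⟨σ.symm i, by simpa using hi⟩
  · obtain ⟨i, hi⟩ := h.prim
    exact ⟨σ.symm i, by simpa using hi⟩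

theorem Claim.perm {x : Fin 4 → A[X]} {b : kk A} {n : ℕ} (h : Claim x b n)
    (σ : Equiv.Perm (Fin 4)) : Claim (fun i => x (σ i)) b n := by
  intro Z hZ hne
  obtain ⟨i0, hi0⟩ := hne
  have := (h (fun i => Z (σ.symm i)) (fun i => by simpa using hZ (σ.symm i))
    ⟨σ i0, by simpa using hi0⟩).perm σ
  simpa using this

theorem Top.of_perm {x : Fin 4 → A[X]} {n : ℕ} (σ : Equiv.Perm (Fin 4))
    (h : Top (fun i => x (σ i)) n) : Top x n := by
  intro hd hne
  obtain ⟨i0, hi0⟩ := hne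
  have := (h (fun i => hd _) ⟨σ.symm i0, by simpa using hi0⟩).perm σ.symm
  simpa using this

theorem Good.perm {D : ℕ} {x : Fin 4 → A[X]} {h : (kk A)[X]} {a : Fin 4 → (kk A)[X]}
    (H : Good D x h a) (σ : Equiv.Perm (Fin 4)) :
    Good D (fun i => x (σ i)) h fun i => a (σ i) := by
  refine ⟨H.ne, fun i => H.eq _, H.degh, fun i => H.dega _, ?_, fun i => H.one _,
    fun i j => H.two _ _⟩
  obtain ⟨i, j, hij⟩ := H.nc
  exact ⟨σ.symm i, σ.symm j, by simpa using hij⟩

theorem Rel.perm {R : Type} [CommRing R] {a : Fin 4 → R} {Q : Fin 4 → Fin 4 → R} (h : Rel a Q)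
    (σ : Equiv.Perm (Fin 4)) : Rel (fun i => a (σ i)) fun i j => Q (σ i) (σ j) :=
  ⟨fun _ _ => h.anti _ _, fun _ _ _ => h.cyc _ _ _, fun j => by
    rw [Equiv.sum_comp σ fun i => a i ^ 5 * Q i (σ j)]; exact h.syz _⟩

theorem exists_perm {i j : Fin 4} (hij : i ≠ j) :
    ∃ σ : Equiv.Perm (Fin 4), σ 0 = i ∧ σ 1 = j := by
  revert i j; decide

/-- the permutation exchanging the pairs `0, 1` and `2, 3` -/
def sw : Equiv.Perm (Fin 4) := Equiv.swap 0 2 * Equiv.swap 1 3

@[simp] theorem sw0 : sw 0 = 2 := by decide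
@[simp] theorem sw1 : sw 1 = 3 := by decide
@[simp] theorem sw2 : sw 2 = 0 := by decide
@[simp] theorem sw3 : sw 3 = 1 := by decide

theorem Deep.swap {D : ℕ} {x : Fin 4 → A[X]} {i i' : kk A} (h : Deep D x i i') :
    Deep D (fun j => x (sw j)) i' i := by
  obtain ⟨ρ, m1, m3, p1, p3, ν, h0, h1, h2, h3, h4, h5, h6, h7, h8, h9⟩ := h
  refine ⟨ρ, m3, m1, p3, p1, ν, h0, by simpa using h2, by simpa using h1, by simpa using h4,
    by simpa using h3, h6, h5, ?_, by simpa only [sw1] using h9, by simpa only [sw3] using h8⟩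
  simp only [sw1, sw3]
  rw [add_comm]; exact h7

end Pool.Agent.FS
end
end

-- part Pool.Agent.P.MP_57148c_nt.Char3
section

open Polynomial

noncomputable section
namespace Pool.Agent.FS

variable {k : Type} [Field k] [IsAlgClosed k] [CharP k 3]

theorem exists_cube {f : k[X]} (hf : derivative f = 0) : ∃ g : k[X], f = g ^ 3 := by
  have : Fact (Nat.Prime 3) := ⟨Nat.prime_three⟩
  have h1 := expand_contract 3 hf (by norm_num)
  refine ⟨(contract 3 f).map (frobeniusEquiv k 3).symm.toRingHom, ?_⟩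
  rw [← map_frobenius_expand 3, map_expand, Polynomial.map_map]
  have : (frobenius k 3).comp (frobeniusEquiv k 3).symm.toRingHom = RingHom.id k := by
    ext x
    simp
  rw [this, Polynomial.map_id, h1]

omit [IsAlgClosed k] in
theorem cube_add (f g : k[X]) : (f + g) ^ 3 = f ^ 3 + g ^ 3 := add_pow_char f g 3

omit [IsAlgClosed k] in
theorem cube_inj {f g : k[X]} (h : f ^ 3 = g ^ 3) : f = g := by
  have h3 : (3 : k[X]) = 0 := three_eq_zero
  have : (f - g) ^ 3 = 0 := by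
    linear_combination h + (f * g ^ 2 - f ^ 2 * g) * h3
  exact sub_eq_zero.1 (pow_eq_zero_iff (by norm_num) |>.1 this)

omit [IsAlgClosed k] in
theorem char3_derivative_cube (r : k[X]) : derivative (r ^ 3) = 0 := by
  have h3 : (3 : k) = 0 := three_eq_zero'
  rw [derivative_pow]
  simp [h3]

omit [IsAlgClosed k] in
theorem derivative_cube_mul (r q : k[X]) : derivative (r ^ 3 * q) = r ^ 3 * derivative q := by
  rw [derivative_mul, char3_derivative_cube, zero_mul, zero_add]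

theorem exists_dec (q : k[X]) : ∃ q₀ q₁ q₂ : k[X], q = q₀ ^ 3 + X * q₁ ^ 3 + X ^ 2 * q₂ ^ 3 := by
  induction q using Polynomial.induction_on' with
  | add p q hp hq =>
    obtain ⟨a, b, c, rfl⟩ := hp
    obtain ⟨a', b', c', rfl⟩ := hq
    refine ⟨a + a', b + b', c + c', ?_⟩
    rw [cube_add, cube_add, cube_add]
    ring
  | monomial n a =>
    obtain ⟨r, rfl⟩ := IsAlgClosed.exists_pow_nat_eq a (n := 3) (by norm_num)
    rw [← C_mul_X_pow_eq_monomial, C_pow]
    obtain ⟨t, ht | ht | ht⟩ : ∃ t, n = 3 * t ∨ n = 3 * t + 1 ∨ n = 3 * t + 2 :=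
      ⟨n / 3, by omega⟩
    · exact ⟨C r * X ^ t, 0, 0, by rw [ht]; ring⟩
    · exact ⟨0, C r * X ^ t, 0, by rw [ht]; ring⟩
    · exact ⟨0, 0, C r * X ^ t, by rw [ht]; ring⟩

omit [IsAlgClosed k] in
theorem char3_dec_d (q₀ q₁ q₂ : k[X]) :
    derivative (q₀ ^ 3 + X * q₁ ^ 3 + X ^ 2 * q₂ ^ 3) = q₁ ^ 3 + 2 * X * q₂ ^ 3 := by
  rw [derivative_add, derivative_add, char3_derivative_cube, mul_comm X, derivative_cube_mul,
    mul_comm (X ^ 2), derivative_cube_mul, derivative_X, derivative_X_sq]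
  simp only [map_ofNat]
  ring

omit [IsAlgClosed k] in
theorem char3_dec_dd (q₀ q₁ q₂ : k[X]) :
    derivative (derivative (q₀ ^ 3 + X * q₁ ^ 3 + X ^ 2 * q₂ ^ 3)) = - q₂ ^ 3 := by
  have h3 : (3 : k[X]) = 0 := three_eq_zero
  rw [char3_dec_d, derivative_add, char3_derivative_cube, mul_comm (2 * X), derivative_cube_mul]
  simp only [derivative_mul, derivative_ofNat, derivative_X]
  linear_combination q₂ ^ 3 * h3

omit [IsAlgClosed k] in
theorem dec_unique {q₀ q₁ q₂ : k[X]} (h : q₀ ^ 3 + X * q₁ ^ 3 + X ^ 2 * q₂ ^ 3 = 0) :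
    q₀ = 0 ∧ q₁ = 0 ∧ q₂ = 0 := by
  have h2 := char3_dec_dd q₀ q₁ q₂
  have h1 := char3_dec_d q₀ q₁ q₂
  rw [h] at h1 h2
  simp only [derivative_zero] at h1 h2
  have e2 : q₂ = 0 := pow_eq_zero_iff (n := 3) (by norm_num) |>.1 (neg_eq_zero.1 h2.symm)
  have e1 : q₁ = 0 := pow_eq_zero_iff (n := 3) (by norm_num) |>.1 (by
    rw [e2] at h1; simpa using h1.symm)
  have e0 : q₀ = 0 := pow_eq_zero_iff (n := 3) (by norm_num) |>.1 (by
    rw [e1, e2] at h; simpa using h)
  exact ⟨e0, e1, e2⟩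

omit [IsAlgClosed k] in
theorem dec_natDegree {q₀ q₁ q₂ : k[X]}
    (h : (q₀ ^ 3 + X * q₁ ^ 3 + X ^ 2 * q₂ ^ 3).natDegree ≤ 8) :
    q₀.natDegree ≤ 2 ∧ q₁.natDegree ≤ 2 ∧ q₂.natDegree ≤ 2 := by
  have h2 := char3_dec_dd q₀ q₁ q₂
  have h1 := char3_dec_d q₀ q₁ q₂
  set q := q₀ ^ 3 + X * q₁ ^ 3 + X ^ 2 * q₂ ^ 3 with hq
  have d1 := natDegree_derivative_le q
  have d2 := natDegree_derivative_le (derivative q)
  have e2 : q₂.natDegree ≤ 2 := by
    rw [h2, natDegree_neg, natDegree_pow] at d2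
    omega
  have c2 : (q₂ ^ 3).natDegree ≤ 6 := by rw [natDegree_pow]; omega
  have e1 : q₁.natDegree ≤ 2 := by
    have : q₁ ^ 3 = derivative q - 2 * X * q₂ ^ 3 := by rw [h1]; ring
    have b : (q₁ ^ 3).natDegree ≤ 7 := by
      rw [this]
      refine (natDegree_sub_le _ _).trans (max_le (by omega) ?_)
      have : (2 * X * q₂ ^ 3 : k[X]).natDegree ≤ 1 + 6 :=
        natDegree_mul_le_of_le (by compute_degree) c2
      omega
    rw [natDegree_pow] at b
    omega
  have c1 : (q₁ ^ 3).natDegree ≤ 6 := by rw [natDegree_pow]; omega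
  have e0 : q₀.natDegree ≤ 2 := by
    have : q₀ ^ 3 = q - X * q₁ ^ 3 - X ^ 2 * q₂ ^ 3 := by rw [hq]; ring
    have b : (q₀ ^ 3).natDegree ≤ 8 := by
      rw [this]
      have a1 : (X * q₁ ^ 3 : k[X]).natDegree ≤ 1 + 6 :=
        natDegree_mul_le_of_le (by compute_degree) c1
      have a2 : (X ^ 2 * q₂ ^ 3 : k[X]).natDegree ≤ 2 + 6 :=
        natDegree_mul_le_of_le (by compute_degree) c2
      refine (natDegree_sub_le _ _).trans (max_le ((natDegree_sub_le _ _).trans
        (max_le h (by omega))) (by omega))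
    rw [natDegree_pow] at b
    omega
  exact ⟨e0, e1, e2⟩

omit [IsAlgClosed k] in
/-- a polynomial with vanishing second derivative has no zero of order `2 mod 3` -/
theorem rm_mod_three {f : k[X]} (hf : f ≠ 0) (h : derivative (derivative f) = 0) (b : k) :
    rootMultiplicity b f % 3 ≠ 2 := by
  intro hm
  obtain ⟨g, hg, hnd⟩ := exists_eq_pow_rootMultiplicity_mul_and_not_dvd f hf b
  obtain ⟨t, ht⟩ : ∃ t, rootMultiplicity b f = 3 * t + 2 := ⟨rootMultiplicity b f / 3, by omega⟩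
  have e : f = ((X - C b) ^ t) ^ 3 * ((X - C b) ^ 2 * g) := by
    rw [hg, ht]; ring
  rw [e, derivative_cube_mul, derivative_cube_mul] at h
  have h' := (mul_eq_zero.1 h).resolve_left (pow_ne_zero _ (pow_ne_zero _ (X_sub_C_ne_zero b)))
  have h'' := congrArg (eval b) h'
  simp [derivative_mul, derivative_pow] at h''
  have h3 : (3 : k) = 0 := three_eq_zero'
  apply hnd
  rw [dvd_iff_isRoot]
  rcases h'' with h2 | h2
  · exfalso
    have : (1 : k) = 0 := by linear_combination h3 - h2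
    exact one_ne_zero this
  · exact h2

omit [IsAlgClosed k] [CharP k 3] in
theorem rm_le_rm_dd {f : k[X]} (h : derivative (derivative f) ≠ 0) (b : k) :
    rootMultiplicity b f ≤ rootMultiplicity b (derivative (derivative f)) + 2 := by
  have h1 : derivative f ≠ 0 := fun e => h (by rw [e, derivative_zero])
  have a := rootMultiplicity_sub_one_le_derivative_rootMultiplicity_of_ne_zero f b h1
  have c := rootMultiplicity_sub_one_le_derivative_rootMultiplicity_of_ne_zero _ b h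
  omega

omit [CharP k 3] in
theorem dvd_of_rm_le {f g : k[X]} (hf : f ≠ 0) (hg : g ≠ 0)
    (h : ∀ b, rootMultiplicity b f ≤ rootMultiplicity b g) : f ∣ g := by
  classical
  have _ := hg
  refine (IsAlgClosed.splits f).dvd_of_roots_le_roots hf (Multiset.le_iff_count.2 fun b => ?_)
  rw [count_roots, count_roots]
  exact h b

omit [CharP k 3] in
theorem coprime_of_no_root {f g : k[X]} (h : ∀ b, f.eval b = 0 → g.eval b ≠ 0) :
    IsCoprime f g := by
  rw [isCoprime_iff_aeval_ne_zero_of_isAlgClosed k k]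
  intro a
  simp only [coe_aeval_eq_eval]
  by_cases e : f.eval a = 0
  · exact Or.inr (h a e)
  · exact Or.inl e

omit [CharP k 3] in
/-- a tuple without common root all of whose Wronskians vanish has zero derivative -/
theorem derivative_eq_zero_of_wronskian {X' : Fin 4 → k[X]} (hc : ∀ b, ∃ i, (X' i).eval b ≠ 0)
    (hw : ∀ i j, wronskian (X' i) (X' j) = 0) (i : Fin 4) : derivative (X' i) = 0 := by
  by_contra hd
  have h0 : X' i ≠ 0 := fun e => hd (by rw [e, derivative_zero])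
  refine hd (dvd_derivative_iff.1 (dvd_of_rm_le h0 hd fun b => ?_))
  obtain ⟨j, hj⟩ := hc b
  have hj0 : X' j ≠ 0 := fun e => hj (by rw [e, eval_zero])
  have e : X' i * derivative (X' j) = derivative (X' i) * X' j := sub_eq_zero.1 (hw i j)
  have hne : derivative (X' i) * X' j ≠ 0 := mul_ne_zero hd hj0
  have r : rootMultiplicity b (derivative (X' i) * X' j) =
      rootMultiplicity b (derivative (X' i)) := by
    rw [rootMultiplicity_mul hne, rootMultiplicity_eq_zero (p := X' j) hj, add_zero]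
  rw [← r, le_rootMultiplicity_iff hne, ← e]
  exact (pow_rootMultiplicity_dvd _ _).mul_right _

omit [CharP k 3] in
/-- extraction of the greatest common divisor -/
theorem exists_gcd_tuple {F : Fin 4 → k[X]} (hF : ∃ i, F i ≠ 0) :
    ∃ (h : k[X]) (X' : Fin 4 → k[X]), h ≠ 0 ∧ (∀ i, F i = h * X' i) ∧
      ∀ b, ∃ i, (X' i).eval b ≠ 0 := by
  classical
  obtain ⟨g, hg, h1⟩ := Finset.extract_gcd (s := Finset.univ) F Finset.univ_nonempty
  refine ⟨Finset.univ.gcd F, g, fun e => ?_, fun i => hg i (Finset.mem_univ i), fun b => ?_⟩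
  · obtain ⟨i, hi⟩ := hF
    exact hi (by rw [hg i (Finset.mem_univ i), e, zero_mul])
  · by_contra hb
    push Not at hb
    have : X - C b ∣ Finset.univ.gcd g := Finset.dvd_gcd fun i _ => dvd_iff_isRoot.2 (hb i)
    rw [h1] at this
    exact not_isUnit_X_sub_C b (isUnit_of_dvd_one this)

omit [IsAlgClosed k] [CharP k 3] in
theorem natDegree_wronskian_le {R : Type} [CommRing R] {f g : R[X]} {n : ℕ}
    (hf : f.natDegree ≤ n) (hg : g.natDegree ≤ n) (hw : wronskian f g ≠ 0) :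
    (wronskian f g).natDegree + 2 ≤ 2 * n := by
  have hlt := natDegree_wronskian_lt_add hw
  obtain _ | m := n
  · omega
  have df : (derivative f).natDegree ≤ m := (natDegree_derivative_le f).trans (by omega)
  have dg : (derivative g).natDegree ≤ m := (natDegree_derivative_le g).trans (by omega)
  have c : (wronskian f g).coeff (2 * m + 1) = 0 := by
    have a1 := coeff_mul_add_eq_of_natDegree_le hf dg
    have a2 := coeff_mul_add_eq_of_natDegree_le df hg
    rw [wronskian, coeff_sub, show 2 * m + 1 = m + 1 + m by ring, a1,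
      show m + 1 + m = m + (m + 1) by ring, a2, coeff_derivative, coeff_derivative]
    ring
  have : (wronskian f g).natDegree ≠ 2 * m + 1 := fun e =>
    hw (leadingCoeff_eq_zero.1 (by rw [leadingCoeff, e, c]))
  omega

end Pool.Agent.FS
end
end

-- part Pool.Agent.P.MP_57148c_nt.SL
section

open Polynomial

noncomputable section
namespace Pool.Agent.FS

variable {k : Type} [Field k] [IsAlgClosed k] [CharP k 3]

omit [IsAlgClosed k] in
theorem sl_der (a b : k[X]) :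
    derivative (a ^ 5 * b - a * b ^ 5) = (a ^ 4 + b ^ 4) * wronskian a b := by
  simp only [derivative_sub, derivative_mul, derivative_pow_succ, wronskian, map_add, map_natCast,
    map_one]
  push_cast
  linear_combination (2 * a ^ 4 * derivative a * b - 2 * a * b ^ 4 * derivative b) *
    (three_eq_zero (k := k))

omit [IsAlgClosed k] in
theorem sl_scalar {A B : k} (h : A ^ 4 + B ^ 4 = 0) (h' : A ^ 5 * B - A * B ^ 5 = 0) :
    A = 0 ∧ B = 0 := by
  have h3 := three_eq_zero' (k := k)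
  have e : A ^ 5 * B = 0 := by linear_combination (-A * B) * h - h' + (A ^ 5 * B) * h3
  rcases mul_eq_zero.1 e with e | e
  · have a0 : A = 0 := pow_eq_zero_iff (by norm_num) |>.1 e
    refine ⟨a0, pow_eq_zero_iff (n := 4) (by norm_num) |>.1 ?_⟩
    rw [a0] at h
    simpa using h
  · refine ⟨pow_eq_zero_iff (n := 4) (by norm_num) |>.1 ?_, e⟩
    rw [e] at h
    simpa using h

omit [IsAlgClosed k] in
theorem sl_w_zero {c d : k[X]} (h : c ^ 4 + d ^ 4 = 0) : wronskian c d = 0 := by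
  by_cases hc : c = 0
  · rw [hc, wronskian_zero_left]
  have h1 := congrArg derivative h
  simp only [derivative_add, derivative_pow_succ, derivative_zero, map_add, map_natCast,
    map_one] at h1
  push_cast at h1
  have : c ^ 3 * wronskian c d = 0 := by
    rw [wronskian]
    linear_combination derivative d * h - d * h1 +
      (c ^ 3 * derivative c * d + d ^ 4 * derivative d) * (three_eq_zero (k := k))
  exact (mul_eq_zero.1 this).resolve_left (pow_ne_zero _ hc)

/-- the degree count for one factor -/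
theorem sl_deg {a b σ : k[X]} (hab : ∀ t, a.eval t = 0 → b.eval t ≠ 0)
    (hW : wronskian a b ≠ 0) (hσ : σ ≠ 0) (hd : a ^ 5 * b - a * b ^ 5 ∣ σ ^ 3) :
    ∃ α, (a ^ 5 * b - a * b ^ 5).natDegree ≤ 6 * α ∧ 4 * α + 1 ≤ σ.natDegree := by
  classical
  obtain ⟨Q, hQ⟩ : ∃ Q, Q = a ^ 5 * b - a * b ^ 5 := ⟨_, rfl⟩
  have hder : derivative Q = (a ^ 4 + b ^ 4) * wronskian a b := by rw [hQ, sl_der]
  obtain ⟨α, hα⟩ : ∃ α, α = max a.natDegree b.natDegree := ⟨_, rfl⟩
  have ha : a.natDegree ≤ α := hα ▸ le_max_left _ _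
  have hb : b.natDegree ≤ α := hα ▸ le_max_right _ _
  have ha0 : a ≠ 0 := fun e => hW (by rw [e, wronskian_zero_left])
  have hb0 : b ≠ 0 := fun e => hW (by rw [e, wronskian_zero_right])
  have hAB : ¬ (a.coeff α = 0 ∧ b.coeff α = 0) := by
    rintro ⟨h1, h2⟩
    rcases max_choice a.natDegree b.natDegree with e | e
    · rw [hα, e] at h1; exact ha0 (leadingCoeff_eq_zero.1 h1)
    · rw [hα, e] at h2; exact hb0 (leadingCoeff_eq_zero.1 h2)
  have p5 : ∀ f : k[X], f.natDegree ≤ α → (f ^ 5).natDegree ≤ 5 * α := fun f hf =>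
    natDegree_pow_le_of_le 5 hf
  have d6 : Q.natDegree ≤ 6 * α := by
    rw [hQ]
    refine (natDegree_sub_le _ _).trans (max_le ?_ ?_)
    · have := natDegree_mul_le_of_le (p5 a ha) hb; omega
    · have := natDegree_mul_le_of_le ha (p5 b hb); omega
  have c6 : Q.coeff (6 * α) = a.coeff α ^ 5 * b.coeff α - a.coeff α * b.coeff α ^ 5 := by
    have e1 := coeff_mul_add_eq_of_natDegree_le (p5 a ha) hb
    have e2 := coeff_mul_add_eq_of_natDegree_le ha (p5 b hb)
    rw [coeff_pow_of_natDegree_le ha, show 5 * α + α = 6 * α by ring] at e1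
    rw [coeff_pow_of_natDegree_le hb, show α + 5 * α = 6 * α by ring] at e2
    rw [hQ, coeff_sub, e1, e2]
  have c4 : (a ^ 4 + b ^ 4).coeff (4 * α) = a.coeff α ^ 4 + b.coeff α ^ 4 := by
    rw [coeff_add, coeff_pow_of_natDegree_le ha, coeff_pow_of_natDegree_le hb]
  rw [← hQ] at hd ⊢
  have hQ0 : Q ≠ 0 := fun e => pow_ne_zero 3 hσ (zero_dvd_iff.1 (e ▸ hd))
  have cop : IsCoprime Q (a ^ 4 + b ^ 4) := coprime_of_no_root fun t h1 h2 => by
    rw [hQ] at h1
    simp only [eval_sub, eval_mul, eval_pow, eval_add] at h1 h2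
    exact hab t (sl_scalar h2 h1).1 (sl_scalar h2 h1).2
  have g1 : EuclideanDomain.divRadical Q ∣ wronskian a b := by
    have h1 := divRadical_dvd_derivative Q
    rw [hder] at h1
    exact (cop.of_isCoprime_of_dvd_left (EuclideanDomain.divRadical_dvd_self Q)).dvd_of_dvd_mul_left
      h1
  have g2 : UniqueFactorizationMonoid.radical Q ∣ σ :=
    UniqueFactorizationMonoid.isRadical_radical 3 σ
      (UniqueFactorizationMonoid.radical_dvd_self.trans hd)
  have g3 : Q.natDegree = (UniqueFactorizationMonoid.radical Q).natDegree +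
      (EuclideanDomain.divRadical Q).natDegree := by
    rw [← natDegree_mul UniqueFactorizationMonoid.radical_ne_zero
      (EuclideanDomain.divRadical_ne_zero hQ0), EuclideanDomain.radical_mul_divRadical]
  have g4 := natDegree_le_of_dvd g1 hW
  have g5 := natDegree_le_of_dvd g2 hσ
  refine ⟨α, d6, ?_⟩
  by_cases h4 : a.coeff α ^ 4 + b.coeff α ^ 4 = 0
  · have : Q.coeff (6 * α) ≠ 0 := fun e => hAB (sl_scalar h4 (c6 ▸ e))
    have h6 := le_natDegree_of_ne_zero this
    have h7 := natDegree_wronskian_le ha hb hW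
    omega
  · rw [← c4] at h4
    have h6 := le_natDegree_of_ne_zero h4
    have h0 : a ^ 4 + b ^ 4 ≠ 0 := fun e => h4 (by rw [e, coeff_zero])
    have h7 := natDegree_mul h0 hW
    rw [← hder] at h7
    have h8 : derivative Q ≠ 0 := hder ▸ mul_ne_zero h0 hW
    have h9 : Q.natDegree ≠ 0 := fun e => h8 (derivative_of_natDegree_zero e)
    have := natDegree_derivative_lt h9
    omega

/-- the product of the two sextic forms cannot have zero derivative -/
theorem sl_core {a b c d : k[X]} (hab : ∀ t, a.eval t = 0 → b.eval t ≠ 0)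
    (hcd : ∀ t, c.eval t = 0 → d.eval t ≠ 0)
    (h0 : (a ^ 5 * b - a * b ^ 5) * (c ^ 5 * d - c * d ^ 5) ≠ 0)
    (h : derivative ((a ^ 5 * b - a * b ^ 5) * (c ^ 5 * d - c * d ^ 5)) = 0) :
    wronskian a b = 0 ∧ wronskian c d = 0 := by
  obtain ⟨σ, hσ⟩ := exists_cube h
  have q1 := left_ne_zero_of_mul h0
  have q2 := right_ne_zero_of_mul h0
  rw [derivative_mul, sl_der, sl_der] at h
  by_cases w1 : wronskian a b = 0
  · refine ⟨w1, ?_⟩
    rw [w1, mul_zero, zero_mul, zero_add] at h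
    exact (mul_eq_zero.1 ((mul_eq_zero.1 h).resolve_left q1)).elim sl_w_zero id
  by_cases w2 : wronskian c d = 0
  · rw [w2, mul_zero, mul_zero, add_zero] at h
    exact absurd ((mul_eq_zero.1 ((mul_eq_zero.1 h).resolve_right q2)).elim sl_w_zero id) w1
  exfalso
  have s0 : σ ≠ 0 := fun e => h0 (by rw [hσ, e]; simp)
  obtain ⟨α, a1, a2⟩ := sl_deg hab w1 s0 (Dvd.intro _ hσ)
  obtain ⟨γ, c1, c2⟩ := sl_deg hcd w2 s0 (Dvd.intro_left _ hσ)
  have e := congrArg natDegree hσ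
  rw [natDegree_mul q1 q2, natDegree_pow] at e
  omega

/-- a separable component lies on one of the twelve special lines -/
theorem special_line {X' : Fin 4 → k[X]} (hc : ∀ b, ∃ i, (X' i).eval b ≠ 0)
    (h2 : ∑ i, X' i ^ 2 = 0) (h5 : ∑ i, X' i ^ 5 * derivative (X' i) = 0)
    (hw : ∃ i j, wronskian (X' i) (X' j) ≠ 0) : ∃ i j, i ≠ j ∧ X' i ^ 2 + X' j ^ 2 = 0 := by
  by_contra hne
  have hn : ∀ i j, i ≠ j → X' i ^ 2 + X' j ^ 2 ≠ 0 := fun i j h e => hne ⟨i, j, h, e⟩
  obtain ⟨i, hi⟩ := IsAlgClosed.exists_pow_nat_eq (-1 : k) (n := 2) (by norm_num)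
  have hI : (C i : k[X]) ^ 2 = -1 := by rw [← C_pow, hi, C_neg, C_1]
  have h3 := three_eq_zero (k := k)
  rw [Fin.sum_univ_four] at h2 h5
  have hU : X' 0 + C i * X' 1 ≠ 0 := fun e => hn 0 1 (by decide) (by
    linear_combination (X' 0 - C i * X' 1) * e + X' 1 ^ 2 * hI)
  have hV : X' 2 + C i * X' 3 ≠ 0 := fun e => hn 2 3 (by decide) (by
    linear_combination (X' 2 - C i * X' 3) * e + X' 3 ^ 2 * hI)
  obtain ⟨c, d, a, hcd, eU, eV⟩ :=
    UniqueFactorizationMonoid.exists_reduced_factors _ hU (X' 2 + C i * X' 3)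
  have cop : IsCoprime c d := hcd.isCoprime
  have ha : a ≠ 0 := fun e => hU (by rw [← eU, e, zero_mul])
  have hd : d ≠ 0 := fun e => hV (by rw [← eV, e, mul_zero])
  have r1 : c * (X' 0 - C i * X' 1) = d * (-(X' 2 - C i * X' 3)) := by
    refine mul_left_cancel₀ ha ?_
    linear_combination (X' 0 - C i * X' 1) * eU + (X' 2 - C i * X' 3) * eV + h2 -
      (X' 1 ^ 2 + X' 3 ^ 2) * hI
  obtain ⟨b, eU'⟩ : d ∣ X' 0 - C i * X' 1 := cop.symm.dvd_of_dvd_mul_left ⟨_, r1⟩
  have eV' : X' 2 - C i * X' 3 = -(b * c) := by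
    refine mul_left_cancel₀ hd ?_
    linear_combination r1 - c * eU'
  have e0 : X' 0 = -(a * c + b * d) := by linear_combination eU - eU' + X' 0 * h3
  have e1 : X' 1 = C i * (a * c - b * d) := by
    linear_combination (-C i) * eU - C i * eU' - 2 * X' 1 * hI + X' 1 * h3
  have e2 : X' 2 = -(a * d - b * c) := by linear_combination eV - eV' + X' 2 * h3
  have e3 : X' 3 = C i * (a * d + b * c) := by
    linear_combination (-C i) * eV - C i * eV' - 2 * X' 3 * hI + X' 3 * h3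
  have hab : ∀ t, a.eval t = 0 → b.eval t ≠ 0 := fun t h1 h1' => by
    obtain ⟨j, hj⟩ := hc t
    apply hj
    fin_cases j
    · show (X' 0).eval t = 0
      simp [e0, h1, h1']
    · show (X' 1).eval t = 0
      simp [e1, h1, h1']
    · show (X' 2).eval t = 0
      simp [e2, h1, h1']
    · show (X' 3).eval t = 0
      simp [e3, h1, h1']
  have hcd' : ∀ t, c.eval t = 0 → d.eval t ≠ 0 := fun t h1 h1' => by
    obtain ⟨u, v, huv⟩ := cop
    have := congrArg (eval t) huv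
    simp [h1, h1'] at this
  have s1 : X' 0 ^ 2 + X' 1 ^ 2 = 4 * (a * b) * (c * d) := by
    rw [e0, e1]; linear_combination (a * c - b * d) ^ 2 * hI
  have s2 : X' 0 ^ 2 + X' 2 ^ 2 = (a ^ 2 + b ^ 2) * (c ^ 2 + d ^ 2) := by
    rw [e0, e2]; ring
  have s3 : X' 0 ^ 2 + X' 3 ^ 2 = (a ^ 2 - b ^ 2) * (c ^ 2 - d ^ 2) := by
    rw [e0, e3]; linear_combination (a * d + b * c) ^ 2 * hI
  have h0 : (a ^ 5 * b - a * b ^ 5) * (c ^ 5 * d - c * d ^ 5) ≠ 0 := fun e => by
    refine mul_ne_zero (mul_ne_zero (hn 0 1 (by decide)) (hn 0 2 (by decide)))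
      (hn 0 3 (by decide)) ?_
    rw [s1, s2, s3]
    linear_combination 4 * e
  have hI6 : (C i : k[X]) ^ 6 = -1 := by
    rw [show (C i : k[X]) ^ 6 = (C i ^ 2) ^ 3 by ring, hI]; ring
  have hder : derivative ((a ^ 5 * b - a * b ^ 5) * (c ^ 5 * d - c * d ^ 5)) = 0 := by
    have t : (a * c + b * d) ^ 5 * derivative (a * c + b * d) -
        (a * c - b * d) ^ 5 * derivative (a * c - b * d) +
        (a * d - b * c) ^ 5 * derivative (a * d - b * c) -
        (a * d + b * c) ^ 5 * derivative (a * d + b * c) =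
        2 * derivative ((a ^ 5 * b - a * b ^ 5) * (c ^ 5 * d - c * d ^ 5)) := by
      simp only [derivative_sub, derivative_add, derivative_mul, derivative_pow_succ, map_add,
        map_natCast, map_one]
      push_cast
      ring
    rw [e0, e1, e2, e3, derivative_neg, derivative_neg, derivative_C_mul, derivative_C_mul] at h5
    generalize derivative ((a ^ 5 * b - a * b ^ 5) * (c ^ 5 * d - c * d ^ 5)) = D at t ⊢
    generalize derivative (a * c + b * d) = D0 at t h5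
    generalize derivative (a * c - b * d) = D1 at t h5
    generalize derivative (a * d - b * c) = D2 at t h5
    generalize derivative (a * d + b * c) = D3 at t h5
    generalize a * c + b * d = S0 at t h5
    generalize a * c - b * d = S1 at t h5
    generalize a * d - b * c = S2 at t h5
    generalize a * d + b * c = S3 at t h5
    linear_combination t - h5 + (S1 ^ 5 * D1 + S3 ^ 5 * D3) * hI6 + D * h3
  obtain ⟨w1, w2⟩ := sl_core hab hcd' h0 hder
  obtain ⟨da, db⟩ := (coprime_of_no_root hab).wronskian_eq_zero_iff.1 w1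
  obtain ⟨dc, dd⟩ := cop.wronskian_eq_zero_iff.1 w2
  have hz : ∀ j, derivative (X' j) = 0 := fun j => by
    fin_cases j
    · show derivative (X' 0) = 0
      simp [e0, da, db, dc, dd]
    · show derivative (X' 1) = 0
      simp [e1, da, db, dc, dd]
    · show derivative (X' 2) = 0
      simp [e2, da, db, dc, dd]
    · show derivative (X' 3) = 0
      simp [e3, da, db, dc, dd]
  obtain ⟨j, l, hjl⟩ := hw
  exact hjl (by simp [wronskian, hz])

end Pool.Agent.FS
end
end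

-- part Pool.Agent.P.MP_57148c_nt.Val
section

open Polynomial

noncomputable section
namespace Pool.Agent.FS

variable {A : ValuationSubring ℂ}

theorem val_min (s : Finset A) (hs : s.Nonempty) : ∃ c ∈ s, ∀ a ∈ s, c ∣ a := by
  induction hs using Finset.Nonempty.cons_induction with
  | singleton a => exact ⟨a, by simp, by simp⟩
  | cons a s ha hs ih =>
    obtain ⟨c, hc, h⟩ := ih
    rcases ValuationRing.dvd_total a c with e | e
    · exact ⟨a, Finset.mem_cons_self _ _, fun b hb =>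
        (Finset.mem_cons.1 hb).elim (fun e' => e' ▸ dvd_rfl) fun hb => e.trans (h b hb)⟩
    · exact ⟨c, Finset.mem_cons.2 (Or.inr hc), fun b hb =>
        (Finset.mem_cons.1 hb).elim (fun e' => e' ▸ e) (h b)⟩

/-- two elements of a valuation ring are comparable -/
theorem level_cases (c₁ c₂ : A) : (∃ m, res m = 0 ∧ c₂ = c₁ * m) ∨ ∃ e, c₁ = c₂ * e := by
  rcases ValuationRing.dvd_total c₁ c₂ with ⟨m, hm⟩ | h
  · by_cases hu : IsUnit m
    · obtain ⟨u, rfl⟩ := hu
      exact Or.inr ⟨(u⁻¹ : Aˣ), by rw [hm, Units.mul_inv_cancel_right]⟩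
    · exact Or.inl ⟨m, (res_eq_zero_iff m).2 hu, hm⟩
  · exact Or.inr h

/-- division of a finite family by its content -/
theorem exists_prim {ι : Type} [Fintype ι] (F : ι → A[X]) (hF : ∃ i, F i ≠ 0) :
    ∃ (c : A) (G : ι → A[X]), c ≠ 0 ∧ (∀ i, F i = C c * G i) ∧ ∃ i, bar (G i) ≠ 0 := by
  classical
  obtain ⟨i, hi⟩ := hF
  obtain ⟨c, hc, h⟩ := val_min (Finset.univ.biUnion fun i => (F i).coeffs)
    ⟨_, Finset.mem_biUnion.2 ⟨i, Finset.mem_univ _, coeff_mem_coeffs (leadingCoeff_ne_zero.2 hi)⟩⟩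
  obtain ⟨j, -, hj⟩ := Finset.mem_biUnion.1 hc
  obtain ⟨n, hn, e⟩ := mem_coeffs_iff.1 hj
  have hc0 : c ≠ 0 := e ▸ mem_support_iff.1 hn
  have hd : ∀ i, C c ∣ F i := fun i => (C_dvd_iff_dvd_coeff _ _).2 fun m => by
    by_cases h0 : (F i).coeff m = 0
    · rw [h0]; exact dvd_zero c
    · exact h _ (Finset.mem_biUnion.2 ⟨i, Finset.mem_univ _, coeff_mem_coeffs h0⟩)
  choose G hG using hd
  refine ⟨c, G, hc0, hG, j, fun h0 => ?_⟩
  have h1 : (G j).coeff n = 1 := by
    refine mul_left_cancel₀ hc0 ?_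
    rw [← coeff_C_mul, ← hG, mul_one, e]
  have h2 := coeff_bar (G j) n
  rw [h0, h1, coeff_zero, res, map_one] at h2
  exact zero_ne_one h2

theorem exists_prim_one {f : A[X]} (hf : f ≠ 0) :
    ∃ (c : A) (g : A[X]), c ≠ 0 ∧ f = C c * g ∧ bar g ≠ 0 := by
  obtain ⟨c, G, h1, h2, i, h3⟩ := exists_prim (fun _ : Unit => f) ⟨(), hf⟩
  exact ⟨c, G i, h1, h2 i, h3⟩

theorem exists_prim_two {f₁ f₂ : A[X]} (hf : f₁ ≠ 0 ∨ f₂ ≠ 0) :
    ∃ (c : A) (g₁ g₂ : A[X]), c ≠ 0 ∧ f₁ = C c * g₁ ∧ f₂ = C c * g₂ ∧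
      (bar g₁ ≠ 0 ∨ bar g₂ ≠ 0) := by
  obtain ⟨c, G, h1, h2, i, h3⟩ := exists_prim (fun b : Bool => bif b then f₁ else f₂)
    (hf.elim (fun h => ⟨true, h⟩) fun h => ⟨false, h⟩)
  refine ⟨c, G true, G false, h1, h2 true, h2 false, ?_⟩
  cases i
  · exact Or.inr h3
  · exact Or.inl h3

/-- if all reductions vanish, the content lies in the maximal ideal -/
theorem exists_C_mul_of_bar_eq_zero {f : A[X]} (hf : bar f = 0) :
    ∃ (c : A) (g : A[X]), res c = 0 ∧ f = C c * g := by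
  by_cases h0 : f = 0
  · exact ⟨0, 0, map_zero _, by rw [h0, mul_zero]⟩
  · obtain ⟨c, g, -, h2, h3⟩ := exists_prim_one h0
    rw [h2, bar_mul, bar_C] at hf
    exact ⟨c, g, C_eq_zero.1 ((mul_eq_zero.1 hf).resolve_right h3), h2⟩

/-- comparison of two factorisations -/
theorem dvd_of_C_mul_eq {c₁ c₂ : A} {f₁ f₂ : A[X]} (h : C c₁ * f₁ = C c₂ * f₂) (h₁ : bar f₁ ≠ 0)
    (hc : c₂ ≠ 0) : ∃ e, c₁ = c₂ * e ∧ bar f₂ = C (res e) * bar f₁ := by
  rcases level_cases c₁ c₂ with ⟨m, hm, e⟩ | ⟨e, he⟩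
  · have h1 : c₁ ≠ 0 := fun h0 => hc (by rw [e, h0, zero_mul])
    rw [e, C_mul, mul_assoc] at h
    rw [mul_left_cancel₀ (C_ne_zero.2 h1) h, bar_mul, bar_C, hm, C_0, zero_mul] at h₁
    exact absurd rfl h₁
  · rw [he, C_mul, mul_assoc] at h
    exact ⟨e, he, by rw [← mul_left_cancel₀ (C_ne_zero.2 hc) h, bar_mul, bar_C]⟩

/-- Gauss lemma -/
theorem gauss_dvd {c : A} {f w y : A[X]} (hf : bar f ≠ 0) (h : f * w = C c * y) :
    ∃ w₁, w = C c * w₁ := by
  by_cases hw : w = 0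
  · exact ⟨0, by rw [hw, mul_zero]⟩
  have hc : c ≠ 0 := fun h0 => by
    rw [h0, C_0, zero_mul] at h
    exact hf (by rw [(mul_eq_zero.1 h).resolve_right hw, bar_zero])
  obtain ⟨c', g, -, h2, h3⟩ := exists_prim_one hw
  obtain ⟨e, he, -⟩ := dvd_of_C_mul_eq (c₁ := c') (f₁ := f * g) (f₂ := y)
    (by rw [← h, h2, mul_left_comm]) (by rw [bar_mul]; exact mul_ne_zero hf h3) hc
  exact ⟨C e * g, by rw [h2, he, C_mul, mul_assoc]⟩

theorem nred_eq {c : A} {f g : A[X]} (h : f = C c * g) (hc : c ≠ 0) (hg : bar g ≠ 0) :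
    ∃ u : kk A, u ≠ 0 ∧ nred f = C u * bar g := by
  have hex : ∃ g : A[X], bar g ≠ 0 ∧ ∃ c : A, c ≠ 0 ∧ f = C c * g := ⟨g, hg, c, hc, h⟩
  obtain ⟨h1, c', h2, h3⟩ := hex.choose_spec
  obtain ⟨e, -, he⟩ := dvd_of_C_mul_eq (h.symm.trans h3) hg h2
  refine ⟨res e, fun h0 => h1 (by rw [he, h0, C_0, zero_mul]), ?_⟩
  rw [nred, dif_pos hex, he]

theorem nred_ne_zero {f : A[X]} (hf : f ≠ 0) : nred f ≠ 0 := by
  obtain ⟨c, g, h1, h2, h3⟩ := exists_prim_one hf
  obtain ⟨u, hu, e⟩ := nred_eq h2 h1 h3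
  rw [e]
  exact mul_ne_zero (C_ne_zero.2 hu) h3

theorem rm_nred {c : A} {f g : A[X]} (h : f = C c * g) (hc : c ≠ 0) (hg : bar g ≠ 0) (b : kk A) :
    rootMultiplicity b (nred f) = rootMultiplicity b (bar g) := by
  obtain ⟨u, hu, e⟩ := nred_eq h hc hg
  rw [e, rootMultiplicity_mul (mul_ne_zero (C_ne_zero.2 hu) hg), rootMultiplicity_C, zero_add]

theorem nd_nred {c : A} {f g : A[X]} (h : f = C c * g) (hc : c ≠ 0) (hg : bar g ≠ 0) :
    (nred f).natDegree = (bar g).natDegree := by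
  obtain ⟨u, hu, e⟩ := nred_eq h hc hg
  rw [e, natDegree_C_mul hu]

theorem val_nred_zero : nred (0 : A[X]) = 0 := by
  refine dif_neg fun ⟨g, h1, c, h2, h3⟩ => h1 ?_
  rw [(mul_eq_zero.1 h3.symm).resolve_left (C_ne_zero.2 h2), bar_zero]

theorem val_nd_C {c : A} (hc : c ≠ 0) (f : A[X]) :
    (nred (C c * f)).natDegree = (nred f).natDegree := by
  by_cases h0 : f = 0
  · rw [h0, mul_zero]
  · obtain ⟨c', g, h1, h2, h3⟩ := exists_prim_one h0
    rw [nd_nred h2 h1 h3, nd_nred (c := c * c') (g := g) (by rw [h2, C_mul, mul_assoc])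
      (mul_ne_zero hc h1) h3]

theorem nd_nred_le (f : A[X]) : (nred f).natDegree ≤ f.natDegree := by
  by_cases h0 : f = 0
  · rw [h0, val_nred_zero, natDegree_zero]
    exact Nat.zero_le _
  · obtain ⟨c, g, h1, h2, h3⟩ := exists_prim_one h0
    rw [nd_nred h2 h1 h3, h2, natDegree_C_mul h1]
    exact natDegree_bar_le g

theorem rm_nred_comm (f g : A[X]) (b : kk A) :
    rootMultiplicity b (nred (wronskian f g)) = rootMultiplicity b (nred (wronskian g f)) := by
  rw [← wronskian_neg_eq f g]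
  by_cases h0 : wronskian f g = 0
  · rw [h0, neg_zero]
  · obtain ⟨c, w, h1, h2, h3⟩ := exists_prim_one h0
    rw [rm_nred h2 h1 h3,
      rm_nred (c := -c) (g := w) (by rw [h2, C_neg]; ring) (neg_ne_zero.2 h1) h3]

theorem nd_nred_comm (f g : A[X]) :
    (nred (wronskian f g)).natDegree = (nred (wronskian g f)).natDegree := by
  rw [← wronskian_neg_eq f g, ← val_nd_C (c := -1) (by simp) (wronskian f g), C_neg, C_1,
    show -1 * wronskian f g = -wronskian f g by ring]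

theorem nd_nred_C_mul {c : A} (hc : c ≠ 0) (f : A[X]) :
    (nred (C c * f)).natDegree = (nred f).natDegree := by
  exact val_nd_C hc f

end Pool.Agent.FS
end
end

-- part Pool.Agent.P.MP_57148c_nt.Hasse
section

open Polynomial

noncomputable section
namespace Pool.Agent.FS

variable {A : ValuationSubring ℂ} [Three A]

theorem hasse_d3 {R : Type} [CommRing R] (P : R[X]) :
    derivative (derivative (derivative P)) = 6 * hasseDeriv 3 P := by
  have h := congrFun (factorial_smul_hasseDeriv (R := R) 3) P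
  have e : (derivative^[3] P : R[X]) = derivative (derivative (derivative P)) := rfl
  rw [← e, ← h, LinearMap.smul_apply, nsmul_eq_mul]
  norm_num [Nat.factorial]

theorem hasse_d3_zero {k : Type} [Field k] [CharP k 3] (P : k[X]) :
    derivative (derivative (derivative P)) = 0 := by
  rw [hasse_d3]
  linear_combination (2 * hasseDeriv 3 P) * three_eq_zero (k := k)

theorem hasse_cube {R : Type} [CommRing R] (P : R[X]) :
    derivative (derivative (derivative (P ^ 3))) =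
      3 * (2 * derivative P ^ 3 + 6 * (P * derivative P * derivative (derivative P)) +
        P ^ 2 * derivative (derivative (derivative P))) := by
  have e : P ^ 3 = P * P * P := by ring
  rw [e]
  simp only [derivative_mul, derivative_add]
  ring

theorem hasse_k {k : Type} [Field k] [CharP k 3] (G A₁ A₂ : k[X]) :
    derivative (derivative (G * A₁ ^ 3 * (G * A₂ ^ 3) * derivative (G * A₂ ^ 3))) -
      2 * derivative (G * A₁ * A₂ ^ 2) ^ 3 = G ^ 3 * A₂ ^ 3 * wronskian A₂ A₁ ^ 3 := by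
  have h1 : derivative (G * A₂ ^ 3) = A₂ ^ 3 * derivative G := by
    rw [mul_comm, derivative_cube_mul]
  have h2 : G * A₁ ^ 3 * (G * A₂ ^ 3) * (A₂ ^ 3 * derivative G) =
      (A₁ * A₂ ^ 2) ^ 3 * (G * G * derivative G) := by ring
  have h3 : derivative (derivative (G * G * derivative G)) = 2 * derivative G ^ 3 := by
    simp only [derivative_mul, derivative_add, hasse_d3_zero]
    linear_combination (2 * G * derivative G * derivative (derivative G)) * three_eq_zero (k := k)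
  have h4 : derivative (G * A₁ * A₂ ^ 2) =
      derivative G * A₁ * A₂ ^ 2 + G * A₂ * wronskian A₂ A₁ := by
    rw [sq]
    simp only [derivative_mul, wronskian]
    linear_combination (G * A₁ * A₂ * derivative A₂) * three_eq_zero (k := k)
  rw [h1, h2, derivative_cube_mul, derivative_cube_mul, h3, h4, cube_add]
  linear_combination (-(G ^ 3 * A₂ ^ 3 * wronskian A₂ A₁ ^ 3)) * three_eq_zero (k := k)

/-- divided third derivative -/
theorem hasse {f g : A[X]} {G A₁ A₂ : (kk A)[X]} (hf : bar f = G * A₂ ^ 3)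
    (hg : bar g = G * A₁ ^ 3) :
    ∃ Z : A[X], derivative (derivative (f * wronskian g f)) = 3 * Z ∧
      bar Z = G ^ 3 * A₂ ^ 3 * wronskian A₂ A₁ ^ 3 := by
  obtain ⟨P, hP⟩ : ∃ P : A[X], bar P = G * A₁ * A₂ ^ 2 :=
    Polynomial.map_surjective _ IsLocalRing.residue_surjective _
  have h0 : bar (g * f * f - P ^ 3) = 0 := by
    rw [bar_sub, bar_mul, bar_mul, bar_pow, hf, hg, hP]
    ring
  obtain ⟨c, R, hc, hR⟩ := exists_C_mul_of_bar_eq_zero h0
  have hY : g * f * f = P ^ 3 + C c * R := by rw [← hR]; ring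
  have h1 : f * wronskian g f = 3 * (g * f * derivative f) - derivative (g * f * f) := by
    simp only [derivative_mul, wronskian]
    ring
  refine ⟨derivative (derivative (g * f * derivative f)) -
    (2 * derivative P ^ 3 + 6 * (P * derivative P * derivative (derivative P)) +
      P ^ 2 * derivative (derivative (derivative P))) - C c * (2 * hasseDeriv 3 R), ?_, ?_⟩
  · have h3 : ∀ q : A[X], derivative (3 * q) = 3 * derivative q := fun q => by
      rw [derivative_mul, derivative_ofNat, zero_mul, zero_add]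
    rw [h1, hY, derivative_sub, derivative_sub, h3, h3, derivative_add, derivative_add,
      derivative_add, hasse_cube, derivative_C_mul, derivative_C_mul, derivative_C_mul, hasse_d3 R]
    ring
  · simp only [bar_sub, bar_add, bar_mul, bar_pow, bar_C, bar_ofNat, bar_derivative, hc, hf, hg,
      hP, C_0, zero_mul, sub_zero, hasse_d3_zero, mul_zero, add_zero]
    linear_combination hasse_k G A₁ A₂ - (2 * (G * A₁ * A₂ ^ 2 * derivative (G * A₁ * A₂ ^ 2) *
      derivative (derivative (G * A₁ * A₂ ^ 2)))) * three_eq_zero (k := kk A)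

omit [Three A] in
theorem Sol.sum4 {D : ℕ} {x : Fin 4 → A[X]} (h : Sol D x) :
    x 0 ^ 6 + x 1 ^ 6 + x 2 ^ 6 + x 3 ^ 6 = 0 := by
  simpa only [Fin.sum_univ_four] using h.sum

theorem hasse_d6 {R : Type} [CommRing R] (P : R[X]) :
    derivative (P ^ 6) = 6 * (P ^ 5 * derivative P) := by
  have e : P ^ 6 = P * P * P * P * P * P := by ring
  rw [e]
  simp only [derivative_mul]
  ring

omit [Three A] in
theorem Sol.sum5 {D : ℕ} {x : Fin 4 → A[X]} (h : Sol D x) :
    ∑ i, x i ^ 5 * derivative (x i) = 0 := by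
  have h1 := congrArg derivative h.sum4
  simp only [derivative_add, hasse_d6, derivative_zero] at h1
  refine mul_left_cancel₀ (show (6 : A[X]) ≠ 0 by norm_num) ?_
  rw [Fin.sum_univ_four]
  linear_combination h1

omit [Three A] in
theorem Sol.rel {D : ℕ} {x : Fin 4 → A[X]} (h : Sol D x) :
    Rel x fun i j => wronskian (x i) (x j) := by
  refine ⟨fun i j => (wronskian_neg_eq _ _).symm, fun i j l => ?_, fun j => ?_⟩
  · simp only [wronskian]
    ring
  · have h5 := h.sum5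
    simp only [Fin.sum_univ_four, wronskian] at h5 ⊢
    linear_combination derivative (x j) * h.sum4 - x j * h5

omit [Three A] in
theorem Rel.key {R : Type} [CommRing R] {a : Fin 4 → R} {Q : Fin 4 → Fin 4 → R} (h : Rel a Q) :
    a 0 ^ 5 * a 3 * Q 0 1 + a 1 * a 2 ^ 5 * Q 2 3 + a 1 ^ 5 * a 3 * Q 1 1 =
      (a 2 ^ 6 + a 3 ^ 6) * Q 1 3 := by
  have h1 := h.syz 1
  rw [Fin.sum_univ_four] at h1
  linear_combination a 3 * h1 + a 2 ^ 5 * h.cyc 1 2 3 - (a 2 ^ 6 + a 3 ^ 6) * h.anti 3 1 -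
    a 2 ^ 5 * a 3 * h.anti 1 2

omit [Three A] in
theorem Sol.key {D : ℕ} {x : Fin 4 → A[X]} (h : Sol D x) :
    x 0 ^ 5 * x 3 * wronskian (x 0) (x 1) + x 1 * x 2 ^ 5 * wronskian (x 2) (x 3) =
      (x 2 ^ 6 + x 3 ^ 6) * wronskian (x 1) (x 3) := by
  have h1 := h.rel.key
  simpa only [wronskian_self_eq_zero, mul_zero, add_zero] using h1

theorem hasse_sq {k : Type} [Field k] [CharP k 3] {Y : Fin 4 → k[X]}
    (h : Y 0 ^ 6 + Y 1 ^ 6 + Y 2 ^ 6 + Y 3 ^ 6 = 0) : ∑ i, Y i ^ 2 = 0 := by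
  refine pow_eq_zero_iff (n := 3) (by norm_num) |>.1 ?_
  rw [Fin.sum_univ_four, cube_add, cube_add, cube_add]
  linear_combination h

/-- the reduced tuple lies on the quadric -/
theorem Sol.quad {D : ℕ} {x : Fin 4 → A[X]} (H : Sol D x) {h : (kk A)[X]}
    {X' : Fin 4 → (kk A)[X]} (hh : h ≠ 0) (e : ∀ i, bar (x i) = h * X' i) :
    ∑ i, X' i ^ 2 = 0 ∧ ∑ i, X' i ^ 5 * derivative (X' i) = 0 := by
  have h4 := congrArg bar H.sum4
  have h5 := H.sum5
  rw [Fin.sum_univ_four] at h5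
  replace h5 := congrArg bar h5
  simp only [bar_add, bar_mul, bar_pow, bar_zero, bar_derivative, e, derivative_mul] at h4 h5
  have h6 : X' 0 ^ 6 + X' 1 ^ 6 + X' 2 ^ 6 + X' 3 ^ 6 = 0 := by
    refine mul_left_cancel₀ (pow_ne_zero 6 hh) ?_
    linear_combination h4
  refine ⟨hasse_sq h6, mul_left_cancel₀ (pow_ne_zero 6 hh) ?_⟩
  rw [Fin.sum_univ_four]
  linear_combination h5 - h ^ 5 * derivative h * h6

theorem Good.quad {D : ℕ} {x : Fin 4 → A[X]} (H : Sol D x) {h : (kk A)[X]}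
    {a : Fin 4 → (kk A)[X]} (hg : Good D x h a) : ∑ i, a i ^ 2 = 0 := by
  have h1 := (H.quad hg.ne hg.eq).1
  rw [Fin.sum_univ_four] at h1
  exact hasse_sq (by linear_combination h1)

theorem hasse_line {k : Type} [Field k] [IsAlgClosed k] {u v : k[X]} (h : u ^ 2 + v ^ 2 = 0) :
    ∃ i : k, i ^ 2 = -1 ∧ u = C i * v := by
  obtain ⟨i, hi⟩ := IsAlgClosed.exists_pow_nat_eq (-1 : k) (n := 2) (by norm_num)
  have hI : (C i : k[X]) ^ 2 = -1 := by rw [← C_pow, hi, C_neg, C_1]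
  have h1 : (u - C i * v) * (u + C i * v) = 0 := by linear_combination h - v ^ 2 * hI
  rcases mul_eq_zero.1 h1 with h2 | h2
  · exact ⟨i, hi, sub_eq_zero.1 h2⟩
  · exact ⟨-i, by rw [neg_sq, hi], by rw [C_neg]; linear_combination h2⟩

omit [Three A] in
/-- a vanishing sum of two squares gives two linear relations -/
theorem exists_line {k : Type} [Field k] [IsAlgClosed k] {X' : Fin 4 → k[X]}
    (h2 : ∑ i, X' i ^ 2 = 0) (h : X' 0 ^ 2 + X' 1 ^ 2 = 0) :
    ∃ i i' : k, i ^ 2 = -1 ∧ i' ^ 2 = -1 ∧ X' 0 = C i * X' 1 ∧ X' 2 = C i' * X' 3 := by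
  rw [Fin.sum_univ_four] at h2
  obtain ⟨i, hi, e⟩ := hasse_line h
  obtain ⟨i', hi', e'⟩ := hasse_line (u := X' 2) (v := X' 3) (by linear_combination h2 - h)
  exact ⟨i, i', hi, hi', e, e'⟩

end Pool.Agent.FS
end
end

-- part Pool.Agent.P.MP_57148c_nt.Root
section

open Polynomial

noncomputable section
namespace Pool.Agent.FS

variable {A : ValuationSubring ℂ}

lemma root_inj : Function.Injective (algebraMap A ℂ) := Subtype.val_injective

lemma root_dvd {l f : A[X]} (hl : bar l ≠ 0)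
    (h : l.map (algebraMap A ℂ) ∣ f.map (algebraMap A ℂ)) : l ∣ f := by
  obtain ⟨q, hq⟩ := h
  obtain ⟨d, hd, e⟩ := IsLocalization.integerNormalization_spec (nonZeroDivisors A) q
  have hd0 : d ≠ 0 := nonZeroDivisors.ne_zero hd
  have e1 : l * IsLocalization.integerNormalization (nonZeroDivisors A) q = C d * f := by
    apply Polynomial.map_injective _ root_inj
    rw [Polynomial.map_mul, Polynomial.map_mul, e, hq, map_C, Algebra.smul_def]
    have : algebraMap A ℂ[X] d = C (algebraMap A ℂ d) := rfl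
    rw [this]
    ring
  obtain ⟨w, hw⟩ := gauss_dvd hl e1
  refine ⟨w, mul_left_cancel₀ (C_ne_zero.2 hd0) ?_⟩
  rw [← e1, hw]
  ring

lemma root_aux (b : kk A) (n : ℕ) : ∀ f : A[X], f.natDegree = n → bar f ≠ 0 →
    (bar f).eval b = 0 → ∃ a : A, res a = b ∧ f.eval a = 0 := by
  induction n with
  | zero =>
    intro f hn hf hb
    rw [eq_C_of_natDegree_eq_zero hn, bar_C] at hf hb
    rw [eval_C] at hb
    exact absurd (by rw [hb, C_0]) hf
  | succ n ih =>
    intro f hn hf hb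
    have hf0 : f ≠ 0 := by
      rintro rfl
      exact hf bar_zero
    have hdeg : (f.map (algebraMap A ℂ)).degree ≠ 0 := by
      rw [degree_map_eq_of_injective root_inj, degree_eq_natDegree hf0, hn]
      exact_mod_cast Nat.succ_ne_zero n
    obtain ⟨t, ht⟩ := IsAlgClosed.exists_root _ hdeg
    have key : ∀ l : A[X], l.natDegree = 1 → (bar l).eval b ≠ 0 →
        l.map (algebraMap A ℂ) ∣ f.map (algebraMap A ℂ) → ∃ a : A, res a = b ∧ f.eval a = 0 := by
      intro l h1 h2 h3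
      have hl : bar l ≠ 0 := fun h => h2 (by rw [h, eval_zero])
      obtain ⟨g, rfl⟩ := root_dvd hl h3
      rw [bar_mul] at hf hb
      rw [eval_mul] at hb
      have hg : g.natDegree = n := by
        rw [natDegree_mul (left_ne_zero_of_mul hf0) (right_ne_zero_of_mul hf0), h1] at hn
        omega
      obtain ⟨a, ha, e⟩ := ih g hg (right_ne_zero_of_mul hf) ((mul_eq_zero.1 hb).resolve_left h2)
      exact ⟨a, ha, by rw [eval_mul, e, mul_zero]⟩
    by_cases hA : t ∈ A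
    · by_cases hr : res (⟨t, hA⟩ : A) = b
      · refine ⟨⟨t, hA⟩, hr, root_inj ?_⟩
        rw [map_zero, ← eval_map_apply]
        exact ht
      · refine key (X - C ⟨t, hA⟩) (natDegree_X_sub_C _) ?_ ?_
        · rw [bar_sub, bar_X, bar_C, eval_sub, eval_X, eval_C]
          exact sub_ne_zero.2 fun h => hr h.symm
        · rw [Polynomial.map_sub, map_X, map_C]
          exact dvd_iff_isRoot.2 ht
    · have hu : t⁻¹ ∈ A := (A.mem_or_inv_mem t).resolve_left hA
      have ht0 : t ≠ 0 := fun h => hA (h ▸ A.zero_mem)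
      have hu0 : (⟨t⁻¹, hu⟩ : A) ≠ 0 := fun h => inv_ne_zero ht0 (congrArg Subtype.val h)
      have hres : res (⟨t⁻¹, hu⟩ : A) = 0 := by
        rw [res_eq_zero_iff]
        intro h
        obtain ⟨v, hv⟩ := h.exists_right_inv
        have hv' : t⁻¹ * (v : ℂ) = 1 := congrArg Subtype.val hv
        have : t = v := by field_simp at hv'; exact hv'.symm
        exact hA (this ▸ v.2)
      refine key (C ⟨t⁻¹, hu⟩ * X + C (-1)) (natDegree_linear hu0) ?_ ?_
      · rw [bar_add, bar_mul, bar_C, hres, bar_C]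
        simp
      · have : (C (⟨t⁻¹, hu⟩ : A) * X + C (-1)).map (algebraMap A ℂ) = C t⁻¹ * (X - C t) := by
          rw [Polynomial.map_add, Polynomial.map_mul, map_C, map_C, map_X, mul_sub, ← C_mul,
            inv_mul_cancel₀ ht0, map_neg, map_one, C_neg, sub_eq_add_neg]
          rfl
        rw [this, (isUnit_C.2 (inv_ne_zero ht0).isUnit).mul_left_dvd]
        exact dvd_iff_isRoot.2 ht

/-- a root of the reduction lifts to a root -/
theorem exists_root {f : A[X]} (hf : bar f ≠ 0) {b : kk A} (hb : (bar f).eval b = 0) :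
    ∃ a : A, res a = b ∧ f.eval a = 0 :=
  root_aux b _ f rfl hf hb

instance isAlgClosed : IsAlgClosed (kk A) := by
  refine IsAlgClosed.of_exists_root _ fun p hp hi => ?_
  obtain ⟨q, rfl, hd, hq⟩ := lifts_and_natDegree_eq_and_monic
    (mem_lifts_of_surjective (IsLocalRing.residue_surjective (R := A)) p) hp
  have hdeg : (q.map (algebraMap A ℂ)).degree ≠ 0 := by
    rw [degree_map_eq_of_injective root_inj, degree_eq_natDegree hq.ne_zero, hd]
    exact_mod_cast hi.natDegree_pos.ne'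
  obtain ⟨t, ht⟩ := IsAlgClosed.exists_root _ hdeg
  have hint : IsIntegral A t := ⟨q, hq, by rw [← eval_map]; exact ht⟩
  obtain ⟨y, rfl⟩ := IsIntegrallyClosed.isIntegral_iff.1 hint
  have hy : q.eval y = 0 := by
    apply root_inj
    rw [map_zero, ← eval_map_apply]
    exact ht
  exact ⟨res y, by rw [eval_map_apply, hy, map_zero]⟩

theorem exists_pow_eq (c : A) {n : ℕ} (hn : 0 < n) : ∃ s : A, s ^ n = c := by
  obtain ⟨z, hz⟩ := IsAlgClosed.exists_pow_nat_eq (algebraMap A ℂ c) hn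
  have hint : IsIntegral A z := IsIntegral.of_pow hn (hz ▸ isIntegral_algebraMap)
  obtain ⟨y, rfl⟩ := IsIntegrallyClosed.isIntegral_iff.1 hint
  exact ⟨y, root_inj (by rw [map_pow, hz])⟩

theorem exists_sqrt_lift [Three A] {i : kk A} (hi : i ^ 2 = -1) :
    ∃ I : A, I ^ 2 = -1 ∧ res I = i := by
  have e : bar (X ^ 2 + C 1 : A[X]) = X ^ 2 + C 1 := by
    rw [bar_add, bar_pow, bar_X, C_1, C_1, bar_one]
  obtain ⟨a, ha, h⟩ := exists_root (f := (X ^ 2 + C 1 : A[X])) (b := i)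
    (by rw [e]; exact (monic_X_pow_add_C _ two_ne_zero).ne_zero) (by rw [e]; simp [hi])
  refine ⟨a, ?_, ha⟩
  rw [eval_add, eval_pow, eval_X, eval_C] at h
  exact eq_neg_of_add_eq_zero_left h

theorem dvd_of_pow_dvd {a b : A} {n : ℕ} (hn : 0 < n) (h : a ^ n ∣ b ^ n) : a ∣ b :=
  (IsIntegrallyClosed.pow_dvd_pow_iff hn.ne').1 h

/-- a closed disc inside the residue disc of `res a` contains at most as many zeros -/
theorem nd_nred_comp_le {f : A[X]} (hf : f ≠ 0) (a : A) {s : A} (hs : s ≠ 0) (hs0 : res s = 0) :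
    (nred (f.comp (C a + C s * X))).natDegree ≤ rootMultiplicity (res a) (nred f) := by
  obtain ⟨c, g, hc, hfg, hg⟩ := exists_prim_one hf
  rw [rm_nred hfg hc hg, rootMultiplicity_eq_natTrailingDegree]
  have e1 : (bar g).comp (X + C (res a)) = bar (g.comp (X + C a)) := by
    simp only [bar, map_comp, Polynomial.map_add, map_X, map_C]
  have e2 : f.comp (C a + C s * X) = C c * (g.comp (X + C a)).comp (C s * X) := by
    rw [hfg, mul_comp, C_comp, comp_assoc, add_comp, X_comp, C_comp, add_comm (C a)]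
  have h1 : bar (g.comp (X + C a)) ≠ 0 := by
    rw [← e1]
    exact fun h => hg (comp_X_add_C_eq_zero_iff.1 h)
  rw [e1, e2]
  generalize g.comp (X + C a) = g1 at h1
  have hu : res (g1.coeff (bar g1).natTrailingDegree) ≠ 0 := by
    rw [← coeff_bar]
    exact coeff_natTrailingDegree_ne_zero.2 h1
  generalize (bar g1).natTrailingDegree = m at hu
  have hu0 : g1.coeff m ≠ 0 := fun h => hu (by rw [h]; exact map_zero (IsLocalRing.residue A))
  have h2 : g1.comp (C s * X) ≠ 0 := fun h => by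
    have := congrArg (fun p => coeff p m) h
    simp only [comp_C_mul_X_coeff, coeff_zero] at this
    exact mul_ne_zero hu0 (pow_ne_zero _ hs) this
  obtain ⟨c1, g2, hc1, e3, hg2⟩ := exists_prim_one h2
  rw [nd_nred_C_mul hc, nd_nred e3 hc1 hg2, natDegree_le_iff_coeff_eq_zero]
  intro N hN
  obtain ⟨d, rfl⟩ := Nat.exists_eq_add_of_lt hN
  have co : ∀ j, g1.coeff j * s ^ j = c1 * g2.coeff j := fun j => by
    rw [← comp_C_mul_X_coeff, e3, coeff_C_mul]
  have e4 : g2.coeff (m + d + 1) * g1.coeff m =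
      g1.coeff (m + d + 1) * s ^ d * g2.coeff m * s := by
    apply mul_left_cancel₀ hc1
    linear_combination (-g1.coeff m) * co (m + d + 1) +
      g1.coeff (m + d + 1) * s ^ d * s * co m
  have e5 := congrArg (IsLocalRing.residue A) e4
  have hs1 : IsLocalRing.residue A s = 0 := hs0
  rw [map_mul, map_mul _ _ s, hs1, mul_zero] at e5
  rw [coeff_bar]
  exact (mul_eq_zero.1 e5).resolve_right hu

theorem exists_three : ∃ A : ValuationSubring ℂ, Three A := by
  have hI : Ideal.span {(3 : (⊥ : Subring ℂ))} ≠ ⊤ := by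
    rw [Ne, Ideal.span_singleton_eq_top]
    intro h
    obtain ⟨⟨v, hv⟩, e⟩ := h.exists_right_inv
    obtain ⟨n, rfl⟩ := Subring.mem_bot.1 hv
    have e' : (3 : ℂ) * (n : ℂ) = 1 := congrArg Subtype.val e
    have e'' : (3 : ℤ) * n = 1 := by exact_mod_cast e'
    omega
  obtain ⟨B, -, hB⟩ := Ideal.image_subset_nonunits_valuationSubring _ hI
  refine ⟨B, ⟨(IsLocalRing.residue_eq_zero_iff _).2 (B.coe_mem_nonunits_iff.1 ?_)⟩⟩
  exact hB ⟨3, Ideal.subset_span rfl, rfl⟩

end Pool.Agent.FS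
end
end

-- part Pool.Agent.P.MP_57148c_nt.LevA
section

open Polynomial

noncomputable section
namespace Pool.Agent.FS

variable {A : ValuationSubring ℂ} [Three A]

/-- criterion for the generic case: `x 2 ^ 6 + x 3 ^ 6` is small -/
theorem gen_of_small {D : ℕ} {x : Fin 4 → A[X]} (H : Sol D x) {i i' : kk A} (hi : i ^ 2 = -1)
    (hi' : i' ^ 2 = -1) (h0 : bar (x 0) = C i * bar (x 1)) (h2 : bar (x 2) = C i' * bar (x 3))
    (h1 : bar (x 1) ≠ 0) (h3 : bar (x 3) ≠ 0) {c : A} {q1 q3 R : A[X]}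
    (e1 : wronskian (x 0) (x 1) = C c * q1) (e3 : wronskian (x 2) (x 3) = C c * q3)
    (hq : bar q1 ≠ 0 ∨ bar q3 ≠ 0) (hR : bar R = 0)
    (hB : (x 2 ^ 6 + x 3 ^ 6) * wronskian (x 1) (x 3) = C c * R) : Gen x i i' := by
  refine ⟨c, q1, q3, e1, e3, hq, ?_⟩
  have hc : (C c : A[X]) ≠ 0 := fun hc => H.ind 0 1 (by decide) (by rw [e1, hc, zero_mul])
  have hk := H.key
  rw [e1, e3, hB] at hk
  have hk' : x 0 ^ 5 * x 3 * q1 + x 1 * x 2 ^ 5 * q3 = R :=
    mul_left_cancel₀ hc (by linear_combination hk)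
  have hb := congrArg bar hk'
  simp only [bar_add, bar_mul, bar_pow, h0, h2, hR] at hb
  have hI : (C i : (kk A)[X]) ^ 2 = -1 := by rw [← C_pow, hi, C_neg, C_1]
  have hI' : (C i' : (kk A)[X]) ^ 2 = -1 := by rw [← C_pow, hi', C_neg, C_1]
  refine mul_left_cancel₀ (mul_ne_zero h1 h3) ?_
  linear_combination hb - (C i * (C i ^ 2 - 1) * bar (x 1) ^ 5 * bar (x 3) * bar q1) * hI -
    (C i' * (C i' ^ 2 - 1) * bar (x 1) * bar (x 3) ^ 5 * bar q3) * hI'

/-- expansion in the shallow case -/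
theorem exp_shal {ζ ρ μ : A} (hζ : ζ ^ 6 = -1) (hρ : res ρ = 0) (hμ : res μ = 0)
    (h3 : 3 = ρ ^ 2 * μ) (y m : A[X]) :
    ∃ R : A[X], (C ζ * y + C ρ * m) ^ 6 + y ^ 6 = C (ρ ^ 3) * R ∧
      bar R = 2 * (C (res ζ) * bar y * bar m) ^ 3 := by
  have hζ' : (C ζ : A[X]) ^ 6 = -1 := by rw [← C_pow, hζ, C_neg, C_1]
  have h3' : (3 : A[X]) = C ρ ^ 2 * C μ := by rw [← C_pow, ← C_mul, ← h3]; rfl
  refine ⟨2 * C μ * C ζ ^ 5 * y ^ 5 * m + 5 * C μ * C ρ * C ζ ^ 4 * y ^ 4 * m ^ 2 +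
    20 * C ζ ^ 3 * y ^ 3 * m ^ 3 + 15 * C ρ * C ζ ^ 2 * y ^ 2 * m ^ 4 +
    6 * C ρ ^ 2 * C ζ * y * m ^ 5 + C ρ ^ 3 * m ^ 6, ?_, ?_⟩
  · rw [C_pow]
    linear_combination y ^ 6 * hζ' +
      (2 * C ρ * C ζ ^ 5 * y ^ 5 * m + 5 * C ρ ^ 2 * C ζ ^ 4 * y ^ 4 * m ^ 2) * h3'
  · simp only [bar_add, bar_mul, bar_pow, bar_C, bar_ofNat, hρ, hμ, C_0]
    linear_combination (6 * (C (res ζ) * bar y * bar m) ^ 3) * (three_eq_zero (k := kk A))

/-- expansion in the deep case -/
theorem exp_deep {ζ ρ μ : A} (hζ : ζ ^ 6 = -1) (hζ2 : res ζ ^ 2 = -1) (h3 : ρ ^ 2 = 3 * μ)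
    (y m : A[X]) :
    ∃ R : A[X], (C ζ * y + C ρ * m) ^ 6 + y ^ 6 = C (3 * ρ) * R ∧
      bar R = 2 * (C (res ζ) * bar y ^ 3 * (bar m * (bar y ^ 2 - C (res μ) * bar m ^ 2))) := by
  have hζ' : (C ζ : A[X]) ^ 6 = -1 := by rw [← C_pow, hζ, C_neg, C_1]
  have c3 : (C 3 : A[X]) = 3 := rfl
  have h3' : (C ρ : A[X]) ^ 2 = 3 * C μ := by rw [← C_pow, h3, C_mul, c3]
  have hρ : res ρ = 0 := by
    have := congrArg (IsLocalRing.residue A) h3
    rw [map_pow, map_mul, Three.three, zero_mul] at this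
    exact pow_eq_zero_iff two_ne_zero |>.1 this
  have hI : (C (res ζ) : (kk A)[X]) ^ 2 = -1 := by rw [← C_pow, hζ2, C_neg, C_1]
  refine ⟨2 * C ζ ^ 5 * y ^ 5 * m + 5 * C ρ * C ζ ^ 4 * y ^ 4 * m ^ 2 +
    20 * C μ * C ζ ^ 3 * y ^ 3 * m ^ 3 + 5 * C ρ ^ 3 * C ζ ^ 2 * y ^ 2 * m ^ 4 +
    2 * C ρ ^ 4 * C ζ * y * m ^ 5 + C μ * C ρ ^ 3 * m ^ 6, ?_, ?_⟩
  · rw [C_mul, c3]
    linear_combination y ^ 6 * hζ' +
      (20 * C ρ * C ζ ^ 3 * y ^ 3 * m ^ 3 + C ρ ^ 4 * m ^ 6) * h3'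
  · simp only [bar_add, bar_mul, bar_pow, bar_C, bar_ofNat, hρ, C_0]
    linear_combination
      (6 * C (res μ) * C (res ζ) ^ 3 * bar y ^ 3 * bar m ^ 3) * (three_eq_zero (k := kk A)) +
      (2 * C (res ζ) * (C (res ζ) ^ 2 - 1) * bar y ^ 5 * bar m +
        2 * C (res μ) * C (res ζ) * bar y ^ 3 * bar m ^ 3) * hI

omit [Three A] in
theorem leva_coef {ν : kk A} {y m : (kk A)[X]} (hy : y ≠ 0)
    (h : m * (y ^ 2 - C ν * m ^ 2) = 0) :
    ∃ c : kk A, m = C c * y ∧ c * (1 - ν * c ^ 2) = 0 ∧ (ν = 0 → c = 0) := by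
  rcases mul_eq_zero.1 h with h | h
  · exact ⟨0, by simp [h], by simp, fun _ => rfl⟩
  · have key : ∀ r : kk A, r ^ 2 = ν → y = C r * m →
        ∃ c : kk A, m = C c * y ∧ c * (1 - ν * c ^ 2) = 0 ∧ (ν = 0 → c = 0) := by
      intro r hr e
      have hr0 : r ≠ 0 := fun h0 => hy (by rw [e, h0, C_0, zero_mul])
      refine ⟨r⁻¹, ?_, ?_, fun h0 => absurd (pow_eq_zero_iff two_ne_zero |>.1 (hr.trans h0)) hr0⟩
      · rw [e, ← mul_assoc, ← C_mul, inv_mul_cancel₀ hr0, C_1, one_mul]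
      · rw [← hr]
        field_simp
        ring
    obtain ⟨r, hr⟩ := IsAlgClosed.exists_pow_nat_eq ν two_pos
    have h' : (y - C r * m) * (y + C r * m) = 0 := by
      rw [← hr, C_pow] at h
      linear_combination h
    rcases mul_eq_zero.1 h' with h1 | h1
    · exact key r hr (sub_eq_zero.1 h1)
    · exact key (-r) (by rw [neg_sq, hr]) (by rw [C_neg]; linear_combination h1)

/-- change of the centre -/
theorem recenter {ζ ρ μ : A} (hζ : ζ ^ 6 = -1) (hζ2 : res ζ ^ 2 = -1) (hρ : ρ ≠ 0)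
    (h3 : ρ ^ 2 = 3 * μ) {y m : (kk A)[X]} (hy : y ≠ 0)
    (h : m * (y ^ 2 - C (res μ) * m ^ 2) = 0) :
    ∃ e : A, (ζ + ρ * e) ^ 6 = -1 ∧ m = C (res e) * y ∧ (res μ = 0 → res e = 0) := by
  have _ := hρ
  obtain ⟨c, h1, h2, h4⟩ := leva_coef hy h
  obtain ⟨R, e1, e2⟩ := exp_deep hζ hζ2 h3 1 X
  simp only [bar_one, bar_X, one_pow, mul_one] at e1 e2
  have hR : bar R ≠ 0 := by
    rw [e2]
    refine mul_ne_zero (fun h0 => ?_) (mul_ne_zero (C_ne_zero.2 fun h0 => ?_)
      (mul_ne_zero X_ne_zero fun h0 => ?_))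
    · exact one_ne_zero (α := (kk A)[X]) (by linear_combination (three_eq_zero (k := kk A)) - h0)
    · rw [h0] at hζ2
      simp at hζ2
    · simpa using congrArg (eval 0) h0
  obtain ⟨e, he, hr⟩ := exists_root hR (b := c) (by
    rw [e2]
    simp only [eval_mul, eval_sub, eval_one, eval_C, eval_X, eval_pow]
    rw [h2]; simp)
  refine ⟨e, ?_, by rw [he]; exact h1, fun h0 => he.trans (h4 h0)⟩
  have := congrArg (eval e) e1
  simp only [eval_add, eval_mul, eval_pow, eval_C, eval_X, eval_one, hr, mul_zero] at this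
  exact eq_neg_of_add_eq_zero_left this

end Pool.Agent.FS
end
end

-- part Pool.Agent.P.MP_57148c_nt.LevB
section

open Polynomial

noncomputable section
namespace Pool.Agent.FS

variable {A : ValuationSubring ℂ} [Three A]

omit [Three A] in
theorem levb_w {ζ ρ : A} {z y m : A[X]} (e : z = C ζ * y + C ρ * m) :
    wronskian z y = C ρ * wronskian m y := by
  subst e
  simp only [wronskian, derivative_add, derivative_mul, derivative_C]
  ring

omit [Three A] in
theorem levb_deg {D : ℕ} {ζ ρ : A} {z y m : A[X]} (hρ : ρ ≠ 0) (e : z = C ζ * y + C ρ * m)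
    (hz : z.natDegree ≤ D) (hy : y.natDegree ≤ D) : m.natDegree ≤ D := by
  have : C ρ * m = z - C ζ * y := by rw [e]; ring
  rw [← natDegree_C_mul hρ, this]
  exact (natDegree_sub_le _ _).trans (max_le hz ((natDegree_C_mul_le _ _).trans hy))

omit [Three A] in
/-- a pair with zero reduction is a small multiple of a primitive pair -/
theorem levb_prim {n1 n3 : A[X]} (h : n1 ≠ 0) (b1 : bar n1 = 0) (b3 : bar n3 = 0) :
    ∃ (c : A) (m1 m3 : A[X]), c ≠ 0 ∧ res c = 0 ∧ n1 = C c * m1 ∧ n3 = C c * m3 ∧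
      (bar m1 ≠ 0 ∨ bar m3 ≠ 0) := by
  obtain ⟨c, m1, m3, hc, e1, e3, hp⟩ := exists_prim_two (f₁ := n1) (f₂ := n3) (Or.inl h)
  refine ⟨c, m1, m3, hc, ?_, e1, e3, hp⟩
  by_contra hr
  rw [e1, bar_mul, bar_C] at b1
  rw [e3, bar_mul, bar_C] at b3
  rcases hp with hp | hp
  · exact mul_ne_zero (C_ne_zero.2 hr) hp b1
  · exact mul_ne_zero (C_ne_zero.2 hr) hp b3

omit [Three A] in
theorem levb_ne {i : kk A} (hi : i ^ 2 = -1) : (C i : (kk A)[X]) ≠ 0 := C_ne_zero.2 fun h => by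
  rw [h] at hi
  simp at hi

/-- the deep case for given centres -/
theorem levb_core {D : ℕ} {x : Fin 4 → A[X]} (H : Sol D x) {i i' : kk A} (hi : i ^ 2 = -1)
    (hi' : i' ^ 2 = -1) (h0 : bar (x 0) = C i * bar (x 1)) (h2 : bar (x 2) = C i' * bar (x 3))
    (h1 : bar (x 1) ≠ 0) (h3 : bar (x 3) ≠ 0) {ζ ζ' ρ μ : A} {m1 m3 : A[X]} (hζ : ζ ^ 6 = -1)
    (hζ' : ζ' ^ 6 = -1) (r : res ζ = i) (r' : res ζ' = i') (hρ : ρ ≠ 0) (hμ : ρ ^ 2 = 3 * μ)
    (e0 : x 0 = C ζ * x 1 + C ρ * m1) (e2 : x 2 = C ζ' * x 3 + C ρ * m3) :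
    Gen x i i' ∨ Deep D x i i' ∨ (bar m1 * (bar (x 1) ^ 2 - C (res μ) * bar m1 ^ 2) = 0 ∧
      bar m3 * (bar (x 3) ^ 2 - C (res μ) * bar m3 ^ 2) = 0) := by
  obtain ⟨R1, a1, b1⟩ := exp_deep hζ (r ▸ hi) hμ (x 1) m1
  obtain ⟨R3, a3, b3⟩ := exp_deep hζ' (r' ▸ hi') hμ (x 3) m3
  rw [← e0] at a1
  rw [← e2] at a3
  rw [r] at b1
  rw [r'] at b3
  have h30 : (3 : A) ≠ 0 := fun h => hρ (by
    rw [h, zero_mul] at hμ
    exact pow_eq_zero_iff two_ne_zero |>.1 hμ)
  have h3ρ : (C (3 * ρ) : A[X]) ≠ 0 := C_ne_zero.2 (mul_ne_zero h30 hρ)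
  have hR : R1 + R3 = 0 := by
    refine mul_left_cancel₀ h3ρ ?_
    linear_combination H.sum4 - a1 - a3
  have hS := congrArg bar hR
  rw [bar_add, b1, b3, bar_zero] at hS
  have hS' : C i * bar (x 1) ^ 3 * (bar m1 * (bar (x 1) ^ 2 - C (res μ) * bar m1 ^ 2)) +
      C i' * bar (x 3) ^ 3 * (bar m3 * (bar (x 3) ^ 2 - C (res μ) * bar m3 ^ 2)) = 0 := by
    linear_combination (C i * bar (x 1) ^ 3 * (bar m1 * (bar (x 1) ^ 2 - C (res μ) * bar m1 ^ 2)) +
      C i' * bar (x 3) ^ 3 * (bar m3 * (bar (x 3) ^ 2 - C (res μ) * bar m3 ^ 2))) *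
        (three_eq_zero (k := kk A)) - hS
  have n1 := mul_ne_zero (levb_ne hi) (pow_ne_zero 3 h1)
  have n3 := mul_ne_zero (levb_ne hi') (pow_ne_zero 3 h3)
  by_cases z1 : bar m1 * (bar (x 1) ^ 2 - C (res μ) * bar m1 ^ 2) = 0
  · rw [z1, mul_zero, zero_add] at hS'
    exact Or.inr (Or.inr ⟨z1, (mul_eq_zero.1 hS').resolve_left n3⟩)
  have z3 : bar m3 * (bar (x 3) ^ 2 - C (res μ) * bar m3 ^ 2) ≠ 0 := fun z3 => by
    rw [z3, mul_zero, add_zero] at hS'
    exact mul_ne_zero n1 z1 hS'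
  obtain ⟨c, q1, q3, -, w1, w3, hq⟩ := exists_prim_two (f₁ := wronskian (x 0) (x 1))
    (f₂ := wronskian (x 2) (x 3)) (Or.inl (H.ind 0 1 (by decide)))
  rcases level_cases c (3 * ρ) with ⟨m, hm, e⟩ | ⟨e, he⟩
  · refine Or.inl (gen_of_small H hi hi' h0 h2 h1 h3 w1 w3 hq
      (R := C m * R3 * wronskian (x 1) (x 3)) (by simp [hm]) ?_)
    rw [a3, e, C_mul]
    ring
  · have hC : (C ρ : A[X]) ≠ 0 := C_ne_zero.2 hρ
    have c3 : (C (3 * ρ) : A[X]) = 3 * C ρ := by rw [C_mul]; rfl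
    have k1 : wronskian (x 0) (x 1) = C (3 * ρ) * (C e * q1) := by rw [w1, he, C_mul, mul_assoc]
    have k3 : wronskian (x 2) (x 3) = C (3 * ρ) * (C e * q3) := by rw [w3, he, C_mul, mul_assoc]
    refine Or.inr (Or.inl ⟨ρ, m1, m3, C e * q1, C e * q3, res μ, hρ, k1, k3, ?_, ?_,
      levb_deg hρ e0 (H.deg 0) (H.deg 1), levb_deg hρ e2 (H.deg 2) (H.deg 3), hS', z1, z3⟩)
    · refine mul_left_cancel₀ hC ?_
      rw [← levb_w e0, k1, c3]
      ring
    · refine mul_left_cancel₀ hC ?_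
      rw [← levb_w e2, k3, c3]
      ring

/-- trichotomy near a special line -/
theorem levels {D : ℕ} {x : Fin 4 → A[X]} (H : Sol D x) {i i' : kk A} (hi : i ^ 2 = -1)
    (hi' : i' ^ 2 = -1) (h0 : bar (x 0) = C i * bar (x 1)) (h2 : bar (x 2) = C i' * bar (x 3))
    (h1 : bar (x 1) ≠ 0) (h3 : bar (x 3) ≠ 0) : Gen x i i' ∨ Shal x i i' ∨ Deep D x i i' := by
  obtain ⟨I, hI, rI⟩ := exists_sqrt_lift hi
  obtain ⟨I', hI', rI'⟩ := exists_sqrt_lift hi'
  have six : ∀ J : A, J ^ 2 = -1 → J ^ 6 = -1 := fun J hJ => by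
    linear_combination (J ^ 4 - J ^ 2 + 1) * hJ
  have hne : ∀ {ζ ρ : A} {m : A[X]}, x 0 = C ζ * x 1 + C ρ * m → m ≠ 0 := fun e hm =>
    H.ind 0 1 (by decide) (by rw [levb_w e, hm, wronskian_zero_left, mul_zero])
  obtain ⟨ρ, m1, m3, hρ, rρ, f1, f3, hp⟩ := levb_prim (n1 := x 0 - C I * x 1)
    (n3 := x 2 - C I' * x 3) (hne (ζ := I) (ρ := 1) (by simp)) (by simp [h0, rI])
    (by simp [h2, rI'])
  have e0 : x 0 = C I * x 1 + C ρ * m1 := by linear_combination f1
  have e2 : x 2 = C I' * x 3 + C ρ * m3 := by linear_combination f3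
  rcases level_cases (ρ ^ 2) 3 with ⟨μ, rμ, hμ⟩ | ⟨μ, hμ⟩
  · obtain ⟨R1, a1, b1⟩ := exp_shal (six I hI) rρ rμ hμ (x 1) m1
    obtain ⟨R3, a3, b3⟩ := exp_shal (six I' hI') rρ rμ hμ (x 3) m3
    rw [← e0] at a1
    rw [← e2] at a3
    by_cases hw : wronskian (bar m1) (bar (x 1)) = 0 ∧ wronskian (bar m3) (bar (x 3)) = 0
    · have hR : R1 + R3 = 0 := by
        refine mul_left_cancel₀ (C_ne_zero.2 (pow_ne_zero 3 hρ)) ?_
        linear_combination H.sum4 - a1 - a3
      have hS := congrArg bar hR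
      rw [bar_add, b1, b3, bar_zero, rI, rI'] at hS
      refine Or.inr (Or.inl ⟨I, I', ρ, μ, m1, m3, hI, hI', rI, rI', hρ, rρ, rμ, hμ, e0, e2, hp,
        pow_eq_zero_iff (n := 3) (by norm_num) |>.1 ?_, hw.1, hw.2⟩)
      rw [cube_add]
      linear_combination ((C i * bar (x 1) * bar m1) ^ 3 + (C i' * bar (x 3) * bar m3) ^ 3) *
        (three_eq_zero (k := kk A)) - hS
    · refine Or.inl (gen_of_small H hi hi' h0 h2 h1 h3 (levb_w e0) (levb_w e2) ?_
        (R := C (ρ ^ 2) * R3 * wronskian (x 1) (x 3)) (by simp [rρ]) ?_)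
      · rw [bar_wronskian, bar_wronskian]
        exact not_and_or.1 hw
      · rw [a3, C_pow, C_pow]
        ring
  · rcases levb_core H hi hi' h0 h2 h1 h3 (six I hI) (six I' hI') rI rI' hρ hμ e0 e2 with
      h | h | ⟨z1, z3⟩
    · exact Or.inl h
    · exact Or.inr (Or.inr h)
    obtain ⟨e, ze, be, -⟩ := recenter (six I hI) (rI ▸ hi) hρ hμ h1 z1
    obtain ⟨e', ze', be', -⟩ := recenter (six I' hI') (rI' ▸ hi') hρ hμ h3 z3
    have g0 : x 0 = C (I + ρ * e) * x 1 + C ρ * (m1 - C e * x 1) := by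
      rw [C_add, C_mul]
      linear_combination e0
    have g2 : x 2 = C (I' + ρ * e') * x 3 + C ρ * (m3 - C e' * x 3) := by
      rw [C_add, C_mul]
      linear_combination e2
    obtain ⟨c, m1', m3', hc, rc, u1, u3, hp'⟩ := levb_prim (n1 := m1 - C e * x 1)
      (n3 := m3 - C e' * x 3) (hne g0) (by simp [be]) (by simp [be'])
    rw [u1, ← mul_assoc, ← C_mul] at g0
    rw [u3, ← mul_assoc, ← C_mul] at g2
    rcases levb_core H hi hi' h0 h2 h1 h3 ze ze' (by simp [rρ, rI]) (by simp [rρ, rI'])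
      (mul_ne_zero hρ hc) (μ := μ * c ^ 2) (by linear_combination c ^ 2 * hμ) g0 g2 with
      h | h | ⟨y1, y3⟩
    · exact Or.inl h
    · exact Or.inr (Or.inr h)
    have rμ : res (μ * c ^ 2) = 0 := by simp [rc]
    rw [rμ, C_0, zero_mul, sub_zero] at y1 y3
    rcases hp' with hp' | hp'
    · exact absurd y1 (mul_ne_zero hp' (pow_ne_zero 2 h1))
    · exact absurd y3 (mul_ne_zero hp' (pow_ne_zero 2 h3))

end Pool.Agent.FS
end
end

-- part Pool.Agent.P.MP_57148c_nt.Mob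
section

open Polynomial

noncomputable section
namespace Pool.Agent.FS

theorem mob_rm_le {k : Type} [Field k] {f : k[X]} (hf : f ≠ 0) (b : k) :
    rootMultiplicity b f ≤ f.natDegree := by
  have := natDegree_le_of_dvd (pow_rootMultiplicity_dvd f b) hf
  rwa [natDegree_pow, natDegree_X_sub_C, mul_one] at this

theorem mob_rm_pow {k : Type} [Field k] {f : k[X]} (hf : f ≠ 0) (b : k) (n : ℕ) :
    rootMultiplicity b (f ^ n) = n * rootMultiplicity b f := by
  induction n with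
  | zero => rw [pow_zero, ← C_1, rootMultiplicity_C, zero_mul]
  | succ n ih =>
    rw [pow_succ, rootMultiplicity_mul (mul_ne_zero (pow_ne_zero _ hf) hf), ih, add_mul, one_mul]

theorem mob_eval_ne {k : Type} [Field k] {f g : k[X]} (hc : IsCoprime f g) {b : k}
    (hg : g.eval b = 0) : f.eval b ≠ 0 := by
  obtain ⟨u, v, e⟩ := hc
  intro hf
  have := congrArg (eval b) e
  rw [eval_add, eval_mul, eval_mul, hf, hg, eval_one, mul_zero, mul_zero, add_zero] at this
  exact zero_ne_one this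

/-- a quotient with zero derivative of degree at most 5 is the cube of a Moebius map -/
theorem mob_one {k : Type} [Field k] [IsAlgClosed k] [CharP k 3] {α y : k[X]} (hα : α ≠ 0)
    (hy : y ≠ 0) (hw : wronskian α y = 0) (h1 : α.natDegree ≤ 5) (h2 : y.natDegree ≤ 5) :
    ∃ G A₁ A₂ : k[X], α = G * A₁ ^ 3 ∧ y = G * A₂ ^ 3 ∧ IsCoprime A₁ A₂ ∧
      A₁.natDegree ≤ 1 ∧ A₂.natDegree ≤ 1 := by
  classical
  obtain ⟨U, V, hU, hV, hu⟩ := extract_gcd α y
  generalize gcd α y = g at hU hV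
  have hc : IsCoprime U V := (gcd_isUnit_iff U V).1 hu
  have hg : g ≠ 0 := left_ne_zero_of_mul (hU ▸ hα)
  have hw' : wronskian U V = 0 := by
    have e : wronskian α y = g ^ 2 * wronskian U V := by
      rw [hU, hV]
      simp only [wronskian, derivative_mul]
      ring
    rw [e] at hw
    exact (mul_eq_zero.1 hw).resolve_left (pow_ne_zero _ hg)
  obtain ⟨dU, dV⟩ := hc.wronskian_eq_zero_iff.1 hw'
  obtain ⟨A₁, rfl⟩ := exists_cube dU
  obtain ⟨A₂, rfl⟩ := exists_cube dV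
  refine ⟨g, A₁, A₂, hU, hV, (IsCoprime.pow_iff (by norm_num) (by norm_num)).1 hc, ?_, ?_⟩
  · have := natDegree_le_of_dvd (Dvd.intro_left g hU.symm) hα
    rw [natDegree_pow] at this
    omega
  · have := natDegree_le_of_dvd (Dvd.intro_left g hV.symm) hy
    rw [natDegree_pow] at this
    omega

theorem mob_rm {k : Type} [Field k] [IsAlgClosed k] [CharP k 3] {B₁ B₂ : k[X]} {ν : k}
    (hc : IsCoprime B₁ B₂) (h1 : B₁.natDegree ≤ 1) (h2 : B₂.natDegree ≤ 1) (hB : B₂ ≠ 0)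
    (hF : B₁ * (B₂ ^ 2 - C ν * B₁ ^ 2) ≠ 0) (b : k) :
    rootMultiplicity b (B₁ * (B₂ ^ 2 - C ν * B₁ ^ 2)) ≤ 1 + 3 * rootMultiplicity b B₂ := by
  obtain ⟨r, rfl⟩ := IsAlgClosed.exists_pow_nat_eq ν (two_pos)
  have e : B₂ ^ 2 - C (r ^ 2) * B₁ ^ 2 = (B₂ - C r * B₁) * (B₂ + C r * B₁) := by
    rw [C_pow]
    ring
  rw [e] at hF ⊢
  have hP := right_ne_zero_of_mul hF
  have d1 : (B₂ - C r * B₁).natDegree ≤ 1 :=
    (natDegree_sub_le _ _).trans (max_le h2 ((natDegree_C_mul_le _ _).trans h1))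
  have d2 : (B₂ + C r * B₁).natDegree ≤ 1 :=
    (natDegree_add_le _ _).trans (max_le h2 ((natDegree_C_mul_le _ _).trans h1))
  have r0 := (mob_rm_le (left_ne_zero_of_mul hF) b).trans h1
  have r1 := (mob_rm_le (left_ne_zero_of_mul hP) b).trans d1
  have r2 := (mob_rm_le (right_ne_zero_of_mul hP) b).trans d2
  rw [rootMultiplicity_mul hF, rootMultiplicity_mul hP]
  by_cases hb : B₂.eval b = 0
  · have := (rootMultiplicity_pos hB).2 hb
    omega
  · by_cases hb1 : B₁.eval b = 0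
    · have z1 : rootMultiplicity b (B₂ - C r * B₁) = 0 := rootMultiplicity_eq_zero (by
        rwa [IsRoot.def, eval_sub, eval_mul, hb1, mul_zero, sub_zero])
      have z2 : rootMultiplicity b (B₂ + C r * B₁) = 0 := rootMultiplicity_eq_zero (by
        rwa [IsRoot.def, eval_add, eval_mul, hb1, mul_zero, add_zero])
      omega
    · have z0 : rootMultiplicity b B₁ = 0 := rootMultiplicity_eq_zero hb1
      by_cases hm : (B₂ - C r * B₁).eval b = 0
      · have z2 : rootMultiplicity b (B₂ + C r * B₁) = 0 := by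
          refine rootMultiplicity_eq_zero fun hp => hb ?_
          rw [IsRoot.def, eval_add] at hp
          rw [eval_sub] at hm
          linear_combination B₂.eval b * (three_eq_zero' (k := k)) - hp - hm
        omega
      · have z1 : rootMultiplicity b (B₂ - C r * B₁) = 0 := rootMultiplicity_eq_zero hm
        omega

theorem mob_bracket {k : Type} [Field k] [CharP k 3] (G A₁ A₂ : k[X]) (n : k) :
    G * A₁ ^ 3 * ((G * A₂ ^ 3) ^ 2 - C (n ^ 3) * (G * A₁ ^ 3) ^ 2) =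
      G ^ 3 * (A₁ * (A₂ ^ 2 - C n * A₁ ^ 2)) ^ 3 := by
  rw [mul_pow A₁, sub_pow_char, C_pow]
  ring

theorem mob_wr {k : Type} [Field k] {A₁ A₂ : k[X]} (hc : IsCoprime A₁ A₂) (h2 : A₂.natDegree ≤ 1)
    (hA : A₂ ≠ 0) {b : k} (hb : A₂.eval b = 0) : (wronskian A₂ A₁).eval b ≠ 0 := by
  have h1 := mob_eval_ne hc hb
  rw [wronskian, eval_sub, eval_mul, eval_mul, hb, zero_mul, zero_sub, neg_ne_zero]
  refine mul_ne_zero ?_ h1
  obtain ⟨u, v, rfl⟩ := exists_eq_X_add_C_of_natDegree_le_one h2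
  intro h
  simp only [derivative_add, derivative_C_mul_X, derivative_C, add_zero, eval_C] at h
  subst h
  simp only [map_zero, zero_mul, zero_add, eval_C] at hb
  subst hb
  simp at hA

variable {A : ValuationSubring ℂ} [Three A]

/-- the deep case at a zero of `X₁` -/
theorem deep_root {D : ℕ} (hD : D ≤ 5) {x : Fin 4 → A[X]} (H : Sol D x) {i i' : kk A}
    (hi : i ≠ 0) (hi' : i' ≠ 0) (hd : Deep D x i i') {h X₁ X₃ : (kk A)[X]} (hh : h ≠ 0)
    (e1 : bar (x 1) = h * X₁) (e3 : bar (x 3) = h * X₃) (h1 : X₁ ≠ 0) {b : kk A}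
    (hb : X₁.eval b = 0) (hb3 : X₃.eval b ≠ 0) :
    rootMultiplicity b X₁ ≤ 2 ∧ 0 < rootMultiplicity b h ∧
      rootMultiplicity b (nred (wronskian (x 0) (x 1))) ≤ 2 * rootMultiplicity b h := by
  obtain ⟨ρ, m1, m3, p1, p3, ν, hρ, w01, -, w1, w3, d1, d3, eq, n1, n3⟩ := hd
  have h3 : X₃ ≠ 0 := fun e => hb3 (by rw [e, eval_zero])
  have hy : bar (x 1) ≠ 0 := e1 ▸ mul_ne_zero hh h1
  have hz : bar (x 3) ≠ 0 := e3 ▸ mul_ne_zero hh h3
  have wz : ∀ {f g p : A[X]}, wronskian f g = 3 * p → wronskian (bar f) (bar g) = 0 := by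
    intro f g p e
    rw [← bar_wronskian, e, bar_mul, bar_ofNat, three_eq_zero, zero_mul]
  obtain ⟨G, A₁, A₂, a1, a2, ac, da1, da2⟩ := mob_one (left_ne_zero_of_mul n1) hy (wz w1)
    ((natDegree_bar_le _).trans (d1.trans hD)) ((natDegree_bar_le _).trans ((H.deg 1).trans hD))
  obtain ⟨G', B₁, B₂, b1, b2, bc, db1, db2⟩ := mob_one (left_ne_zero_of_mul n3) hz (wz w3)
    ((natDegree_bar_le _).trans (d3.trans hD)) ((natDegree_bar_le _).trans ((H.deg 3).trans hD))
  obtain ⟨n, rfl⟩ := IsAlgClosed.exists_pow_nat_eq ν (three_pos)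
  have eA : bar m1 * (bar (x 1) ^ 2 - C (n ^ 3) * bar m1 ^ 2) =
      G ^ 3 * (A₁ * (A₂ ^ 2 - C n * A₁ ^ 2)) ^ 3 := by rw [a1, a2, mob_bracket]
  have eB : bar m3 * (bar (x 3) ^ 2 - C (n ^ 3) * bar m3 ^ 2) =
      G' ^ 3 * (B₁ * (B₂ ^ 2 - C n * B₁ ^ 2)) ^ 3 := by rw [b1, b2, mob_bracket]
  rw [eA] at n1
  rw [eB] at n3
  rw [eA, eB] at eq
  have hG : G ≠ 0 := left_ne_zero_of_mul (a2 ▸ hy)
  have hG' : G' ≠ 0 := left_ne_zero_of_mul (b2 ▸ hz)
  have hA2 : A₂ ≠ 0 := ne_zero_pow three_ne_zero (right_ne_zero_of_mul (a2 ▸ hy))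
  have hB2 : B₂ ≠ 0 := ne_zero_pow three_ne_zero (right_ne_zero_of_mul (b2 ▸ hz))
  have hFA : A₁ * (A₂ ^ 2 - C n * A₁ ^ 2) ≠ 0 := ne_zero_pow three_ne_zero (right_ne_zero_of_mul n1)
  have hFB : B₁ * (B₂ ^ 2 - C n * B₁ ^ 2) ≠ 0 := ne_zero_pow three_ne_zero (right_ne_zero_of_mul n3)
  have rB := mob_rm bc db1 db2 hB2 hFB b
  generalize A₁ * (A₂ ^ 2 - C n * A₁ ^ 2) = FA at eq n1 hFA
  generalize B₁ * (B₂ ^ 2 - C n * B₁ ^ 2) = FB at eq n3 hFB rB
  have eq' : C i * bar (x 1) ^ 3 * (G ^ 3 * FA ^ 3) =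
      C (-i') * bar (x 3) ^ 3 * (G' ^ 3 * FB ^ 3) := by
    rw [C_neg]
    linear_combination eq
  have rm := congrArg (rootMultiplicity b) eq'
  have c1 : C i * bar (x 1) ^ 3 ≠ 0 := mul_ne_zero (C_ne_zero.2 hi) (pow_ne_zero _ hy)
  have c3 : C (-i') * bar (x 3) ^ 3 ≠ 0 :=
    mul_ne_zero (C_ne_zero.2 (neg_ne_zero.2 hi')) (pow_ne_zero _ hz)
  rw [rootMultiplicity_mul (mul_ne_zero c1 n1), rootMultiplicity_mul (mul_ne_zero c3 n3),
    rootMultiplicity_mul c1, rootMultiplicity_mul c3, rootMultiplicity_mul n1,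
    rootMultiplicity_mul n3, rootMultiplicity_C, rootMultiplicity_C, mob_rm_pow hy, mob_rm_pow hz,
    mob_rm_pow hG, mob_rm_pow hG', mob_rm_pow hFA, mob_rm_pow hFB] at rm
  have y1 : rootMultiplicity b (bar (x 1)) = rootMultiplicity b h + rootMultiplicity b X₁ := by
    rw [e1, rootMultiplicity_mul (mul_ne_zero hh h1)]
  have y2 : rootMultiplicity b (bar (x 1)) = rootMultiplicity b G + 3 * rootMultiplicity b A₂ := by
    rw [a2, rootMultiplicity_mul (a2 ▸ hy), mob_rm_pow hA2]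
  have z1 : rootMultiplicity b (bar (x 3)) = rootMultiplicity b h := by
    rw [e3, rootMultiplicity_mul (mul_ne_zero hh h3), rootMultiplicity_eq_zero hb3, add_zero]
  have z2 : rootMultiplicity b (bar (x 3)) = rootMultiplicity b G' + 3 * rootMultiplicity b B₂ := by
    rw [b2, rootMultiplicity_mul (b2 ▸ hz), mob_rm_pow hB2]
  have he : 0 < rootMultiplicity b X₁ := (rootMultiplicity_pos h1).2 hb
  have ra := (mob_rm_le hA2 b).trans da2
  have ra1 : rootMultiplicity b A₂ = 1 := by omega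
  have hA2b : A₂.eval b = 0 := (rootMultiplicity_pos hA2).1 (by omega)
  have hW := mob_wr ac da2 hA2 hA2b
  have hW0 : wronskian A₂ A₁ ≠ 0 := fun e => hW (by rw [e, eval_zero])
  obtain ⟨Z, hZ, bZ⟩ := hasse a2 a1
  have t3 : (3 : A) ≠ 0 := fun e => by
    have e' : ((3 : A) : ℂ) = ((0 : A) : ℂ) := congrArg Subtype.val e
    exact three_ne_zero (α := ℂ) e'
  have t3' : (3 : A[X]) ≠ 0 := fun e => t3 (C_eq_zero.1 ((map_ofNat C 3).trans e))
  have hZ' : derivative (derivative (x 1 * p1)) = Z := by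
    refine mul_left_cancel₀ t3' ?_
    rw [← hZ, w1, mul_left_comm]
    simp only [derivative_mul, derivative_ofNat, zero_mul, zero_add]
  have bZ' : derivative (derivative (bar (x 1) * bar p1)) =
      G ^ 3 * A₂ ^ 3 * wronskian A₂ A₁ ^ 3 := by
    rw [← bZ, ← hZ', bar_derivative, bar_derivative, bar_mul]
  have g1 : G ^ 3 * A₂ ^ 3 ≠ 0 := mul_ne_zero (pow_ne_zero _ hG) (pow_ne_zero _ hA2)
  have g2 : G ^ 3 * A₂ ^ 3 * wronskian A₂ A₁ ^ 3 ≠ 0 := mul_ne_zero g1 (pow_ne_zero _ hW0)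
  have hp : bar p1 ≠ 0 := by
    intro e
    rw [e, mul_zero, derivative_zero, derivative_zero] at bZ'
    exact g2 bZ'.symm
  have rz := rm_le_rm_dd (bZ' ▸ g2) b
  rw [bZ', rootMultiplicity_mul (mul_ne_zero hy hp), rootMultiplicity_mul g2,
    rootMultiplicity_mul g1, mob_rm_pow hG, mob_rm_pow hA2, mob_rm_pow hW0,
    rootMultiplicity_eq_zero hW] at rz
  rw [rm_nred w01 (mul_ne_zero t3 hρ) hp]
  omega

end Pool.Agent.FS
end
end

-- part Pool.Agent.P.MP_57148c_nt.GenTop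
section

open Polynomial

noncomputable section
namespace Pool.Agent.FS

theorem gentop_ineq {k : Type} [Field k] {n w : ℕ} {P : Fin 4 → k} {o : Fin 4 → Fin 4 → ℕ}
    (hs : ∀ i j, o i j = o j i) (h01 : P 0 ^ 2 + P 1 ^ 2 = 0) (h23 : P 2 ^ 2 + P 3 ^ 2 = 0)
    (hne : ∃ i, P i ≠ 0) (m02 : o 0 2 = w) (m03 : o 0 3 = w) (m12 : o 1 2 = w) (m13 : o 1 3 = w)
    (one1 : P 3 ≠ 0 → 4 * n ≤ o 0 1 + w) (one3 : P 1 ≠ 0 → 4 * n ≤ o 2 3 + w)
    (two1 : P 3 ≠ 0 → 2 * n + 2 ≤ o 0 1) (two3 : P 1 ≠ 0 → 2 * n + 2 ≤ o 2 3) : Ineq n P o := by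
  have z01 : P 0 = 0 ↔ P 1 = 0 := by
    constructor
    · intro e
      rw [e] at h01
      simpa using h01
    · intro e
      rw [e] at h01
      simpa using h01
  have z23 : P 2 = 0 ↔ P 3 = 0 := by
    constructor
    · intro e
      rw [e] at h23
      simpa using h23
    · intro e
      rw [e] at h23
      simpa using h23
  have nz : P 1 = 0 → P 3 = 0 → False := by
    intro e1 e3
    obtain ⟨i, hi⟩ := hne
    fin_cases i
    · exact hi (z01.2 e1)
    · exact hi e1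
    · exact hi (z23.2 e3)
    · exact hi e3
  have h10 : P 1 ^ 2 + P 0 ^ 2 = 0 := by rw [add_comm]; exact h01
  have h32 : P 3 ^ 2 + P 2 ^ 2 = 0 := by rw [add_comm]; exact h23
  have s01 : o 1 0 = o 0 1 := hs 1 0
  have s02 : o 2 0 = o 0 2 := hs 2 0
  have s03 : o 3 0 = o 0 3 := hs 3 0
  have s12 : o 2 1 = o 1 2 := hs 2 1
  have s13 : o 3 1 = o 1 3 := hs 3 1
  have s23 : o 3 2 = o 2 3 := hs 3 2
  have four : ∀ i : Fin 4, i = 0 ∨ i = 1 ∨ i = 2 ∨ i = 3 := by decide
  refine ⟨fun _ => ⟨0, 1, by decide, h01⟩, fun hP i j l hij hil hjl hsq => ?_,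
    fun _ i j hij hi hj => ?_⟩
  · have a1 := one1 (hP 3)
    have a3 := one3 (hP 1)
    rcases four i with rfl | rfl | rfl | rfl <;> rcases four j with rfl | rfl | rfl | rfl <;>
      rcases four l with rfl | rfl | rfl | rfl <;>
      first
        | exact absurd rfl hij
        | exact absurd rfl hil
        | exact absurd rfl hjl
        | exact absurd h01 hsq
        | exact absurd h10 hsq
        | exact absurd h23 hsq
        | exact absurd h32 hsq
        | omega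
  · by_cases e1 : P 1 = 0
    · have e3 : P 3 ≠ 0 := fun e => nz e1 e
      have e2 : P 2 ≠ 0 := fun e => e3 (z23.1 e)
      have a1 := two1 e3
      rcases four i with rfl | rfl | rfl | rfl <;> rcases four j with rfl | rfl | rfl | rfl <;>
        first
          | exact absurd rfl hij
          | exact absurd hi e2
          | exact absurd hi e3
          | exact absurd hj e2
          | exact absurd hj e3
          | omega
    · have e0 : P 0 ≠ 0 := fun e => e1 (z01.1 e)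
      have a3 := two3 e1
      rcases four i with rfl | rfl | rfl | rfl <;> rcases four j with rfl | rfl | rfl | rfl <;>
        first
          | exact absurd rfl hij
          | exact absurd hi e0
          | exact absurd hi e1
          | exact absurd hj e0
          | exact absurd hj e1
          | omega

theorem gentop_wr {k : Type} [Field k] (h F G : k[X]) (a b : k) :
    wronskian (h * (C a * F)) (h * (C b * G)) = C (a * b) * (h ^ 2 * wronskian F G) := by
  simp only [wronskian, derivative_mul, derivative_C, map_mul]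
  ring

theorem gentop_rm {k : Type} [Field k] {u : k} (hu : u ≠ 0) {F G : k[X]} (hF : F ≠ 0)
    (hG : G ≠ 0) (m : ℕ) (b : k) :
    rootMultiplicity b (C u * (F ^ m * G)) = m * rootMultiplicity b F + rootMultiplicity b G := by
  have hp : ∀ m : ℕ, rootMultiplicity b (F ^ m) = m * rootMultiplicity b F := by
    intro m
    induction m with
    | zero =>
      rw [pow_zero, zero_mul, ← C_1, rootMultiplicity_C]
    | succ m ih =>
      rw [pow_succ, rootMultiplicity_mul (mul_ne_zero (pow_ne_zero _ hF) hF), ih]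
      ring
  rw [rootMultiplicity_mul (mul_ne_zero (C_ne_zero.2 hu) (mul_ne_zero (pow_ne_zero _ hF) hG)),
    rootMultiplicity_C, zero_add, rootMultiplicity_mul (mul_ne_zero (pow_ne_zero _ hF) hG), hp]

theorem gentop_nd {k : Type} [Field k] {u : k} (hu : u ≠ 0) {F G : k[X]} (hF : F ≠ 0)
    (hG : G ≠ 0) (m : ℕ) :
    (C u * (F ^ m * G)).natDegree = m * F.natDegree + G.natDegree := by
  rw [natDegree_C_mul hu, natDegree_mul (pow_ne_zero _ hF) hG, natDegree_pow]

theorem gentop_theta {k : Type} [Field k] {i i' : k} (hi : i ^ 2 = -1) (hi' : i' ^ 2 = -1)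
    {h X₁ X₃ q₁ q₃ : k[X]} (hh : h ≠ 0) (h3 : X₃ ≠ 0) (hc : IsCoprime X₁ X₃)
    (hq : q₁ ≠ 0 ∨ q₃ ≠ 0)
    (e : C i * (h * X₁) ^ 4 * q₁ + C i' * (h * X₃) ^ 4 * q₃ = 0) :
    ∃ Θ : k[X], Θ ≠ 0 ∧ q₁ = X₃ ^ 4 * Θ ∧ q₃ = C (i * i') * (X₁ ^ 4 * Θ) := by
  have ci : (C i : k[X]) ^ 2 = -1 := by rw [← C_pow, hi, C_neg, C_1]
  have ci' : (C i' : k[X]) ^ 2 = -1 := by rw [← C_pow, hi', C_neg, C_1]
  have e1 : C i * X₁ ^ 4 * q₁ + C i' * X₃ ^ 4 * q₃ = 0 := by
    apply mul_left_cancel₀ (pow_ne_zero 4 hh)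
    linear_combination e
  have hd : X₃ ^ 4 ∣ X₁ ^ 4 * q₁ :=
    ⟨C i * C i' * q₃, by linear_combination (-C i) * e1 + X₁ ^ 4 * q₁ * ci⟩
  obtain ⟨Θ, hΘ⟩ := (IsCoprime.pow (m := 4) (n := 4) hc.symm).dvd_of_dvd_mul_left hd
  have e3 : q₃ = C (i * i') * (X₁ ^ 4 * Θ) := by
    apply mul_left_cancel₀ (pow_ne_zero 4 h3)
    rw [hΘ] at e1
    rw [map_mul]
    linear_combination (-C i') * e1 + X₃ ^ 4 * q₃ * ci'
  refine ⟨Θ, fun e0 => ?_, hΘ, e3⟩
  rw [e0] at hΘ e3
  rcases hq with hq | hq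
  · exact hq (by rw [hΘ, mul_zero])
  · exact hq (by rw [e3, mul_zero, mul_zero])

variable {A : ValuationSubring ℂ} [Three A]

omit [Three A] in
theorem gentop_mixed {f g : A[X]} {h F G : (kk A)[X]} {a b : kk A} (ha : a ≠ 0) (hb : b ≠ 0)
    (hh : h ≠ 0) (hw : wronskian F G ≠ 0) (ef : bar f = h * (C a * F))
    (eg : bar g = h * (C b * G)) :
    ∃ u : kk A, u ≠ 0 ∧ nred (wronskian f g) = C u * (h ^ 2 * wronskian F G) := by
  have e : bar (wronskian f g) = C (a * b) * (h ^ 2 * wronskian F G) := by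
    rw [bar_wronskian, ef, eg, gentop_wr]
  have hne : bar (wronskian f g) ≠ 0 := by
    rw [e]
    exact mul_ne_zero (C_ne_zero.2 (mul_ne_zero ha hb)) (mul_ne_zero (pow_ne_zero _ hh) hw)
  obtain ⟨u, hu, eu⟩ := nred_eq (c := 1) (f := wronskian f g) (g := wronskian f g)
    (by rw [C_1, one_mul]) one_ne_zero hne
  refine ⟨u * (a * b), mul_ne_zero hu (mul_ne_zero ha hb), ?_⟩
  rw [eu, e, ← mul_assoc, ← C_mul]

/-- the vertex lemma in the generic separable case -/
theorem gen_top {D : ℕ} {x : Fin 4 → A[X]} (H : Sol D x) {i i' : kk A} (hi : i ^ 2 = -1)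
    (hi' : i' ^ 2 = -1) {h X₁ X₃ : (kk A)[X]} (hh : h ≠ 0)
    (e0 : bar (x 0) = h * (C i * X₁)) (e1 : bar (x 1) = h * X₁)
    (e2 : bar (x 2) = h * (C i' * X₃)) (e3 : bar (x 3) = h * X₃) (hc : IsCoprime X₁ X₃)
    (hw : wronskian X₁ X₃ ≠ 0) (hg : Gen x i i')
    (hC : ∀ b, Claim x b (rootMultiplicity b h)) (n : ℕ) : Top x n := by
  have i0 : i ≠ 0 := by
    rintro rfl
    simp at hi
  have i0' : i' ≠ 0 := by
    rintro rfl
    simp at hi'
  have x1 : X₁ ≠ 0 := by
    rintro rfl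
    exact hw (wronskian_zero_left _)
  have x3 : X₃ ≠ 0 := by
    rintro rfl
    exact hw (wronskian_zero_right _)
  obtain ⟨c, q1, q3, w01, w23, hq, hrel⟩ := hg
  have c0 : c ≠ 0 := by
    rintro rfl
    exact H.ind 0 1 (by decide) (by rw [w01, C_0, zero_mul])
  rw [e1, e3] at hrel
  obtain ⟨Θ, hΘ, eq1, eq3⟩ := gentop_theta hi hi' hh x3 hc hq hrel
  have k01 : ∃ u : kk A, u ≠ 0 ∧ nred (wronskian (x 0) (x 1)) = C u * (X₃ ^ 4 * Θ) := by
    obtain ⟨u, hu, eu⟩ := nred_eq w01 c0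
      (by rw [eq1]; exact mul_ne_zero (pow_ne_zero _ x3) hΘ)
    exact ⟨u, hu, by rw [eu, eq1]⟩
  have k23 : ∃ u : kk A, u ≠ 0 ∧ nred (wronskian (x 2) (x 3)) = C u * (X₁ ^ 4 * Θ) := by
    obtain ⟨u, hu, eu⟩ := nred_eq w23 c0 (by
      rw [eq3]
      exact mul_ne_zero (C_ne_zero.2 (mul_ne_zero i0 i0')) (mul_ne_zero (pow_ne_zero _ x1) hΘ))
    exact ⟨u * (i * i'), mul_ne_zero hu (mul_ne_zero i0 i0'), by
      rw [eu, eq3, ← mul_assoc, ← C_mul]⟩
  have e1' : bar (x 1) = h * (C 1 * X₁) := by rw [e1, C_1, one_mul]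
  have e3' : bar (x 3) = h * (C 1 * X₃) := by rw [e3, C_1, one_mul]
  obtain ⟨u01, n01, k01⟩ := k01
  obtain ⟨u23, n23, k23⟩ := k23
  obtain ⟨u02, n02, k02⟩ := gentop_mixed i0 i0' hh hw e0 e2
  obtain ⟨u03, n03, k03⟩ := gentop_mixed i0 one_ne_zero hh hw e0 e3'
  obtain ⟨u12, n12, k12⟩ := gentop_mixed one_ne_zero i0' hh hw e1' e2
  obtain ⟨u13, n13, k13⟩ := gentop_mixed one_ne_zero one_ne_zero hh hw e1' e3'
  have loc : ∀ b, 2 * rootMultiplicity b h ≤
      rootMultiplicity b Θ + rootMultiplicity b (wronskian X₁ X₃) := by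
    intro b
    obtain ⟨h0, eh, nh⟩ := exists_eq_pow_rootMultiplicity_mul_and_not_dvd h hh b
    have hb : h0.eval b ≠ 0 := fun e => nh (dvd_iff_isRoot.2 e)
    have cop : X₁.eval b = 0 → X₃.eval b = 0 → False := by
      intro a1 a3
      obtain ⟨r, s, hrs⟩ := hc
      have := congrArg (eval b) hrs
      simp [a1, a3] at this
    set N := rootMultiplicity b h with hN
    have I := hC b ![h0 * (C i * X₁), h0 * X₁, h0 * (C i' * X₃), h0 * X₃] (by
      intro j
      fin_cases j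
      · show bar (x 0) = (X - C b) ^ N * (h0 * (C i * X₁))
        rw [← mul_assoc, ← eh, e0]
      · show bar (x 1) = (X - C b) ^ N * (h0 * X₁)
        rw [← mul_assoc, ← eh, e1]
      · show bar (x 2) = (X - C b) ^ N * (h0 * (C i' * X₃))
        rw [← mul_assoc, ← eh, e2]
      · show bar (x 3) = (X - C b) ^ N * (h0 * X₃)
        rw [← mul_assoc, ← eh, e3]) (by
      by_cases a1 : X₁.eval b = 0
      · refine ⟨3, ?_⟩
        show (h0 * X₃).eval b ≠ 0
        rw [eval_mul]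
        exact mul_ne_zero hb fun a3 => cop a1 a3
      · refine ⟨1, ?_⟩
        show (h0 * X₁).eval b ≠ 0
        rw [eval_mul]
        exact mul_ne_zero hb a1)
    rcases Nat.eq_zero_or_pos N with hN0 | hN0
    · omega
    have r01 := gentop_rm n01 x3 hΘ 4 b
    have r23 := gentop_rm n23 x1 hΘ 4 b
    have r02 := gentop_rm n02 hh hw 2 b
    have r03 := gentop_rm n03 hh hw 2 b
    rw [← k01] at r01
    rw [← k23] at r23
    rw [← k02, ← hN] at r02
    rw [← k03, ← hN] at r03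
    by_cases a1 : X₁.eval b = 0
    · have a3 : rootMultiplicity b X₃ = 0 := rootMultiplicity_eq_zero fun a3 => cop a1 a3
      have t : 2 * N + 2 ≤ rootMultiplicity b (nred (wronskian (x 0) (x 1))) :=
        I.two hN0 0 1 (by decide)
          (show (h0 * (C i * X₁)).eval b = 0 by simp [a1])
          (show (h0 * X₁).eval b = 0 by simp [a1])
      omega
    by_cases a3 : X₃.eval b = 0
    · have a1' : rootMultiplicity b X₁ = 0 := rootMultiplicity_eq_zero a1
      have t : 2 * N + 2 ≤ rootMultiplicity b (nred (wronskian (x 2) (x 3))) :=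
        I.two hN0 2 3 (by decide)
          (show (h0 * (C i' * X₃)).eval b = 0 by simp [a3])
          (show (h0 * X₃).eval b = 0 by simp [a3])
      omega
    have a3' : rootMultiplicity b X₃ = 0 := rootMultiplicity_eq_zero a3
    have hP : ∀ j : Fin 4,
        ((![h0 * (C i * X₁), h0 * X₁, h0 * (C i' * X₃), h0 * X₃] : Fin 4 → (kk A)[X]) j).eval b
          ≠ 0 := by
      intro j
      fin_cases j
      · show (h0 * (C i * X₁)).eval b ≠ 0
        simp [hb, i0, a1]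
      · show (h0 * X₁).eval b ≠ 0
        simp [hb, a1]
      · show (h0 * (C i' * X₃)).eval b ≠ 0
        simp [hb, i0', a3]
      · show (h0 * X₃).eval b ≠ 0
        simp [hb, a3]
    by_cases s : (h0 * X₁).eval b ^ 2 + (h0 * X₃).eval b ^ 2 = 0
    · have s' : (h0 * X₁).eval b ^ 2 + (h0 * (C i' * X₃)).eval b ^ 2 ≠ 0 := by
        intro s'
        simp only [eval_mul, eval_C] at s s'
        have t3 : (3 : kk A) = 0 := three_eq_zero'
        have : (h0.eval b * X₁.eval b) ^ 2 = 0 := by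
          linear_combination (-1) * s - s' + (h0.eval b * X₃.eval b) ^ 2 * hi' +
            (h0.eval b * X₁.eval b) ^ 2 * t3
        exact mul_ne_zero hb a1 (pow_eq_zero_iff two_ne_zero |>.1 this)
      have t : 4 * N ≤ rootMultiplicity b (nred (wronskian (x 0) (x 1))) +
          rootMultiplicity b (nred (wronskian (x 0) (x 2))) :=
        I.one hP 0 1 2 (by decide) (by decide) (by decide) s'
      omega
    · have t : 4 * N ≤ rootMultiplicity b (nred (wronskian (x 0) (x 1))) +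
          rootMultiplicity b (nred (wronskian (x 0) (x 3))) :=
        I.one hP 0 1 3 (by decide) (by decide) (by decide) s
      omega
  have hdvd : h ^ 2 ∣ Θ * wronskian X₁ X₃ := by
    refine dvd_of_rm_le (pow_ne_zero _ hh) (mul_ne_zero hΘ hw) fun b => ?_
    rw [rootMultiplicity_mul (mul_ne_zero hΘ hw), pow_two, rootMultiplicity_mul (mul_ne_zero hh hh)]
    have := loc b
    omega
  have glob : 2 * h.natDegree ≤ Θ.natDegree + (wronskian X₁ X₃).natDegree := by
    have := natDegree_le_of_dvd hdvd (mul_ne_zero hΘ hw)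
    rwa [natDegree_pow, natDegree_mul hΘ hw] at this
  intro hd hne
  have d1 : h.natDegree + X₁.natDegree ≤ n := by
    have := hd 1
    rwa [e1, natDegree_mul hh x1] at this
  have d3 : h.natDegree + X₃.natDegree ≤ n := by
    have := hd 3
    rwa [e3, natDegree_mul hh x3] at this
  obtain ⟨d, rfl⟩ : ∃ d, n = h.natDegree + d := ⟨n - h.natDegree, by omega⟩
  have d1' : X₁.natDegree ≤ d := by omega
  have d3' : X₃.natDegree ≤ d := by omega
  have hW := natDegree_wronskian_le d1' d3' hw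
  have p0 : (bar (x 0)).coeff (h.natDegree + d) = i * (bar (x 1)).coeff (h.natDegree + d) := by
    rw [e0, e1, mul_left_comm, coeff_C_mul]
  have p2 : (bar (x 2)).coeff (h.natDegree + d) = i' * (bar (x 3)).coeff (h.natDegree + d) := by
    rw [e2, e3, mul_left_comm, coeff_C_mul]
  have f1 : (bar (x 1)).coeff (h.natDegree + d) ≠ 0 → X₁.natDegree = d := by
    intro e
    have := le_natDegree_of_ne_zero e
    rw [e1, natDegree_mul hh x1] at this
    omega
  have f3 : (bar (x 3)).coeff (h.natDegree + d) ≠ 0 → X₃.natDegree = d := by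
    intro e
    have := le_natDegree_of_ne_zero e
    rw [e3, natDegree_mul hh x3] at this
    omega
  have r01 := gentop_nd n01 x3 hΘ 4
  have r23 := gentop_nd n23 x1 hΘ 4
  rw [← k01] at r01
  rw [← k23] at r23
  refine gentop_ineq (w := 2 * h.natDegree + (wronskian X₁ X₃).natDegree)
    (fun j l => nd_nred_comm _ _) ?_ ?_ hne ?_ ?_ ?_ ?_ (fun e => ?_) (fun e => ?_) (fun e => ?_)
    (fun e => ?_)
  · show (bar (x 0)).coeff _ ^ 2 + (bar (x 1)).coeff _ ^ 2 = 0
    rw [p0, mul_pow, hi]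
    ring
  · show (bar (x 2)).coeff _ ^ 2 + (bar (x 3)).coeff _ ^ 2 = 0
    rw [p2, mul_pow, hi']
    ring
  · show (nred (wronskian (x 0) (x 2))).natDegree = _
    rw [k02, gentop_nd n02 hh hw]
  · show (nred (wronskian (x 0) (x 3))).natDegree = _
    rw [k03, gentop_nd n03 hh hw]
  · show (nred (wronskian (x 1) (x 2))).natDegree = _
    rw [k12, gentop_nd n12 hh hw]
  · show (nred (wronskian (x 1) (x 3))).natDegree = _
    rw [k13, gentop_nd n13 hh hw]
  · have := f3 e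
    show _ ≤ (nred (wronskian (x 0) (x 1))).natDegree + _
    omega
  · have := f1 e
    show _ ≤ (nred (wronskian (x 2) (x 3))).natDegree + _
    omega
  · have := f3 e
    show _ ≤ (nred (wronskian (x 0) (x 1))).natDegree
    omega
  · have := f1 e
    show _ ≤ (nred (wronskian (x 2) (x 3))).natDegree
    omega

end Pool.Agent.FS
end
end

-- part Pool.Agent.P.MP_57148c_nt.SepV
section

open Polynomial

noncomputable section
namespace Pool.Agent.FS

variable {A : ValuationSubring ℂ} [Three A]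

omit [Three A] in
theorem sepv_claim {x : Fin 4 → A[X]} {h : (kk A)[X]} {X' : Fin 4 → (kk A)[X]} (hh : h ≠ 0)
    (e : ∀ i, bar (x i) = h * X' i) {b : kk A} (hc : ∃ i, (X' i).eval b ≠ 0)
    (hC : Claim x b (rootMultiplicity b h)) :
    ∃ u : kk A, u ≠ 0 ∧ Ineq (rootMultiplicity b h) (fun i => u * (X' i).eval b)
      fun i j => rootMultiplicity b (nred (wronskian (x i) (x j))) := by
  obtain ⟨h0, e0, hn⟩ := exists_eq_pow_rootMultiplicity_mul_and_not_dvd h hh b
  have hu : h0.eval b ≠ 0 := fun hz => hn (dvd_iff_isRoot.2 hz)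
  obtain ⟨i0, hi0⟩ := hc
  have := hC (fun i => h0 * X' i) (fun i => by rw [e i, ← mul_assoc, ← e0])
    ⟨i0, by rw [eval_mul]; exact mul_ne_zero hu hi0⟩
  exact ⟨h0.eval b, hu, by simpa only [eval_mul] using this⟩

theorem sepv_rm_pow {k : Type} [Field k] {f : k[X]} (hf : f ≠ 0) (b : k) (m : ℕ) :
    rootMultiplicity b (f ^ m) = m * rootMultiplicity b f := by
  induction m with
  | zero => simp
  | succ m ih =>
    rw [pow_succ, rootMultiplicity_mul (mul_ne_zero (pow_ne_zero _ hf) hf), ih]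
    ring

theorem sepv_core {D : ℕ} (hD : D ≤ 5) {x : Fin 4 → A[X]} (H : Sol D x) {h : (kk A)[X]}
    {X' : Fin 4 → (kk A)[X]} (hh : h ≠ 0) (e : ∀ i, bar (x i) = h * X' i)
    (hc : ∀ b, ∃ i, (X' i).eval b ≠ 0) (hw : ∃ i j, wronskian (X' i) (X' j) ≠ 0)
    (hC : ∀ b, Claim x b (rootMultiplicity b h)) (h01 : X' 0 ^ 2 + X' 1 ^ 2 = 0) (n : ℕ) :
    Top x n := by
  obtain ⟨i, i', hi, hi', e0, e2⟩ := exists_line (H.quad hh e).1 h01
  have hi0 : i ≠ 0 := fun hz => by simp [hz] at hi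
  have hi0' : i' ≠ 0 := fun hz => by simp [hz] at hi'
  have hroot : ∀ b, (X' 1).eval b = 0 → (X' 3).eval b ≠ 0 := by
    intro b h1 h3
    obtain ⟨j, hj⟩ := hc b
    apply hj
    fin_cases j
    · show (X' 0).eval b = 0
      rw [e0, eval_mul, h1, mul_zero]
    · exact h1
    · show (X' 2).eval b = 0
      rw [e2, eval_mul, h3, mul_zero]
    · exact h3
  have hlin : ∀ j, ∃ a c : kk A, X' j = C a * X' 1 + C c * X' 3 := by
    intro j
    fin_cases j
    · exact ⟨i, 0, by simpa using e0⟩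
    · exact ⟨1, 0, by simp⟩
    · exact ⟨0, i', by simpa using e2⟩
    · exact ⟨0, 1, by simp⟩
  have hW : wronskian (X' 1) (X' 3) ≠ 0 := by
    intro hz
    obtain ⟨j, l, hjl⟩ := hw
    obtain ⟨a, c, ea⟩ := hlin j
    obtain ⟨a', c', ea'⟩ := hlin l
    apply hjl
    rw [ea, ea']
    simp only [wronskian, derivative_add, derivative_mul, derivative_C, zero_mul, zero_add] at hz ⊢
    linear_combination (C a * C c' - C c * C a') * hz
  have h1 : X' 1 ≠ 0 := fun hz => hW (by rw [hz, wronskian_zero_left])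
  have h3 : X' 3 ≠ 0 := fun hz => hW (by rw [hz, wronskian_zero_right])
  have b1 : bar (x 1) ≠ 0 := by rw [e]; exact mul_ne_zero hh h1
  have b3 : bar (x 3) ≠ 0 := by rw [e]; exact mul_ne_zero hh h3
  have f0 : bar (x 0) = C i * bar (x 1) := by rw [e, e, e0]; ring
  have f2 : bar (x 2) = C i' * bar (x 3) := by rw [e, e, e2]; ring
  rcases levels H hi hi' f0 f2 b1 b3 with hg | hs | hd
  · exact gen_top H hi hi' hh (by rw [e, e0]) (e 1) (by rw [e, e2]) (e 3)
      (coprime_of_no_root hroot) hW hg hC n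
  · exfalso
    obtain ⟨I, I', ρ, μ, m1, m3, -, -, -, -, -, -, -, -, -, -, hm, hE, w1, w3⟩ := hs
    have hα : bar m1 ≠ 0 := by
      intro hz
      rcases hm with hm | hm
      · exact hm hz
      · rw [hz, mul_zero, zero_add] at hE
        exact mul_ne_zero (mul_ne_zero (C_ne_zero.2 hi0') b3) hm hE
    have hd := congrArg derivative hE
    simp only [derivative_add, derivative_mul, derivative_C, zero_mul, zero_add,
      derivative_zero] at hd
    simp only [wronskian] at w1 w3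
    have hk : C i * bar m1 * wronskian (bar (x 1)) (bar (x 3)) = 0 := by
      simp only [wronskian]
      linear_combination derivative (bar (x 3)) * hE + bar (x 3) * hd
        + bar (x 3) * C i * w1 + bar (x 3) * C i' * w3
        - (bar (x 3) * (C i * derivative (bar (x 1)) * bar m1
          + C i' * derivative (bar (x 3)) * bar m3)) * (three_eq_zero (k := kk A))
    have hW2 : wronskian (bar (x 1)) (bar (x 3)) = h ^ 2 * wronskian (X' 1) (X' 3) := by
      rw [e, e]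
      simp only [wronskian, derivative_mul]
      ring
    rw [hW2] at hk
    exact mul_ne_zero (mul_ne_zero (C_ne_zero.2 hi0) hα) (mul_ne_zero (pow_ne_zero _ hh) hW) hk
  · exfalso
    have hex : (∃ b, (X' 1).eval b = 0) ∨ ∃ b, (X' 3).eval b = 0 := by
      by_contra hno
      rw [not_or] at hno
      have d1 : (X' 1).degree = 0 := by
        by_contra hd1
        exact hno.1 (IsAlgClosed.exists_root _ hd1)
      have d3 : (X' 3).degree = 0 := by
        by_contra hd3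
        exact hno.2 (IsAlgClosed.exists_root _ hd3)
      apply hW
      rw [eq_C_of_degree_eq_zero d1, eq_C_of_degree_eq_zero d3]
      simp [wronskian]
    rcases hex with ⟨b, hb⟩ | ⟨b, hb⟩
    · obtain ⟨-, hp, hle⟩ := deep_root hD H hi0 hi0' hd hh (e 1) (e 3) h1 hb (hroot b hb)
      obtain ⟨u, -, hI⟩ := sepv_claim hh e (hc b) (hC b)
      have := hI.two hp 0 1 (by decide) (by rw [e0, eval_mul, hb, mul_zero, mul_zero])
        (by rw [hb, mul_zero])
      omega
    · obtain ⟨-, hp, hle⟩ := deep_root hD (H.perm sw) hi0' hi0 hd.swap hh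
        (by simpa only [sw1] using e 3) (by simpa only [sw3] using e 1) h3 hb
        (fun hz => hroot b hz hb)
      simp only [sw0, sw1] at hle
      obtain ⟨u, -, hI⟩ := sepv_claim hh e (hc b) (hC b)
      have := hI.two hp 2 3 (by decide) (by rw [e2, eval_mul, hb, mul_zero, mul_zero])
        (by rw [hb, mul_zero])
      omega

/-- the vertex lemma for separable reductions -/
theorem sep_vertex {D : ℕ} (hD : D ≤ 5) {x : Fin 4 → A[X]} (H : Sol D x) {h : (kk A)[X]}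
    {X' : Fin 4 → (kk A)[X]} (hh : h ≠ 0) (e : ∀ i, bar (x i) = h * X' i)
    (hc : ∀ b, ∃ i, (X' i).eval b ≠ 0) (hw : ∃ i j, wronskian (X' i) (X' j) ≠ 0)
    (hC : ∀ b, Claim x b (rootMultiplicity b h)) (n : ℕ) : Top x n := by
  obtain ⟨q2, q5⟩ := H.quad hh e
  obtain ⟨i, j, hij, hs⟩ := special_line hc q2 q5 hw
  obtain ⟨σ, h0, h1⟩ := exists_perm hij
  refine Top.of_perm σ (sepv_core hD (H.perm σ) (X' := fun i => X' (σ i)) hh (fun i => e _)
    (fun b => ?_) ?_ (fun b => (hC b).perm σ) (by rw [h0, h1]; exact hs) n)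
  · obtain ⟨l, hl⟩ := hc b
    exact ⟨σ.symm l, by simpa using hl⟩
  · obtain ⟨l, l', hl⟩ := hw
    exact ⟨σ.symm l, σ.symm l', by simpa using hl⟩

omit [Three A] in
/-- constant reduction -/
theorem const_vertex {D : ℕ} {x : Fin 4 → A[X]} (H : Sol D x) {h : (kk A)[X]} {P : Fin 4 → kk A}
    (hh : h ≠ 0) (e : ∀ i, bar (x i) = h * C (P i))
    (hC : ∀ b, Claim x b (rootMultiplicity b h)) (n : ℕ) : Top x n := by
  intro hd hne
  rcases Nat.eq_zero_or_pos n with rfl | hn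
  · exact Ineq.zero _ _
  have hco : ∀ i, (bar (x i)).coeff n = h.coeff n * P i := fun i => by rw [e, coeff_mul_C]
  obtain ⟨i0, hi0⟩ := hne
  rw [hco] at hi0
  have hc0 : h.coeff n ≠ 0 := left_ne_zero_of_mul hi0
  have hP0 : P i0 ≠ 0 := right_ne_zero_of_mul hi0
  have hdeg : h.natDegree = n := by
    refine le_antisymm ?_ (le_natDegree_of_ne_zero hc0)
    have := hd i0
    rwa [e, natDegree_mul_C hP0] at this
  have hI : ∀ b, ∃ u : kk A, u ≠ 0 ∧ Ineq (rootMultiplicity b h) (fun i => u * P i)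
      fun i j => rootMultiplicity b (nred (wronskian (x i) (x j))) := by
    intro b
    obtain ⟨u, hu, hI⟩ := sepv_claim (X' := fun i => C (P i)) hh e (b := b)
      ⟨i0, by rwa [eval_C]⟩ (hC b)
    exact ⟨u, hu, by simpa only [eval_C] using hI⟩
  obtain ⟨b0, hb0⟩ := IsAlgClosed.exists_root h (by
    intro hz
    rw [natDegree_eq_zero_iff_degree_le_zero.2 hz.le] at hdeg
    omega)
  have hp0 : 0 < rootMultiplicity b0 h := (rootMultiplicity_pos hh).2 hb0
  simp only [hco]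
  refine ⟨fun _ => ?_, fun hP i j l hij hil hjl hs => ?_, fun _ i j hij hi hj => ?_⟩
  · obtain ⟨u, hu, hI⟩ := hI b0
    obtain ⟨j, l, hjl, hz⟩ := hI.line hp0
    refine ⟨j, l, hjl, ?_⟩
    have : u ^ 2 * (P j ^ 2 + P l ^ 2) = 0 := by linear_combination hz
    have h2 := (mul_eq_zero.1 this).resolve_left (pow_ne_zero _ hu)
    linear_combination h.coeff n ^ 2 * h2
  · have f0 := nred_ne_zero (H.ind i j hij)
    have g0 := nred_ne_zero (H.ind i l hil)
    have hdv := dvd_of_rm_le (pow_ne_zero 4 hh) (mul_ne_zero f0 g0) (by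
      intro b
      obtain ⟨u, hu, hI⟩ := hI b
      rw [sepv_rm_pow hh, rootMultiplicity_mul (mul_ne_zero f0 g0)]
      refine hI.one (fun m => mul_ne_zero hu (right_ne_zero_of_mul (hP m))) i j l hij hil hjl ?_
      intro hz
      apply hs
      have : u ^ 2 * (P j ^ 2 + P l ^ 2) = 0 := by linear_combination hz
      have h2 := (mul_eq_zero.1 this).resolve_left (pow_ne_zero _ hu)
      linear_combination h.coeff n ^ 2 * h2)
    have := natDegree_le_of_dvd hdv (mul_ne_zero f0 g0)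
    rwa [natDegree_pow, natDegree_mul f0 g0, hdeg] at this
  · have f0 := nred_ne_zero (H.ind i j hij)
    have hx0 : (X - C b0 : (kk A)[X]) ≠ 0 := X_sub_C_ne_zero b0
    have hi' : P i = 0 := (mul_eq_zero.1 hi).resolve_left hc0
    have hj' : P j = 0 := (mul_eq_zero.1 hj).resolve_left hc0
    have hdv := dvd_of_rm_le (pow_ne_zero 2 (mul_ne_zero hh hx0)) f0 (by
      intro b
      obtain ⟨u, hu, hI⟩ := hI b
      have h2 := fun hp => hI.two hp i j hij (by rw [hi', mul_zero]) (by rw [hj', mul_zero])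
      rw [sepv_rm_pow (mul_ne_zero hh hx0), rootMultiplicity_mul (mul_ne_zero hh hx0)]
      by_cases hb : b = b0
      · subst hb
        rw [rootMultiplicity_X_sub_C_self]
        have := h2 hp0
        omega
      · have hz : rootMultiplicity b (X - C b0 : (kk A)[X]) = 0 :=
          rootMultiplicity_eq_zero (by simpa [IsRoot, sub_eq_zero] using hb)
        rw [hz]
        rcases Nat.eq_zero_or_pos (rootMultiplicity b h) with h0 | h0
        · rw [h0]; omega
        · have := h2 h0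
          omega)
    have := natDegree_le_of_dvd hdv f0
    rw [natDegree_pow, natDegree_mul hh hx0, natDegree_X_sub_C, hdeg] at this
    omega

end Pool.Agent.FS
end
end

-- part Pool.Agent.P.MP_57148c_nt.InsS0
section

open Polynomial

noncomputable section
namespace Pool.Agent.FS

section pure
variable {k : Type} [Field k] [IsAlgClosed k] [CharP k 3]

omit [CharP k 3] in
theorem inss0_cop {a₁ a₃ : k[X]} (d1 : a₁.natDegree = 1) (d3 : a₃.natDegree = 1)
    (hw : wronskian a₁ a₃ ≠ 0) : IsCoprime a₁ a₃ := by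
  refine coprime_of_no_root fun b h1 h3 => hw ?_
  have hd := natDegree_wronskian_le (n := 1) d1.le d3.le hw
  have h0 : (wronskian a₁ a₃).eval b = 0 := by simp [wronskian, h1, h3]
  rw [eq_C_of_natDegree_eq_zero (show (wronskian a₁ a₃).natDegree = 0 by omega)] at h0 ⊢
  rw [eval_C] at h0
  rw [h0, C_0]

theorem inss0_sigma {i i' : k} (hi : i ≠ 0) (hi' : i' ≠ 0) {h a₁ a₃ α β : k[X]} (hh : h ≠ 0)
    (dh : h.natDegree ≤ 2) (d1 : a₁.natDegree = 1) (d3 : a₃.natDegree = 1)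
    (hc : IsCoprime a₁ a₃) (dα : α.natDegree ≤ h.natDegree + 3) (hm : α ≠ 0 ∨ β ≠ 0)
    (heq : C i * (h * a₁ ^ 3) * α + C i' * (h * a₃ ^ 3) * β = 0)
    (hw : wronskian α (h * a₁ ^ 3) = 0) :
    ∃ s : k, s ≠ 0 ∧ α = C s * h * a₃ ^ 3 ∧ C i' * β = -(C i * C s * h * a₁ ^ 3) := by
  have h1 : a₁ ≠ 0 := by rintro rfl; simp at d1
  have h3 : a₃ ≠ 0 := by rintro rfl; simp at d3
  have e1 : C i * a₁ ^ 3 * α = -(C i' * a₃ ^ 3 * β) := by
    apply mul_left_cancel₀ hh
    linear_combination heq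
  have hdv : a₃ ^ 3 ∣ α := by
    have h4 : a₃ ^ 3 ∣ a₁ ^ 3 * (C i * α) := ⟨-(C i' * β), by linear_combination e1⟩
    have h5 := (hc.symm.pow (m := 3) (n := 3)).dvd_of_dvd_mul_left h4
    exact ((isUnit_C.2 hi.isUnit).dvd_mul_left).1 h5
  obtain ⟨σ, rfl⟩ := hdv
  have e2 : C i' * β = -(C i * a₁ ^ 3 * σ) := by
    apply mul_left_cancel₀ (pow_ne_zero 3 h3)
    linear_combination e1
  have hσ : σ ≠ 0 := by
    rintro rfl
    rcases hm with hm | hm
    · simp at hm
    · apply hm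
      have : C i' * β = 0 := by rw [e2]; simp
      exact (mul_eq_zero.1 this).resolve_left (C_ne_zero.2 hi')
  have dσ : σ.natDegree ≤ 2 := by
    rw [natDegree_mul (pow_ne_zero 3 h3) hσ, natDegree_pow, d3] at dα
    omega
  have hw' : wronskian σ h = 0 := by
    apply mul_left_cancel₀ (mul_ne_zero (pow_ne_zero 3 h1) (pow_ne_zero 3 h3))
    rw [wronskian, mul_comm h, derivative_cube_mul, derivative_cube_mul] at hw
    rw [wronskian]
    linear_combination hw
  obtain ⟨G, A₁, A₂, eσ, eh, -, -, -⟩ := mob_one hσ hh hw' (by omega) (by omega)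
  have hG : G ≠ 0 := by rintro rfl; simp at eh; exact hh eh
  have hA1 : A₁ ≠ 0 := by rintro rfl; simp at eσ; exact hσ eσ
  have hA2 : A₂ ≠ 0 := by rintro rfl; simp at eh; exact hh eh
  have dA1 : A₁.natDegree = 0 := by
    rw [eσ, natDegree_mul hG (pow_ne_zero 3 hA1), natDegree_pow] at dσ
    omega
  have dA2 : A₂.natDegree = 0 := by
    rw [eh, natDegree_mul hG (pow_ne_zero 3 hA2), natDegree_pow] at dh
    omega
  obtain ⟨u, rfl⟩ := natDegree_eq_zero.1 dA1
  obtain ⟨v, rfl⟩ := natDegree_eq_zero.1 dA2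
  have hu : u ≠ 0 := C_ne_zero.1 hA1
  have hv : v ≠ 0 := C_ne_zero.1 hA2
  have es : σ = C (u ^ 3 / v ^ 3) * h := by
    rw [eσ, eh, ← C_pow, ← C_pow, mul_left_comm, ← C_mul, div_mul_cancel₀ _ (pow_ne_zero 3 hv)]
  refine ⟨u ^ 3 / v ^ 3, div_ne_zero (pow_ne_zero 3 hu) (pow_ne_zero 3 hv), ?_, ?_⟩
  · rw [es]; ring
  · rw [e2, es]; ring

omit [IsAlgClosed k] in
theorem inss0_dq (a b : k[X]) : derivative (a * b * (a ^ 4 - b ^ 4)) =
    (a ^ 4 + b ^ 4) * wronskian a b := by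
  simp only [wronskian, derivative_mul, derivative_sub, derivative_pow, Nat.cast_ofNat, map_ofNat]
  linear_combination (2 * a ^ 4 * b * derivative a - 2 * a * b ^ 4 * derivative b) *
    (three_eq_zero (k := k))

omit [IsAlgClosed k] [CharP k 3] in
theorem inss0_final {h a₁ a₃ Q R : k[X]} {u : k} (hu : u ≠ 0) (hh : h ≠ 0)
    (dh : h.natDegree ≤ 2) (d1 : a₁.natDegree = 1) (d3 : a₃.natDegree = 1)
    (hc : IsCoprime a₁ a₃) (hR : IsUnit R) (q1 : a₁ ^ 3 ∣ Q) (q3 : a₃ ^ 3 ∣ Q)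
    (e : C u * Q = R * (h ^ 2 * (a₁ ^ 4 + a₃ ^ 4))) : False := by
  have c1 : IsCoprime (a₁ ^ 3) (a₁ ^ 4 + a₃ ^ 4) := by
    apply IsCoprime.pow_left
    have : a₁ ^ 4 + a₃ ^ 4 = a₃ ^ 4 + a₁ * a₁ ^ 3 := by ring
    rw [this]
    exact (hc.pow_right).add_mul_left_right _
  have c3 : IsCoprime (a₃ ^ 3) (a₁ ^ 4 + a₃ ^ 4) := by
    apply IsCoprime.pow_left
    have : a₁ ^ 4 + a₃ ^ 4 = a₁ ^ 4 + a₃ * a₃ ^ 3 := by ring
    rw [this]
    exact (hc.symm.pow_right).add_mul_left_right _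
  have t1 : a₁ ^ 3 ∣ h ^ 2 :=
    c1.dvd_of_dvd_mul_right (hR.dvd_mul_left.1 (e ▸ q1.mul_left _))
  have t3 : a₃ ^ 3 ∣ h ^ 2 :=
    c3.dvd_of_dvd_mul_right (hR.dvd_mul_left.1 (e ▸ q3.mul_left _))
  have t := natDegree_le_of_dvd ((hc.pow (m := 3) (n := 3)).mul_dvd t1 t3) (pow_ne_zero 2 hh)
  have h1 : a₁ ≠ 0 := by rintro rfl; simp at d1
  have h3 : a₃ ≠ 0 := by rintro rfl; simp at d3
  rw [natDegree_mul (pow_ne_zero 3 h1) (pow_ne_zero 3 h3), natDegree_pow, natDegree_pow,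
    natDegree_pow, d1, d3] at t
  omega

end pure

variable {A : ValuationSubring ℂ} [Three A]

/-- the shallow case on the Frobenius of a special line -/
theorem shal_insep {D : ℕ} (hD : D ≤ 5) {x : Fin 4 → A[X]} (H : Sol D x) {i i' : kk A}
    {h a₁ a₃ : (kk A)[X]} (hh : h ≠ 0) (hdeg : h.natDegree + 3 = D)
    (e0 : bar (x 0) = C i * bar (x 1)) (e2 : bar (x 2) = C i' * bar (x 3))
    (e1 : bar (x 1) = h * a₁ ^ 3) (e3 : bar (x 3) = h * a₃ ^ 3)
    (d1 : a₁.natDegree = 1) (d3 : a₃.natDegree = 1) (hw : wronskian a₁ a₃ ≠ 0)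
    (hs : Shal x i i') : Gen x i i' := by
  obtain ⟨I, I', ρ, μ, m1, m3, hI, hI', rI, rI', hρ, hρ0, hμ0, h3, x0, x2, hm, heq, w1, -⟩ := hs
  have hi : i ^ 2 = -1 := by rw [← rI, ← map_pow, hI, map_neg, map_one]
  have hi' : i' ^ 2 = -1 := by rw [← rI', ← map_pow, hI', map_neg, map_one]
  have i0 : i ≠ 0 := by rintro rfl; simp at hi
  have i0' : i' ≠ 0 := by rintro rfl; simp at hi'
  have n1 : a₁ ≠ 0 := by rintro rfl; simp at d1
  have n3 : a₃ ≠ 0 := by rintro rfl; simp at d3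
  have b1 : bar (x 1) ≠ 0 := by rw [e1]; exact mul_ne_zero hh (pow_ne_zero 3 n1)
  have b3 : bar (x 3) ≠ 0 := by rw [e3]; exact mul_ne_zero hh (pow_ne_zero 3 n3)
  have hc := inss0_cop d1 d3 hw
  have dh : h.natDegree ≤ 2 := by omega
  have t3 : (3 : (kk A)[X]) = 0 := three_eq_zero
  have CI : (C I : A[X]) ^ 2 = -1 := by rw [← C_pow, hI, C_neg, C_1]
  have CI' : (C I' : A[X]) ^ 2 = -1 := by rw [← C_pow, hI', C_neg, C_1]
  have Cρ : (C ρ : A[X]) ≠ 0 := C_ne_zero.2 hρ
  have dm : (bar m1).natDegree ≤ h.natDegree + 3 := by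
    refine (natDegree_bar_le _).trans ?_
    have h1 : C ρ * m1 = x 0 - C I * x 1 := by rw [x0]; ring
    rw [← natDegree_C_mul (p := m1) hρ, h1, hdeg]
    exact (natDegree_sub_le _ _).trans (max_le (H.deg 0)
      ((natDegree_C_mul_le _ _).trans (H.deg 1)))
  obtain ⟨s, hs0, eα, eβ⟩ := inss0_sigma i0 i0' hh dh d1 d3 hc dm hm
    (by rw [← e1, ← e3]; exact heq) (by rw [← e1]; exact w1)
  obtain ⟨c, q1, q3, -, f1, f3, hq⟩ := exists_prim_two
    (f₂ := wronskian (x 2) (x 3)) (Or.inl (H.ind 0 1 (by decide)))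
  obtain ⟨c13, q13, hc13, f13, hq13⟩ := exists_prim_one (H.ind 1 3 (by decide))
  have I6 : I' ^ 6 = -1 := by
    calc I' ^ 6 = (I' ^ 2) ^ 3 := by ring
      _ = -1 := by rw [hI']; norm_num
  obtain ⟨R3, eR3, -⟩ := exp_shal I6 hρ0 hμ0 h3 (x 3) m3
  rw [← x2] at eR3
  rcases level_cases c (ρ ^ 3 * c13) with ⟨m, hm0, em⟩ | ⟨e, ee⟩
  · refine gen_of_small H hi hi' e0 e2 b1 b3 f1 f3 hq (R := C m * R3 * q13) (by simp [hm0]) ?_
    rw [eR3, f13]
    have : (C (ρ ^ 3) : A[X]) * C c13 = C c * C m := by rw [← C_mul, ← C_mul, em]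
    linear_combination R3 * q13 * this
  exfalso
  have Cc : (C c : A[X]) = C ρ ^ 3 * C c13 * C e := by rw [ee, C_mul, C_mul, C_pow]
  have d0 : derivative (x 0) = C I * derivative (x 1) + C ρ * derivative m1 := by
    rw [x0, derivative_add, derivative_C_mul, derivative_C_mul]
  have d2 : derivative (x 2) = C I' * derivative (x 3) + C ρ * derivative m3 := by
    rw [x2, derivative_add, derivative_C_mul, derivative_C_mul]
  have bρ : bar (C ρ) = 0 := by rw [bar_C, hρ0, C_0]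
  -- (a) divisibility of `bar q13`
  have a1 : x 1 * wronskian m1 (x 3) = C c13 * (m1 * q13 + C ρ ^ 2 * C e * x 3 * q1) := by
    apply mul_left_cancel₀ Cρ
    have h1 : x 3 * wronskian (x 0) (x 1) =
        C ρ * (x 1 * wronskian m1 (x 3) - m1 * wronskian (x 1) (x 3)) := by
      simp only [wronskian]; rw [d0]; nth_rewrite 1 [x0]; ring
    rw [f1, f13, Cc] at h1
    linear_combination -h1
  have a3 : x 3 * wronskian (x 1) m3 = C c13 * (m3 * q13 - C ρ ^ 2 * C e * x 1 * q3) := by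
    apply mul_left_cancel₀ Cρ
    have h1 : x 1 * wronskian (x 2) (x 3) =
        C ρ * (m3 * wronskian (x 1) (x 3) - x 3 * wronskian (x 1) m3) := by
      simp only [wronskian]; rw [d2]; nth_rewrite 1 [x2]; ring
    rw [f3, f13, Cc] at h1
    linear_combination h1
  have Cc13 : (C c13 : A[X]) ≠ 0 := C_ne_zero.2 hc13
  have v1 : a₁ ^ 3 ∣ bar q13 := by
    obtain ⟨W, eW⟩ := gauss_dvd b1 a1
    rw [eW, mul_left_comm] at a1
    have h1 := congrArg bar (mul_left_cancel₀ Cc13 a1)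
    simp only [bar_mul, bar_add, bar_pow, bρ] at h1
    rw [e1, eα] at h1
    have h2 : a₁ ^ 3 ∣ a₃ ^ 3 * (C s * bar q13) := ⟨bar W, by
      apply mul_left_cancel₀ hh
      linear_combination -h1⟩
    exact ((isUnit_C.2 hs0.isUnit).dvd_mul_left).1
      ((hc.pow (m := 3) (n := 3)).dvd_of_dvd_mul_left h2)
  have v3 : a₃ ^ 3 ∣ bar q13 := by
    obtain ⟨W, eW⟩ := gauss_dvd b3 a3
    rw [eW, mul_left_comm] at a3
    have h1 := congrArg bar (mul_left_cancel₀ Cc13 a3)
    simp only [bar_mul, bar_sub, bar_pow, bρ] at h1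
    rw [e3] at h1
    have h2 : a₃ ^ 3 ∣ a₁ ^ 3 * (C (i * s) * bar q13) := ⟨-(C i' * bar W), by
      apply mul_left_cancel₀ hh
      rw [C_mul]
      linear_combination C i' * h1 + bar q13 * eβ⟩
    exact ((isUnit_C.2 (mul_ne_zero i0 hs0).isUnit).dvd_mul_left).1
      ((hc.symm.pow (m := 3) (n := 3)).dvd_of_dvd_mul_left h2)
  -- (b) the quadric
  set Y1 : A[X] := m1 * (2 * C I * x 1 + C ρ * m1) with hY1
  set Y3 : A[X] := m3 * (2 * C I' * x 3 + C ρ * m3) with hY3
  have y1 : x 0 ^ 2 + x 1 ^ 2 = C ρ * Y1 := by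
    rw [x0, hY1]; linear_combination x 1 ^ 2 * CI
  have y3 : x 2 ^ 2 + x 3 ^ 2 = C ρ * Y3 := by
    rw [x2, hY3]; linear_combination x 3 ^ 2 * CI'
  have bY1 : bar Y1 = 2 * C i * C s * h ^ 2 * a₁ ^ 3 * a₃ ^ 3 := by
    simp only [hY1, bar_mul, bar_add, bρ, bar_ofNat]
    rw [bar_C, rI, e1, eα]; ring
  have bY3 : bar Y3 = -(2 * C i * C s * h ^ 2 * a₁ ^ 3 * a₃ ^ 3) := by
    simp only [hY3, bar_mul, bar_add, bρ, bar_ofNat]
    rw [bar_C, rI', e3]
    linear_combination 2 * h * a₃ ^ 3 * eβ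
  clear_value Y1 Y3
  set S : A[X] := x 0 ^ 2 + x 1 ^ 2 + (x 2 ^ 2 + x 3 ^ 2) with hS
  set G : A[X] := C ρ * (Y1 * Y3 * S + Y1 ^ 2 * x 1 ^ 2 + Y3 ^ 2 * x 3 ^ 2) - Y1 * x 1 ^ 4 -
    Y3 * x 3 ^ 4 with hG
  have eS : S ^ 3 = C (3 * ρ) * G := by
    have h0 : x 0 ^ 2 = C ρ * Y1 - x 1 ^ 2 := by linear_combination y1
    have h2 : x 2 ^ 2 = C ρ * Y3 - x 3 ^ 2 := by linear_combination y3
    have h6 := H.sum4
    have h7 : (x 0 ^ 2) ^ 3 + x 1 ^ 6 + (x 2 ^ 2) ^ 3 + x 3 ^ 6 = 0 := by linear_combination h6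
    rw [h0, h2] at h7
    rw [hG, hS, y1, y3, C_mul, map_ofNat]
    linear_combination h7
  set q : (kk A)[X] := a₁ * a₃ * (a₁ ^ 4 - a₃ ^ 4) with hqq
  have dq : derivative q = (a₁ ^ 4 + a₃ ^ 4) * wronskian a₁ a₃ := inss0_dq a₁ a₃
  have hsum : a₁ ^ 4 + a₃ ^ 4 ≠ 0 := fun h0 => by
    have h1 : a₁ ∣ a₃ ^ 4 := ⟨-a₁ ^ 3, by linear_combination h0⟩
    have h2 := (hc.pow_right (n := 4)).isUnit_of_dvd h1
    rw [natDegree_eq_zero_of_isUnit h2] at d1
    omega
  have dq0 : derivative q ≠ 0 := by rw [dq]; exact mul_ne_zero hsum hw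
  have q0 : q ≠ 0 := fun h0 => dq0 (by rw [h0, derivative_zero])
  have bG : bar G = C (i * s) * (h ^ 2 * q) ^ 3 := by
    have h1 : q ^ 3 = a₁ ^ 3 * a₃ ^ 3 * (a₁ ^ 12 - a₃ ^ 12) := by
      rw [hqq, mul_pow, mul_pow, sub_pow_char]; ring
    simp only [hG, bar_mul, bar_sub, bar_pow, bρ, bY1, bY3, e1, e3]
    rw [mul_pow (h ^ 2), h1, C_mul]
    linear_combination (-(C i * C s * h ^ 6 * a₁ ^ 3 * a₃ ^ 3 * (a₁ ^ 12 - a₃ ^ 12))) * t3
  have bG0 : bar G ≠ 0 := by
    rw [bG]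
    exact mul_ne_zero (C_ne_zero.2 (mul_ne_zero i0 hs0))
      (pow_ne_zero 3 (mul_ne_zero (pow_ne_zero 2 hh) q0))
  have three0 : (3 * ρ : A) ≠ 0 := by
    refine mul_ne_zero (fun h0 => ?_) hρ
    have := congrArg A.subtype h0
    rw [map_ofNat, map_zero] at this
    norm_num at this
  have S0 : S ≠ 0 := fun h0 => by
    rw [h0, zero_pow three_ne_zero] at eS
    rcases mul_eq_zero.1 eS.symm with h1 | h1
    · exact three0 (C_eq_zero.1 h1)
    · exact bG0 (by rw [h1, bar_zero])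
  obtain ⟨cS, S1, hcS, eS1, bS1⟩ := exists_prim_one S0
  obtain ⟨ε, -, bS⟩ := dvd_of_C_mul_eq (c₁ := 3 * ρ) (c₂ := cS ^ 3) (f₁ := G) (f₂ := S1 ^ 3)
    (by rw [← eS, eS1, mul_pow, C_pow]) bG0 (pow_ne_zero 3 hcS)
  obtain ⟨u, hu⟩ := IsAlgClosed.exists_pow_nat_eq (res ε * (i * s)) (show 0 < 3 by norm_num)
  have bS' : bar S1 = C u * (h ^ 2 * q) := by
    apply cube_inj
    rw [← bar_pow, bS, bG, mul_pow (C u), ← C_pow, hu, C_mul (a := res ε), mul_assoc]
  have u0 : u ≠ 0 := by rintro rfl; apply bS1; rw [bS', C_0, zero_mul]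
  set V : A[X] := x 3 * (2 * S1 * derivative (x 1) - x 1 * derivative S1) with hV
  have bV : bar V = -(C u * h ^ 4 * a₁ ^ 3 * a₃ ^ 3 * derivative q) := by
    simp only [hV, bar_mul, bar_sub, bar_ofNat, bar_derivative, bS', e1, e3]
    rw [mul_comm h (a₁ ^ 3), derivative_cube_mul]
    simp only [derivative_mul, derivative_C, derivative_pow, Nat.cast_ofNat, map_ofNat]
    ring
  have bV0 : bar V ≠ 0 := by
    rw [bV]
    exact neg_ne_zero.2 (mul_ne_zero (mul_ne_zero (mul_ne_zero (mul_ne_zero (C_ne_zero.2 u0)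
      (pow_ne_zero 4 hh)) (pow_ne_zero 3 n1)) (pow_ne_zero 3 n3)) dq0)
  have idn : 2 * (x 0 * x 3 * wronskian (x 0) (x 1) + x 1 * x 2 * wronskian (x 2) (x 3)) =
      x 3 * (2 * S * derivative (x 1) - x 1 * derivative S) +
        2 * (x 2 ^ 2 + x 3 ^ 2) * wronskian (x 1) (x 3) := by
    simp only [hS, wronskian, derivative_add, derivative_pow, Nat.cast_ofNat, map_ofNat]
    ring
  have eV : C cS * V = C (ρ * c13) *
      (2 * C ρ ^ 2 * C e * (x 0 * x 3 * q1 + x 1 * x 2 * q3) - 2 * Y3 * q13) := by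
    rw [f1, f3, f13, y3, Cc, eS1, derivative_C_mul] at idn
    rw [hV, C_mul]
    linear_combination -idn
  obtain ⟨ε', -, bE⟩ := dvd_of_C_mul_eq eV bV0 (mul_ne_zero hρ hc13)
  simp only [bar_mul, bar_sub, bar_pow, bρ, bY3, bar_ofNat, bV, dq] at bE
  have fin : C (i * s) * bar q13 =
      -(C (res ε') * C u * wronskian a₁ a₃) * (h ^ 2 * (a₁ ^ 4 + a₃ ^ 4)) := by
    apply mul_left_cancel₀ (mul_ne_zero (mul_ne_zero (pow_ne_zero 2 hh) (pow_ne_zero 3 n1))
      (pow_ne_zero 3 n3))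
    rw [C_mul]
    linear_combination bE - C i * C s * h ^ 2 * a₁ ^ 3 * a₃ ^ 3 * bar q13 * t3
  have ε0 : res ε' ≠ 0 := fun h0 => by
    rw [h0, C_0, zero_mul, zero_mul, neg_zero, zero_mul] at fin
    exact mul_ne_zero (C_ne_zero.2 (mul_ne_zero i0 hs0)) hq13 fin
  have hWu : IsUnit (wronskian a₁ a₃) := by
    have hd := natDegree_wronskian_le (n := 1) d1.le d3.le hw
    obtain ⟨w, ew⟩ := natDegree_eq_zero.1 (show (wronskian a₁ a₃).natDegree = 0 by omega)
    rw [← ew] at hw ⊢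
    exact isUnit_C.2 (C_ne_zero.1 hw).isUnit
  exact inss0_final (mul_ne_zero i0 hs0) hh dh d1 d3 hc
    (((isUnit_C.2 ε0.isUnit).mul (isUnit_C.2 u0.isUnit)).mul hWu).neg v1 v3 fin

end Pool.Agent.FS
end
end

-- part Pool.Agent.P.MP_57148c_nt.InsS
section

open Polynomial

noncomputable section
namespace Pool.Agent.FS

/-- all Wronskians are multiples of the Wronskian of the two free coordinates -/
theorem inss_w {k : Type} [Field k] {a : Fin 4 → k[X]} {j j' : k} (e0 : a 0 = C j * a 1)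
    (e2 : a 2 = C j' * a 3) (nc : ∃ p q, wronskian (a p) (a q) ≠ 0) :
    wronskian (a 1) (a 3) ≠ 0 := by
  intro hw
  have key : ∀ p, ∃ u v : k, a p = C u * a 1 + C v * a 3 := by
    intro p
    fin_cases p
    · exact ⟨j, 0, by simpa using e0⟩
    · exact ⟨1, 0, by simp⟩
    · exact ⟨0, j', by simpa using e2⟩
    · exact ⟨0, 1, by simp⟩
  obtain ⟨p, q, hpq⟩ := nc
  obtain ⟨u, v, hp⟩ := key p
  obtain ⟨u', v', hq⟩ := key q
  apply hpq
  rw [hp, hq]
  unfold wronskian at hw ⊢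
  simp only [derivative_add, derivative_mul, derivative_C, zero_mul, zero_add]
  linear_combination (C u * C v' - C v * C u') * hw

/-- two independent polynomials of degree at most one have no common root -/
theorem inss_noroot {k : Type} [Field k] {f g : k[X]} (hf : f.natDegree ≤ 1)
    (hg : g.natDegree ≤ 1) (hw : wronskian f g ≠ 0) (b : k) (hb : f.eval b = 0) :
    g.eval b ≠ 0 := by
  intro hb'
  have h1 := natDegree_wronskian_le hf hg hw
  have h2 : (wronskian f g).natDegree = 0 := by omega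
  have h3 := eq_C_of_natDegree_eq_zero h2
  have h4 : (wronskian f g).eval b = 0 := by
    simp [wronskian, hb, hb']
  rw [h3, eval_C] at h4
  apply hw
  rw [h3, h4, C_0]

/-- degree obstruction -/
theorem inss_deg {k : Type} [Field k] {f g P Q : k[X]} {u v : k} (hu : u ≠ 0)
    (hc : IsCoprime g f) (dg : g.natDegree = 1) (hP : P ≠ 0) (dP : P.natDegree ≤ 8)
    (h : C u * f ^ 12 * P + C v * g ^ 12 * Q = 0) : False := by
  have h1 : g ^ 12 ∣ f ^ 12 * (C u * P) := ⟨-(C v * Q), by linear_combination h⟩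
  have h2 : g ^ 12 ∣ C u * P := (IsCoprime.pow hc).dvd_of_dvd_mul_left h1
  have h3 : C u * P ≠ 0 := mul_ne_zero (C_ne_zero.2 hu) hP
  have h4 := natDegree_le_of_dvd h2 h3
  rw [natDegree_pow, dg, natDegree_C_mul hu] at h4
  omega

variable {A : ValuationSubring ℂ} [Three A]

omit [Three A] in
theorem inss_q {D : ℕ} (hD : D ≤ 5) {x : Fin 4 → A[X]} (H : Sol D x) {p q : Fin 4} (hpq : p ≠ q)
    {c : A} {w : A[X]} (e : wronskian (x p) (x q) = C c * w) : (bar w).natDegree ≤ 8 := by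
  have h0 := H.ind p q hpq
  have h1 := natDegree_wronskian_le (H.deg p) (H.deg q) h0
  have hc : c ≠ 0 := by
    rintro rfl
    apply h0
    rw [e, C_0, zero_mul]
  rw [e, natDegree_C_mul hc] at h1
  have h2 := natDegree_bar_le w
  omega

/-- the Frobenius of a special line does not occur -/
theorem insep_special {D : ℕ} (hD : D ≤ 5) {x : Fin 4 → A[X]} (H : Sol D x) {h : (kk A)[X]}
    {a : Fin 4 → (kk A)[X]} (hg : Good D x h a) (hs : a 0 ^ 2 + a 1 ^ 2 = 0) : False := by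
  obtain ⟨j, j', hj, hj', f0, f2⟩ := exists_line (Good.quad H hg) hs
  have hw : wronskian (a 1) (a 3) ≠ 0 := inss_w f0 f2 hg.nc
  have n1 : a 1 ≠ 0 := by
    intro h0
    apply hw
    rw [h0, wronskian_zero_left]
  have n3 : a 3 ≠ 0 := by
    intro h0
    apply hw
    rw [h0, wronskian_zero_right]
  have d1 := hg.one 1 n1
  have d3 := hg.one 3 n3
  have hi : (j ^ 3) ^ 2 = -1 := by
    rw [show (j ^ 3) ^ 2 = (j ^ 2) ^ 3 by ring, hj]; ring
  have hi' : (j' ^ 3) ^ 2 = -1 := by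
    rw [show (j' ^ 3) ^ 2 = (j' ^ 2) ^ 3 by ring, hj']; ring
  have i0 : j ^ 3 ≠ 0 := by
    intro h0
    rw [h0] at hi
    simp at hi
  have i0' : j' ^ 3 ≠ 0 := by
    intro h0
    rw [h0] at hi'
    simp at hi'
  have e1 := hg.eq 1
  have e3 := hg.eq 3
  have e0 : bar (x 0) = C (j ^ 3) * bar (x 1) := by
    rw [hg.eq 0, e1, f0, C_pow]; ring
  have e2 : bar (x 2) = C (j' ^ 3) * bar (x 3) := by
    rw [hg.eq 2, e3, f2, C_pow]; ring
  have b1 : bar (x 1) ≠ 0 := by
    rw [e1]; exact mul_ne_zero hg.ne (pow_ne_zero _ n1)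
  have b3 : bar (x 3) ≠ 0 := by
    rw [e3]; exact mul_ne_zero hg.ne (pow_ne_zero _ n3)
  have nr := inss_noroot d1.le d3.le hw
  have hc : IsCoprime (a 1) (a 3) := coprime_of_no_root nr
  have ngen : ¬ Gen x (j ^ 3) (j' ^ 3) := by
    rintro ⟨c, q1, q3, w1, w3, hq, hE⟩
    have g1 := inss_q hD H (by decide) w1
    have g3 := inss_q hD H (by decide) w3
    rw [e1, e3] at hE
    have hE' : C (j ^ 3) * a 1 ^ 12 * bar q1 + C (j' ^ 3) * a 3 ^ 12 * bar q3 = 0 := by
      apply mul_left_cancel₀ (pow_ne_zero 4 hg.ne)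
      linear_combination hE
    rcases hq with hq | hq
    · exact inss_deg i0 hc.symm d3 hq g1 hE'
    · exact inss_deg i0' hc d1 hq g3 (by rw [add_comm]; exact hE')
  rcases levels H hi hi' e0 e2 b1 b3 with hG | hS | hd
  · exact ngen hG
  · exact ngen (shal_insep hD H hg.ne hg.degh e0 e2 e1 e3 d1 d3 hw hS)
  · obtain ⟨b, hb⟩ : ∃ b, (a 1).IsRoot b :=
      IsAlgClosed.exists_root (a 1) (by
        rw [degree_eq_natDegree n1, d1]; decide)
    have hb1 : (a 1).eval b = 0 := hb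
    have hb3 := nr b hb1
    have hr := (deep_root hD H i0 i0' hd hg.ne e1 e3 (pow_ne_zero _ n1) (b := b)
      (by rw [eval_pow, hb1]; simp) (by rw [eval_pow]; exact pow_ne_zero _ hb3)).1
    have h3 : 3 ≤ rootMultiplicity b (a 1 ^ 3) :=
      (le_rootMultiplicity_iff (pow_ne_zero _ n1)).2 (pow_dvd_pow_of_dvd (dvd_iff_isRoot.2 hb) 3)
    omega

end Pool.Agent.FS
end
end

-- part Pool.Agent.P.MP_57148c_nt.G1
section

open Polynomial

noncomputable section
namespace Pool.Agent.FS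

/-- two independent polynomials of degree at most one span -/
theorem g1_span {k : Type} [Field k] {u v c : k[X]} (hu : u.natDegree ≤ 1) (hv : v.natDegree ≤ 1)
    (w : wronskian u v ≠ 0) (hc : c.natDegree ≤ 1) : ∃ s t : k, c = C s * u + C t * v := by
  obtain ⟨p1, q1, rfl⟩ := exists_eq_X_add_C_of_natDegree_le_one hu
  obtain ⟨p2, q2, rfl⟩ := exists_eq_X_add_C_of_natDegree_le_one hv
  obtain ⟨r, s, rfl⟩ := exists_eq_X_add_C_of_natDegree_le_one hc
  have hΔ : q1 * p2 - p1 * q2 ≠ 0 := by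
    intro h
    apply w
    have h' : C q1 * C p2 - C p1 * C q2 = (0 : k[X]) := by
      rw [← C_mul, ← C_mul, ← C_sub, h, C_0]
    simp only [wronskian, derivative_add, derivative_C_mul, derivative_X, derivative_C, mul_one,
      add_zero]
    linear_combination h'
  refine ⟨(s * p2 - r * q2) / (q1 * p2 - p1 * q2), (q1 * r - p1 * s) / (q1 * p2 - p1 * q2), ?_⟩
  have e1 : r = (s * p2 - r * q2) / (q1 * p2 - p1 * q2) * p1 +
      (q1 * r - p1 * s) / (q1 * p2 - p1 * q2) * p2 := by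
    rw [div_mul_eq_mul_div, div_mul_eq_mul_div, ← add_div, eq_div_iff hΔ]
    ring
  have e2 : s = (s * p2 - r * q2) / (q1 * p2 - p1 * q2) * q1 +
      (q1 * r - p1 * s) / (q1 * p2 - p1 * q2) * q2 := by
    rw [div_mul_eq_mul_div, div_mul_eq_mul_div, ← add_div, eq_div_iff hΔ]
    ring
  have e1' := congrArg C e1
  have e2' := congrArg C e2
  simp only [C_add, C_mul] at e1' e2'
  linear_combination X * e1' + e2'

theorem g1_coprime {k : Type} [Field k] {u v : k[X]} (hu : u.natDegree ≤ 1)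
    (hv : v.natDegree ≤ 1) (w : wronskian u v ≠ 0) : IsCoprime u v := by
  obtain ⟨s, t, h⟩ := g1_span (c := 1) hu hv w (by simp)
  exact ⟨C s, C t, h.symm⟩

theorem g1_step {k : Type} [Field k] {u v R : k[X]} (hv : v.natDegree = 1) (huv : IsCoprime u v)
    {z : k} {n : ℕ} (h : C z * u ^ n + v * R = 0) : z = 0 ∧ R = 0 := by
  have hv0 : v ≠ 0 := by
    rintro rfl
    simp at hv
  have h1 : v ∣ C z * u ^ n := ⟨-R, by linear_combination h⟩
  have h2 : v ∣ C z := (huv.symm.pow_right (n := n)).dvd_of_dvd_mul_right h1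
  have hz : z = 0 := by
    by_contra hz
    have := natDegree_le_of_dvd h2 (C_ne_zero.2 hz)
    rw [hv, natDegree_C] at this
    exact absurd this (by decide)
  refine ⟨hz, ?_⟩
  rw [hz, C_0, zero_mul, zero_add] at h
  exact (mul_eq_zero.1 h).resolve_left hv0

/-- no syzygy of degree one between three fifth powers -/
theorem g1_syz {k : Type} [Field k] [CharP k 3] {u v y c1 c2 c3 : k[X]} (hu : u.natDegree = 1)
    (hv : v.natDegree = 1) (hy : y.natDegree = 1) (w : wronskian u v ≠ 0)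
    (w1 : wronskian u y ≠ 0) (w2 : wronskian v y ≠ 0) (h1 : c1.natDegree ≤ 1)
    (h2 : c2.natDegree ≤ 1) (h3 : c3.natDegree ≤ 1)
    (h : u ^ 5 * c1 + v ^ 5 * c2 + y ^ 5 * c3 = 0) : c1 = 0 ∧ c2 = 0 ∧ c3 = 0 := by
  obtain ⟨α, β, rfl⟩ := g1_span hu.le hv.le w hy.le
  obtain ⟨c11, c12, rfl⟩ := g1_span hu.le hv.le w h1
  obtain ⟨c21, c22, rfl⟩ := g1_span hu.le hv.le w h2
  obtain ⟨c31, c32, rfl⟩ := g1_span hu.le hv.le w h3
  have hα : α ≠ 0 := by
    rintro rfl
    apply w2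
    simp only [wronskian, C_0, zero_mul, zero_add, derivative_C_mul]
    ring
  have hβ : β ≠ 0 := by
    rintro rfl
    apply w1
    simp only [wronskian, C_0, zero_mul, add_zero, derivative_C_mul]
    ring
  have huv := g1_coprime hu.le hv.le w
  have hv0 : v ≠ 0 := by
    rintro rfl
    simp at hv
  have e : C (c11 + c31 * α ^ 5) * u ^ 6 + v * (C (c12 + 5 * c31 * α ^ 4 * β + c32 * α ^ 5) * u ^ 5 +
      v * (C (10 * c31 * α ^ 3 * β ^ 2 + 5 * c32 * α ^ 4 * β) * u ^ 4 +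
      v * (C (10 * c31 * α ^ 2 * β ^ 3 + 10 * c32 * α ^ 3 * β ^ 2) * u ^ 3 +
      v * (C (5 * c31 * α * β ^ 4 + 10 * c32 * α ^ 2 * β ^ 3) * u ^ 2 +
      v * (C (c21 + c31 * β ^ 5 + 5 * c32 * α * β ^ 4) * u +
      v * C (c22 + c32 * β ^ 5)))))) = 0 := by
    simp only [C_add, C_mul, C_pow, map_ofNat]
    linear_combination h
  obtain ⟨z0, e1⟩ := g1_step hv huv e
  obtain ⟨z1, e2⟩ := g1_step hv huv e1
  obtain ⟨z2, e3⟩ := g1_step hv huv e2
  obtain ⟨z3, -⟩ := g1_step hv huv e3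
  have t3 := three_eq_zero' (k := k)
  have k31 : c31 = 0 := by
    have : c31 * (α ^ 3 * β ^ 3) = 0 := by
      linear_combination (2 * β) * z2 - α * z3 - (3 * c31 * α ^ 3 * β ^ 3) * t3
    exact (mul_eq_zero.1 this).resolve_right (mul_ne_zero (pow_ne_zero _ hα) (pow_ne_zero _ hβ))
  have k32 : c32 = 0 := by
    have : c32 * (α ^ 3 * β ^ 2) = 0 := by
      rw [k31] at z3
      linear_combination z3 - (3 * c32 * α ^ 3 * β ^ 2) * t3
    exact (mul_eq_zero.1 this).resolve_right (mul_ne_zero (pow_ne_zero _ hα) (pow_ne_zero _ hβ))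
  subst k31 k32
  have k11 : c11 = 0 := by linear_combination z0
  have k12 : c12 = 0 := by linear_combination z1
  subst k11 k12
  refine ⟨by simp, ?_, by simp⟩
  have : v ^ 5 * (C c21 * u + C c22 * v) = 0 := by
    simp only [C_0, zero_mul, add_zero, mul_zero, zero_add] at h
    exact h
  exact (mul_eq_zero.1 this).resolve_left (pow_ne_zero _ hv0)

theorem g1_diag {k : Type} [Field k] [CharP k 3] {a : Fin 4 → k[X]} {Q : Fin 4 → Fin 4 → k[X]}
    (hQ : Rel a Q) (i : Fin 4) : Q i i = 0 := by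
  linear_combination (-1) * hQ.anti i i + Q i i * three_eq_zero (k := k)

theorem g1_syz0 {k : Type} [Field k] [CharP k 3] {a : Fin 4 → k[X]} {Q : Fin 4 → Fin 4 → k[X]}
    (hQ : Rel a Q) : a 1 ^ 5 * Q 1 0 + a 2 ^ 5 * Q 2 0 + a 3 ^ 5 * Q 3 0 = 0 := by
  have h := hQ.syz 0
  rw [Fin.sum_univ_four, g1_diag hQ 0] at h
  linear_combination h

theorem g1_col {k : Type} [Field k] {a : Fin 4 → k[X]} {Q : Fin 4 → Fin 4 → k[X]}
    (d : (a 0).natDegree = 1) (hQ : Rel a Q) (h : ∀ j, Q j 0 = 0) : ∀ i j, Q i j = 0 := by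
  intro i j
  have h0 : a 0 ≠ 0 := by
    intro e
    rw [e] at d
    simp at d
  have := hQ.cyc 0 i j
  rw [hQ.anti 0 i, h i, h j, neg_zero, mul_zero, mul_zero, add_zero, add_zero] at this
  exact (mul_eq_zero.1 this).resolve_left h0

theorem g1_dec4 {k : Type} [Field k] [CharP k 3]
    {r s t u x0 x1 x2 y0 y1 y2 z0 z1 z2 w0 w1 w2 : k[X]}
    (h : r ^ 3 * (x0 ^ 3 + X * x1 ^ 3 + X ^ 2 * x2 ^ 3) +
      s ^ 3 * (y0 ^ 3 + X * y1 ^ 3 + X ^ 2 * y2 ^ 3) +
      t ^ 3 * (z0 ^ 3 + X * z1 ^ 3 + X ^ 2 * z2 ^ 3) +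
      u ^ 3 * (w0 ^ 3 + X * w1 ^ 3 + X ^ 2 * w2 ^ 3) = 0) :
    r * x0 + s * y0 + t * z0 + u * w0 = 0 ∧ r * x1 + s * y1 + t * z1 + u * w1 = 0 ∧
      r * x2 + s * y2 + t * z2 + u * w2 = 0 := by
  apply dec_unique
  simp only [cube_add, mul_pow]
  linear_combination h

variable {k : Type} [Field k] [IsAlgClosed k] [CharP k 3] {a : Fin 4 → k[X]}

theorem rel_deg_one (d : ∀ i, (a i).natDegree = 1)
    (w : ∀ i j, i ≠ j → wronskian (a i) (a j) ≠ 0) {Q : Fin 4 → Fin 4 → k[X]} (hQ : Rel a Q)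
    (hd : ∀ i j, (Q i j).natDegree ≤ 1) : ∀ i j, Q i j = 0 := by
  obtain ⟨h1, h2, h3⟩ := g1_syz (d 1) (d 2) (d 3) (w 1 2 (by decide)) (w 1 3 (by decide))
    (w 2 3 (by decide)) (hd 1 0) (hd 2 0) (hd 3 0) (g1_syz0 hQ)
  refine g1_col (d 0) hQ fun j => ?_
  fin_cases j
  exacts [g1_diag hQ 0, h1, h2, h3]

theorem rel_root (d : ∀ i, (a i).natDegree = 1)
    (w : ∀ i j, i ≠ j → wronskian (a i) (a j) ≠ 0) {Q : Fin 4 → Fin 4 → k[X]} (hQ : Rel a Q)
    (hd : ∀ i j, (Q i j).natDegree ≤ 2) {b : k} (hb : ∀ i j, (Q i j).eval b = 0) :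
    ∀ i j, Q i j = 0 := by
  have hdv : ∀ i j, ∃ R : k[X], Q i j = (X - C b) * R := fun i j => dvd_iff_isRoot.2 (hb i j)
  choose R hR using hdv
  have h0 : (X - C b : k[X]) ≠ 0 := X_sub_C_ne_zero b
  have hrel : Rel a R := by
    refine ⟨fun i j => ?_, fun i j l => ?_, fun j => ?_⟩
    · apply mul_left_cancel₀ h0
      have := hQ.anti i j
      rw [hR, hR] at this
      linear_combination this
    · apply mul_left_cancel₀ h0
      have := hQ.cyc i j l
      rw [hR, hR, hR] at this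
      linear_combination this
    · apply mul_left_cancel₀ h0
      have := hQ.syz j
      rw [Fin.sum_univ_four] at this ⊢
      rw [hR, hR, hR, hR] at this
      linear_combination this
  have hdeg : ∀ i j, (R i j).natDegree ≤ 1 := by
    intro i j
    by_cases e : R i j = 0
    · rw [e]; simp
    · have := hd i j
      rw [hR, natDegree_mul h0 e, natDegree_X_sub_C] at this
      omega
  intro i j
  rw [hR, rel_deg_one d w hrel hdeg i j, mul_zero]

theorem rel_prop (d : ∀ i, (a i).natDegree = 1)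
    (w : ∀ i j, i ≠ j → wronskian (a i) (a j) ≠ 0) {P Q : Fin 4 → Fin 4 → k[X]} (hP : Rel a P)
    (hQ : Rel a Q) (dP : ∀ i j, (P i j).natDegree ≤ 2) (dQ : ∀ i j, (Q i j).natDegree ≤ 2)
    (hne : ∃ i j, P i j ≠ 0) : ∃ g : k, ∀ i j, Q i j = C g * P i j := by
  have ha : ∀ i, a i ≠ 0 := fun i e => by
    have := d i
    rw [e] at this
    simp at this
  have sP := g1_syz0 hP
  have sQ := g1_syz0 hQ
  have m23 : P 2 0 * Q 3 0 - Q 2 0 * P 3 0 = 0 := by
    have h1 : a 1 ^ 5 ∣ a 2 ^ 5 * (P 2 0 * Q 3 0 - Q 2 0 * P 3 0) :=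
      ⟨-(P 1 0 * Q 3 0 - Q 1 0 * P 3 0), by linear_combination Q 3 0 * sP - P 3 0 * sQ⟩
    have h2 := ((g1_coprime (d 1).le (d 2).le (w 1 2 (by decide))).pow (m := 5)
      (n := 5)).dvd_of_dvd_mul_left h1
    by_contra e
    have h3 := natDegree_le_of_dvd h2 e
    have h4 : (P 2 0 * Q 3 0 - Q 2 0 * P 3 0).natDegree ≤ 4 :=
      (natDegree_sub_le _ _).trans (max_le
        (natDegree_mul_le.trans (Nat.add_le_add (dP 2 0) (dQ 3 0)))
        (natDegree_mul_le.trans (Nat.add_le_add (dQ 2 0) (dP 3 0))))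
    rw [natDegree_pow, d 1] at h3
    omega
  have m13 : P 1 0 * Q 3 0 - Q 1 0 * P 3 0 = 0 := by
    apply mul_left_cancel₀ (pow_ne_zero 5 (ha 1))
    linear_combination Q 3 0 * sP - P 3 0 * sQ - a 2 ^ 5 * m23
  have m12 : P 1 0 * Q 2 0 - Q 1 0 * P 2 0 = 0 := by
    apply mul_left_cancel₀ (pow_ne_zero 5 (ha 1))
    linear_combination Q 2 0 * sP - P 2 0 * sQ + a 3 ^ 5 * m23
  have p0 := g1_diag hP 0
  have q0 := g1_diag hQ 0
  have m : ∀ j l, P j 0 * Q l 0 = Q j 0 * P l 0 := by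
    intro j l
    fin_cases j <;> fin_cases l <;> simp only [Fin.zero_eta, Fin.mk_one, Fin.reduceFinMk] <;>
      first
        | ring1
        | (rw [p0, q0]; ring1)
        | linear_combination m12
        | linear_combination m13
        | linear_combination m23
        | linear_combination -m12
        | linear_combination -m13
        | linear_combination -m23
  obtain ⟨j, hj⟩ : ∃ j, P j 0 ≠ 0 := by
    by_contra h
    push Not at h
    obtain ⟨i, j, hij⟩ := hne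
    exact hij (g1_col (d 0) hP h i j)
  obtain ⟨b, hb⟩ : ∃ b, (a 0 * P j 0).eval b ≠ 0 := by
    by_contra h
    push Not at h
    exact mul_ne_zero (ha 0) hj (Polynomial.funext fun b => by rw [h b, eval_zero])
  rw [eval_mul] at hb
  have hb0 := left_ne_zero_of_mul hb
  have hb1 := right_ne_zero_of_mul hb
  set g : k := (Q j 0).eval b / (P j 0).eval b with hg
  have hrel : Rel a fun i j => Q i j - C g * P i j := by
    refine ⟨fun i l => ?_, fun i l n => ?_, fun l => ?_⟩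
    · linear_combination hQ.anti i l - C g * hP.anti i l
    · linear_combination hQ.cyc i l n - C g * hP.cyc i l n
    · have h1 := hQ.syz l
      have h2 := hP.syz l
      rw [Fin.sum_univ_four] at h1 h2 ⊢
      linear_combination h1 - C g * h2
  have hcol : ∀ l, (Q l 0 - C g * P l 0).eval b = 0 := by
    intro l
    have := congrArg (eval b) (m j l)
    rw [eval_mul, eval_mul] at this
    rw [eval_sub, eval_mul, eval_C, hg]
    field_simp
    linear_combination this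
  have hall : ∀ i l, (Q i l - C g * P i l).eval b = 0 := by
    intro i l
    have h1 := congrArg (eval b) (hrel.cyc 0 i l)
    have h2 := congrArg (eval b) (hrel.anti 0 i)
    simp only [eval_add, eval_mul, eval_neg, eval_zero] at h1 h2
    rw [h2, hcol i, hcol l, neg_zero, mul_zero, mul_zero, add_zero, add_zero] at h1
    exact (mul_eq_zero.1 h1).resolve_left hb0
  refine ⟨g, fun i l => sub_eq_zero.1 (rel_root d w hrel (fun i l => ?_) hall i l)⟩
  exact (natDegree_sub_le _ _).trans (max_le (dQ i l) ((natDegree_C_mul_le _ _).trans (dP i l)))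

/-- Frobenius descent -/
theorem rel_descend (d : ∀ i, (a i).natDegree = 1)
    (w : ∀ i j, i ≠ j → wronskian (a i) (a j) ≠ 0) {q : Fin 4 → Fin 4 → k[X]}
    (hq : Rel (fun i => a i ^ 3) q) (hd : ∀ i j, (q i j).natDegree ≤ 8) (hne : ∃ i j, q i j ≠ 0) :
    ∃ (P : Fin 4 → Fin 4 → k[X]) (γ : k[X]), Rel a P ∧ (∀ i j, (P i j).natDegree ≤ 2) ∧
      (∃ i j, (P i j).natDegree = 2) ∧ (∀ b, ∃ i j, (P i j).eval b ≠ 0) ∧ γ ≠ 0 ∧
      ∀ i j, q i j = γ * P i j ^ 3 := by
  choose q0 q1 q2 hdec using fun i j => exists_dec (q i j)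
  have hA : ∀ i j, 1 * q0 i j + 1 * q0 j i + 0 * 0 + 0 * 0 = 0 ∧
      1 * q1 i j + 1 * q1 j i + 0 * 0 + 0 * 0 = 0 ∧ 1 * q2 i j + 1 * q2 j i + 0 * 0 + 0 * 0 = 0 := by
    intro i j
    apply g1_dec4
    rw [← hdec, ← hdec]
    linear_combination hq.anti i j
  have hC : ∀ i j l, a i * q0 j l + a j * q0 l i + a l * q0 i j + 0 * 0 = 0 ∧
      a i * q1 j l + a j * q1 l i + a l * q1 i j + 0 * 0 = 0 ∧
      a i * q2 j l + a j * q2 l i + a l * q2 i j + 0 * 0 = 0 := by
    intro i j l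
    apply g1_dec4
    rw [← hdec, ← hdec, ← hdec]
    linear_combination hq.cyc i j l
  have hS : ∀ j, a 0 ^ 5 * q0 0 j + a 1 ^ 5 * q0 1 j + a 2 ^ 5 * q0 2 j + a 3 ^ 5 * q0 3 j = 0 ∧
      a 0 ^ 5 * q1 0 j + a 1 ^ 5 * q1 1 j + a 2 ^ 5 * q1 2 j + a 3 ^ 5 * q1 3 j = 0 ∧
      a 0 ^ 5 * q2 0 j + a 1 ^ 5 * q2 1 j + a 2 ^ 5 * q2 2 j + a 3 ^ 5 * q2 3 j = 0 := by
    intro j
    apply g1_dec4
    rw [← hdec, ← hdec, ← hdec, ← hdec]
    have := hq.syz j
    rw [Fin.sum_univ_four] at this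
    linear_combination this
  have r0 : Rel a q0 := ⟨fun i j => by linear_combination (hA i j).1,
    fun i j l => by linear_combination (hC i j l).1,
    fun j => by rw [Fin.sum_univ_four]; exact (hS j).1⟩
  have r1 : Rel a q1 := ⟨fun i j => by linear_combination (hA i j).2.1,
    fun i j l => by linear_combination (hC i j l).2.1,
    fun j => by rw [Fin.sum_univ_four]; exact (hS j).2.1⟩
  have r2 : Rel a q2 := ⟨fun i j => by linear_combination (hA i j).2.2,
    fun i j l => by linear_combination (hC i j l).2.2,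
    fun j => by rw [Fin.sum_univ_four]; exact (hS j).2.2⟩
  have hdeg : ∀ i j, (q0 i j).natDegree ≤ 2 ∧ (q1 i j).natDegree ≤ 2 ∧ (q2 i j).natDegree ≤ 2 :=
    fun i j => dec_natDegree (by rw [← hdec]; exact hd i j)
  obtain ⟨P, rP, dP, nP⟩ : ∃ P : Fin 4 → Fin 4 → k[X], Rel a P ∧ (∀ i j, (P i j).natDegree ≤ 2) ∧
      ∃ i j, P i j ≠ 0 := by
    obtain ⟨i, j, hij⟩ := hne
    by_cases e0 : q0 i j = 0
    · by_cases e1 : q1 i j = 0
      · refine ⟨q2, r2, fun i j => (hdeg i j).2.2, i, j, fun e2 => hij ?_⟩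
        rw [hdec, e0, e1, e2]
        ring
      · exact ⟨q1, r1, fun i j => (hdeg i j).2.1, i, j, e1⟩
    · exact ⟨q0, r0, fun i j => (hdeg i j).1, i, j, e0⟩
  obtain ⟨g0, h0⟩ := rel_prop d w rP r0 dP (fun i j => (hdeg i j).1) nP
  obtain ⟨g1, h1⟩ := rel_prop d w rP r1 dP (fun i j => (hdeg i j).2.1) nP
  obtain ⟨g2, h2⟩ := rel_prop d w rP r2 dP (fun i j => (hdeg i j).2.2) nP
  have hγ : ∀ i j, q i j = (C g0 ^ 3 + X * C g1 ^ 3 + X ^ 2 * C g2 ^ 3) * P i j ^ 3 := by
    intro i j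
    rw [hdec, h0, h1, h2]
    ring
  refine ⟨P, _, rP, dP, ?_, fun b => ?_, fun e => ?_, hγ⟩
  · by_contra h
    push Not at h
    obtain ⟨i, j, hij⟩ := nP
    refine hij (rel_deg_one d w rP (fun i j => ?_) i j)
    have := dP i j
    have := h i j
    omega
  · by_contra h
    push Not at h
    obtain ⟨i, j, hij⟩ := nP
    exact hij (rel_root d w rP dP h i j)
  · obtain ⟨i, j, hij⟩ := hne
    exact hij (by rw [hγ, e, zero_mul])

end Pool.Agent.FS
end
end

-- part Pool.Agent.P.MP_57148c_nt.G2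
section

open Polynomial

noncomputable section
namespace Pool.Agent.FS

variable {k : Type} [Field k] [IsAlgClosed k] [CharP k 3] {a : Fin 4 → k[X]}

theorem g2_alg {R : Type} [CommRing R] [IsDomain R] {a0 a1 a2 a3 b0 b1 b2 b3 : R}
    (s0 : a0 ^ 2 + a1 ^ 2 + a2 ^ 2 + a3 ^ 2 = 0) (s1 : a0 * b0 + a1 * b1 + a2 * b2 + a3 * b3 = 0)
    (s2 : b0 ^ 2 + b1 ^ 2 + b2 ^ 2 + b3 ^ 2 = 0) (p : a0 * b1 - b0 * a1 = 0)
    (n : a0 ^ 2 + a1 ^ 2 ≠ 0) :
    a2 * b3 - b2 * a3 = 0 ∧ a0 * b2 - b0 * a2 = 0 ∧ a1 * b2 - b1 * a2 = 0 ∧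
      a0 * b3 - b0 * a3 = 0 ∧ a1 * b3 - b1 * a3 = 0 := by
  have q : a2 * b3 - b2 * a3 = 0 := by
    refine pow_eq_zero_iff (two_ne_zero) |>.1 ?_
    linear_combination (a0 * b1 - b0 * a1) * p + (b2 ^ 2 + b3 ^ 2) * s0 - (a0 ^ 2 + a1 ^ 2) * s2 +
      (a0 * b0 + a1 * b1 - a2 * b2 - a3 * b3) * s1
  refine ⟨q, ?_, ?_, ?_, ?_⟩ <;> refine (mul_eq_zero.1 ?_).resolve_left n
  · linear_combination a0 * b2 * s0 - a0 * a2 * s1 + a0 * a3 * q + a1 * a2 * p
  · linear_combination a1 * b2 * s0 - a1 * a2 * s1 + a1 * a3 * q - a0 * a2 * p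
  · linear_combination a0 * b3 * s0 - a0 * a3 * s1 - a0 * a2 * q + a1 * a3 * p
  · linear_combination a1 * b3 * s0 - a1 * a3 * s1 - a1 * a2 * q - a0 * a3 * p

omit [IsAlgClosed k] in
theorem g2_indep01 (d : ∀ i, (a i).natDegree ≤ 1) (h2 : ∑ i, a i ^ 2 = 0)
    (n : a 0 ^ 2 + a 1 ^ 2 ≠ 0) (p : wronskian (a 0) (a 1) = 0) (i j : Fin 4) :
    wronskian (a i) (a j) = 0 := by
  have dd : ∀ i, derivative (derivative (a i)) = 0 := fun i =>
    derivative_of_natDegree_zero (by have := natDegree_derivative_le (a i); have := d i; omega)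
  rw [Fin.sum_univ_four] at h2
  have s1 : a 0 * derivative (a 0) + a 1 * derivative (a 1) + a 2 * derivative (a 2) +
      a 3 * derivative (a 3) = 0 := by
    have := congrArg derivative h2
    simp only [sq, derivative_add, derivative_mul, derivative_zero] at this
    linear_combination -this + (a 0 * derivative (a 0) + a 1 * derivative (a 1) +
      a 2 * derivative (a 2) + a 3 * derivative (a 3)) * (three_eq_zero (k := k))
  have s2 : derivative (a 0) ^ 2 + derivative (a 1) ^ 2 + derivative (a 2) ^ 2 +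
      derivative (a 3) ^ 2 = 0 := by
    have := congrArg derivative s1
    simp only [derivative_add, derivative_mul, derivative_zero, dd] at this
    linear_combination this
  obtain ⟨q1, q2, q3, q4, q5⟩ := g2_alg h2 s1 s2 p n
  have ng : ∀ {f g : k[X]}, wronskian f g = 0 → wronskian g f = 0 := fun h => by
    rw [← wronskian_neg_eq, h, neg_zero]
  match i, j with
  | 0, 0 => exact wronskian_self_eq_zero _
  | 0, 1 => exact p
  | 0, 2 => exact q2
  | 0, 3 => exact q4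
  | 1, 0 => exact ng p
  | 1, 1 => exact wronskian_self_eq_zero _
  | 1, 2 => exact q3
  | 1, 3 => exact q5
  | 2, 0 => exact ng q2
  | 2, 1 => exact ng q3
  | 2, 2 => exact wronskian_self_eq_zero _
  | 2, 3 => exact q1
  | 3, 0 => exact ng q4
  | 3, 1 => exact ng q5
  | 3, 2 => exact ng q1
  | 3, 3 => exact wronskian_self_eq_zero _

/-- on a line that is not special the four coordinates are pairwise independent -/
theorem indep_of_not_special (d : ∀ i, (a i).natDegree ≤ 1) (h2 : ∑ i, a i ^ 2 = 0)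
    (nc : ∃ i j, wronskian (a i) (a j) ≠ 0) (ns : ∀ i j, i ≠ j → a i ^ 2 + a j ^ 2 ≠ 0) :
    ∀ i j, i ≠ j → wronskian (a i) (a j) ≠ 0 := by
  intro i j hij hw
  obtain ⟨σ, rfl, rfl⟩ := exists_perm hij
  obtain ⟨u, v, huv⟩ := nc
  have := g2_indep01 (a := fun i => a (σ i)) (fun i => d _)
    (by rw [Equiv.sum_comp σ fun i => a i ^ 2]; exact h2) (ns _ _ hij) hw (σ.symm u) (σ.symm v)
  simp only [Equiv.apply_symm_apply] at this
  exact huv this

omit [IsAlgClosed k] [CharP k 3] in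
theorem g2_deg {u v : k[X]} (hu : u.natDegree ≤ 1) (hv : v.natDegree ≤ 1) {i : k} (hi : i ^ 2 = -1)
    (h : (u ^ 2 + v ^ 2).natDegree = 2) :
    (u + C i * v).natDegree = 1 ∧ (u - C i * v).natDegree = 1 := by
  have hI : (C i) ^ 2 = -1 := by rw [← C_pow, hi, C_neg, C_1]
  have e : u ^ 2 + v ^ 2 = (u + C i * v) * (u - C i * v) := by linear_combination v ^ 2 * hI
  have h0 : (C i * v).natDegree ≤ 1 := (natDegree_C_mul_le _ _).trans hv
  have h1 : (u + C i * v).natDegree ≤ 1 := natDegree_add_le_of_degree_le hu h0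
  have h2 : (u - C i * v).natDegree ≤ 1 := (natDegree_sub_le _ _).trans (max_le hu h0)
  have h3 := natDegree_mul_le (p := u + C i * v) (q := u - C i * v)
  rw [← e, h] at h3
  omega

theorem g2_param (d : ∀ i, (a i).natDegree ≤ 1) (h2 : ∑ i, a i ^ 2 = 0)
    (w : ∀ i j, i ≠ j → wronskian (a i) (a j) ≠ 0)
    (ns : ∀ i j, i ≠ j → (a i ^ 2 + a j ^ 2).natDegree = 2) {i i' : k} (hi : i ^ 2 = -1)
    (hi' : i' ^ 2 = -1) (hd : a 0 + C i * a 1 ∣ a 2 + C i' * a 3) :
    ∃ (i i' κ : k) (s t : k[X]), i ^ 2 = -1 ∧ i' ^ 2 = -1 ∧ κ ≠ 0 ∧ κ ^ 2 ≠ 1 ∧ κ ^ 2 ≠ -1 ∧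
      s.natDegree = 1 ∧ t.natDegree = 1 ∧ IsCoprime s t ∧
      2 * a 0 = s - C κ * t ∧ 2 * C i * a 1 = s + C κ * t ∧
      2 * a 2 = C κ * s + t ∧ 2 * C i' * a 3 = C κ * s - t := by
  have hI : (C i) ^ 2 = -1 := by rw [← C_pow, hi, C_neg, C_1]
  have hI' : (C i') ^ 2 = -1 := by rw [← C_pow, hi', C_neg, C_1]
  have h3 := three_eq_zero (k := k)
  rw [Fin.sum_univ_four] at h2
  obtain ⟨dU, -⟩ := g2_deg (d 0) (d 1) hi (ns 0 1 (by decide))
  obtain ⟨dV, dV'⟩ := g2_deg (d 2) (d 3) hi' (ns 2 3 (by decide))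
  obtain ⟨q, hq⟩ := hd
  have hU : a 0 + C i * a 1 ≠ 0 := ne_zero_of_natDegree_gt (n := 0) (by omega)
  have hq0 : q ≠ 0 := by
    rintro rfl
    rw [hq, mul_zero, natDegree_zero] at dV
    omega
  have dq : q.natDegree = 0 := by
    rw [hq, natDegree_mul hU hq0] at dV
    omega
  obtain ⟨κ, rfl⟩ : ∃ κ, q = C κ := ⟨_, eq_C_of_natDegree_eq_zero dq⟩
  have hU' : a 0 - C i * a 1 = -(C κ * (a 2 - C i' * a 3)) := by
    refine mul_left_cancel₀ hU ?_
    linear_combination h2 - a 1 ^ 2 * hI - a 3 ^ 2 * hI' - (a 2 - C i' * a 3) * hq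
  generalize hs : a 0 + C i * a 1 = s at *
  generalize ht : a 2 - C i' * a 3 = t at *
  have e0 : 2 * a 0 = s - C κ * t := by linear_combination hs + hU'
  have e1 : 2 * C i * a 1 = s + C κ * t := by linear_combination hs - hU'
  have e2 : 2 * a 2 = C κ * s + t := by linear_combination hq + ht
  have e3 : 2 * C i' * a 3 = C κ * s - t := by linear_combination hq - ht
  refine ⟨i, i', κ, s, t, hi, hi', fun h => hq0 (by rw [h, C_0]), fun h => ?_, fun h => ?_, dU, dV',
    coprime_of_no_root fun b hs' ht' => ?_, e0, e1, e2, e3⟩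
  · have hK : (C κ) ^ 2 = 1 := by rw [← C_pow, h, C_1]
    have e : a 0 ^ 2 + a 3 ^ 2 = 0 := by
      linear_combination (2 * a 0 + s - C κ * t) * e0 - (2 * C i' * a 3 + C κ * s - t) * e3 +
        4 * a 3 ^ 2 * hI' + (t ^ 2 - s ^ 2) * hK - (a 0 ^ 2 + a 3 ^ 2) * h3
    have := ns 0 3 (by decide)
    rw [e, natDegree_zero] at this
    omega
  · have hK : (C κ) ^ 2 = -1 := by rw [← C_pow, h, C_neg, C_1]
    have e : a 0 ^ 2 + a 2 ^ 2 = 0 := by
      linear_combination (2 * a 0 + s - C κ * t) * e0 + (2 * a 2 + C κ * s + t) * e2 +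
        (t ^ 2 + s ^ 2) * hK - (a 0 ^ 2 + a 2 ^ 2) * h3
    have := ns 0 2 (by decide)
    rw [e, natDegree_zero] at this
    omega
  · have hw := w 0 2 (by decide)
    have dw := natDegree_wronskian_le (d 0) (d 2) hw
    have f0 := congrArg (eval b) e0
    have f2 := congrArg (eval b) e2
    simp only [eval_mul, eval_add, eval_sub, eval_C, eval_ofNat, hs', ht'] at f0 f2
    have h3' := three_eq_zero' (k := k)
    have g0 : (a 0).eval b = 0 := by linear_combination -f0 + (a 0).eval b * h3'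
    have g2 : (a 2).eval b = 0 := by linear_combination -f2 + (a 2).eval b * h3'
    have hc := eq_C_of_natDegree_eq_zero (p := wronskian (a 0) (a 2)) (by omega)
    have hv : (wronskian (a 0) (a 2)).eval b = 0 := by simp [wronskian, g0, g2]
    rw [hc, eval_C] at hv
    rw [hv, C_0] at hc
    exact hw hc

/-- parametrisation of such a line -/
theorem exists_param (d : ∀ i, (a i).natDegree ≤ 1) (h2 : ∑ i, a i ^ 2 = 0)
    (w : ∀ i j, i ≠ j → wronskian (a i) (a j) ≠ 0)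
    (ns : ∀ i j, i ≠ j → (a i ^ 2 + a j ^ 2).natDegree = 2) :
    ∃ (i i' κ : k) (s t : k[X]), i ^ 2 = -1 ∧ i' ^ 2 = -1 ∧ κ ≠ 0 ∧ κ ^ 2 ≠ 1 ∧ κ ^ 2 ≠ -1 ∧
      s.natDegree = 1 ∧ t.natDegree = 1 ∧ IsCoprime s t ∧
      2 * a 0 = s - C κ * t ∧ 2 * C i * a 1 = s + C κ * t ∧
      2 * a 2 = C κ * s + t ∧ 2 * C i' * a 3 = C κ * s - t := by
  obtain ⟨i, hi⟩ := IsAlgClosed.exists_pow_nat_eq (-1 : k) (n := 2) two_pos
  have hI : (C i) ^ 2 = -1 := by rw [← C_pow, hi, C_neg, C_1]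
  obtain ⟨dU, -⟩ := g2_deg (d 0) (d 1) hi (ns 0 1 (by decide))
  have hp : Prime (a 0 + C i * a 1) :=
    (irreducible_of_degree_eq_one ((degree_eq_iff_natDegree_eq_of_pos one_pos).2 dU)).prime
  have h4 := h2
  rw [Fin.sum_univ_four] at h4
  have hd : a 0 + C i * a 1 ∣ (a 2 + C i * a 3) * (a 2 + C (-i) * a 3) :=
    ⟨-(a 0 - C i * a 1), by
      rw [C_neg]; linear_combination h4 - a 1 ^ 2 * hI - a 3 ^ 2 * hI⟩
  rcases hp.dvd_or_dvd hd with h | h
  · exact g2_param d h2 w ns hi hi h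
  · exact g2_param d h2 w ns hi (by rw [neg_sq, hi]) h

omit [IsAlgClosed k] [CharP k 3] in
theorem g2_cop {s t : k[X]} (h : IsCoprime s t) {b : k} (hs : s.eval b = 0) : t.eval b ≠ 0 := by
  obtain ⟨u, v, e⟩ := h
  intro ht
  have := congrArg (eval b) e
  simp [hs, ht] at this

omit [IsAlgClosed k] in
theorem g2_root {i κ : k} {s t : k[X]} (hi : i ^ 2 = -1) (hκ : κ ≠ 0)
    (e0 : 2 * a 0 = s - C κ * t) (e1 : 2 * C i * a 1 = s + C κ * t) {b : k}
    (hb : (a 0).eval b ^ 2 + (a 1).eval b ^ 2 = 0) : s.eval b = 0 ∨ t.eval b = 0 := by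
  have f0 := congrArg (eval b) e0
  have f1 := congrArg (eval b) e1
  simp only [eval_mul, eval_add, eval_sub, eval_C, eval_ofNat] at f0 f1
  refine mul_eq_zero.1 ((mul_eq_zero.1 (?_ : κ * (s.eval b * t.eval b) = 0)).resolve_left hκ)
  linear_combination (2 * (a 0).eval b + s.eval b - κ * t.eval b) * f0 -
    (2 * i * (a 1).eval b + s.eval b + κ * t.eval b) * f1 + 4 * (a 1).eval b ^ 2 * hi - 4 * hb -
    κ * s.eval b * t.eval b * three_eq_zero' (k := k)

/-- a point of such a line lies on at most one special line -/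
theorem one_type (d : ∀ i, (a i).natDegree ≤ 1) (h2 : ∑ i, a i ^ 2 = 0)
    (w : ∀ i j, i ≠ j → wronskian (a i) (a j) ≠ 0)
    (ns : ∀ i j, i ≠ j → (a i ^ 2 + a j ^ 2).natDegree = 2) {b : k}
    (hb : (a 0).eval b ^ 2 + (a 1).eval b ^ 2 = 0) :
    (∀ i, (a i).eval b ≠ 0) ∧ ∀ i j : Fin 4, (i = 0 ∨ i = 1) → (j = 2 ∨ j = 3) →
      (a i).eval b ^ 2 + (a j).eval b ^ 2 ≠ 0 := by
  obtain ⟨i, i', κ, s, t, hi, hi', hκ, hκ1, hκ2, -, -, hc, e0, e1, e2, e3⟩ := exists_param d h2 w ns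
  have hr := g2_root hi hκ e0 e1 hb
  have f0 := congrArg (eval b) e0
  have f1 := congrArg (eval b) e1
  have f2 := congrArg (eval b) e2
  have f3 := congrArg (eval b) e3
  have f4 := congrArg (eval b) h2
  simp only [eval_mul, eval_add, eval_sub, eval_C, eval_ofNat, Fin.sum_univ_four, eval_pow,
    eval_zero] at f0 f1 f2 f3 f4
  have k1 : 1 - κ ^ 2 ≠ 0 := fun h => hκ1 (by linear_combination -h)
  have k2 : 1 + κ ^ 2 ≠ 0 := fun h => hκ2 (by linear_combination h)
  have n1 : s.eval b ^ 2 + t.eval b ^ 2 ≠ 0 ∧ s.eval b ^ 2 - t.eval b ^ 2 ≠ 0 ∧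
      s.eval b - κ * t.eval b ≠ 0 ∧ s.eval b + κ * t.eval b ≠ 0 ∧
      κ * s.eval b + t.eval b ≠ 0 ∧ κ * s.eval b - t.eval b ≠ 0 := by
    rcases hr with h | h
    · simp [h, g2_cop hc h, hκ]
    · simp [h, g2_cop hc.symm h, hκ]
  obtain ⟨n1, n2, n3, n4, n5, n6⟩ := n1
  generalize s.eval b = σ at *
  generalize t.eval b = τ at *
  have m2 : (a 0).eval b ^ 2 + (a 2).eval b ^ 2 ≠ 0 := fun h => mul_ne_zero k2 n1 (by
    linear_combination 4 * h - (2 * (a 0).eval b + σ - κ * τ) * f0 -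
      (2 * (a 2).eval b + κ * σ + τ) * f2)
  have m3 : (a 0).eval b ^ 2 + (a 3).eval b ^ 2 ≠ 0 := fun h => mul_ne_zero k1 n2 (by
    linear_combination 4 * h - (2 * (a 0).eval b + σ - κ * τ) * f0 +
      (2 * i' * (a 3).eval b + κ * σ - τ) * f3 - 4 * (a 3).eval b ^ 2 * hi')
  refine ⟨fun j => ?_, ?_⟩
  · intro h
    fin_cases j <;> simp only [Fin.zero_eta, Fin.mk_one, Fin.reduceFinMk] at h
    · exact n3 (by rw [← f0, h, mul_zero])
    · exact n4 (by rw [← f1, h, mul_zero])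
    · exact n5 (by rw [← f2, h, mul_zero])
    · exact n6 (by rw [← f3, h, mul_zero])
  · rintro _ _ (rfl | rfl) (rfl | rfl)
    · exact m2
    · exact m3
    · exact fun h => m3 (by linear_combination f4 - h)
    · exact fun h => m2 (by linear_combination f4 - h)

omit [CharP k 3] in
theorem g2_kill {s t : k[X]} (hc : IsCoprime s t) (dt : t.natDegree = 1) {z0 z1 z2 : k} {r : k[X]}
    (h : C z0 * s ^ 6 + C z1 * s ^ 5 * t + C z2 * s ^ 4 * t ^ 2 = t ^ 3 * r) : z0 = 0 ∧ z2 = 0 := by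
  have ht : t ≠ 0 := ne_zero_of_natDegree_gt (n := 0) (by omega)
  obtain ⟨b, hb⟩ := IsAlgClosed.exists_root t
    (by rw [degree_eq_natDegree ht, dt]; exact one_ne_zero)
  have hb' : t.eval b = 0 := hb
  have hs := g2_cop hc.symm hb'
  have h0 : z0 = 0 := by simpa [hb', hs] using congrArg (eval b) h
  rw [h0, C_0] at h
  have h' : C z1 * s ^ 5 + C z2 * s ^ 4 * t = t ^ 2 * r :=
    mul_left_cancel₀ ht (by linear_combination h)
  have h1 : z1 = 0 := by simpa [hb', hs] using congrArg (eval b) h'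
  rw [h1, C_0] at h'
  have h'' : C z2 * s ^ 4 = t * r := mul_left_cancel₀ ht (by linear_combination h')
  exact ⟨h0, by simpa [hb', hs] using congrArg (eval b) h''⟩

omit [IsAlgClosed k] in
theorem g2_solve {κ c1 c2 : k} (hκ : κ ≠ 0) (hκ1 : κ ^ 2 ≠ 1) (hκ2 : κ ^ 2 ≠ -1)
    (h0 : c1 * κ + c2 * κ ^ 5 = 0)
    (h2 : c1 * (5 * κ + 10 * κ ^ 3) + c2 * (10 * κ ^ 3 + 5 * κ ^ 5) = 0) : c1 = 0 ∧ c2 = 0 := by
  have k1 : 1 - κ ^ 2 ≠ 0 := fun h => hκ1 (by linear_combination -h)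
  have k2 : 1 + κ ^ 2 ≠ 0 := fun h => hκ2 (by linear_combination h)
  have h3 := three_eq_zero' (k := k)
  have e1 : c1 - c2 * κ ^ 2 = 0 := by
    refine (mul_eq_zero.1 (?_ : κ * (1 - κ ^ 2) * (c1 - c2 * κ ^ 2) = 0)).resolve_left
      (mul_ne_zero hκ k1)
    linear_combination -h2 + (2 * c1 * κ + 3 * c1 * κ ^ 3 + 3 * c2 * κ ^ 3 + 2 * c2 * κ ^ 5) * h3
  have e2 : c2 = 0 := by
    refine (mul_eq_zero.1 (?_ : κ ^ 3 * (1 + κ ^ 2) * c2 = 0)).resolve_left
      (mul_ne_zero (pow_ne_zero _ hκ) k2)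
    linear_combination h0 - κ * e1
  exact ⟨by rw [e2] at e1; linear_combination e1, e2⟩

omit [IsAlgClosed k] [CharP k 3] in
theorem g2_const {b : k} {P : k[X]} (dP : P.natDegree ≤ 2) (h : (X - C b) ^ 2 ∣ P) :
    ∃ c : k, P = (X - C b) ^ 2 * C c := by
  obtain ⟨q, rfl⟩ := h
  by_cases hq : q = 0
  · exact ⟨0, by rw [hq, C_0]⟩
  · rw [natDegree_mul (pow_ne_zero _ (X_sub_C_ne_zero b)) hq, natDegree_pow, natDegree_X_sub_C] at dP
    exact ⟨_, by rw [← eq_C_of_natDegree_eq_zero (p := q) (by omega)]⟩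

omit [IsAlgClosed k] [CharP k 3] in
theorem g2_dvd {b : k} {t G Q : k[X]} (ht : t.eval b ≠ 0) (h : (X - C b) ^ 2 * G = t ^ 3 * Q) :
    t ^ 3 ∣ G := by
  have hc : IsCoprime (X - C b) t :=
    (irreducible_X_sub_C b).coprime_iff_not_dvd.2 fun hd => ht (dvd_iff_isRoot.1 hd)
  exact (hc.symm.pow (m := 3) (n := 2)).dvd_of_dvd_mul_left ⟨Q, h⟩

/-- no double contact with the special line -/
theorem no_double (d : ∀ i, (a i).natDegree ≤ 1) (h2 : ∑ i, a i ^ 2 = 0)
    (w : ∀ i j, i ≠ j → wronskian (a i) (a j) ≠ 0)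
    (ns : ∀ i j, i ≠ j → (a i ^ 2 + a j ^ 2).natDegree = 2) {P : Fin 4 → Fin 4 → k[X]}
    (hP : Rel a P) (dP : ∀ i j, (P i j).natDegree ≤ 2) (hne : ∃ i j, P i j ≠ 0) {b : k}
    (hb : (a 0).eval b ^ 2 + (a 1).eval b ^ 2 = 0) :
    ¬ ((X - C b) ^ 2 ∣ P 0 1 ∧ (X - C b) ^ 2 ∣ P 2 3) := by
  rintro ⟨h01, h23⟩
  obtain ⟨i, i', κ, s, t, hi, hi', hκ, hκ1, hκ2, ds, dt, hc, e0, e1, e2, e3⟩ :=
    exists_param d h2 w ns
  have hI' : (C i') ^ 2 = -1 := by rw [← C_pow, hi', C_neg, C_1]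
  have h3 := three_eq_zero (k := k)
  obtain ⟨c, hc1⟩ := g2_const (dP 0 1) h01
  obtain ⟨c', hc2⟩ := g2_const (dP 2 3) h23
  have diag : ∀ j, P j j = 0 := fun j => by linear_combination -hP.anti j j + P j j * h3
  have q23 : a 2 ^ 2 + a 3 ^ 2 = C κ * s * t := by
    linear_combination (2 * a 2 + C κ * s + t) * e2 - (2 * C i' * a 3 + C κ * s - t) * e3 +
      4 * a 3 ^ 2 * hI' - (a 2 ^ 2 + a 3 ^ 2 - C κ * s * t) * h3
  have q6 : a 2 ^ 6 + a 3 ^ 6 = (C κ * s * t) ^ 3 := by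
    rw [← q23, cube_add]; ring
  have key := hP.key
  rw [diag 1, q6, hc1, hc2] at key
  have key2 : (X - C b) ^ 2 * (C (c * i) * (s - C κ * t) ^ 5 * (C κ * s - t) +
      C (c' * i') * (s + C κ * t) * (C κ * s + t) ^ 5) =
      (C κ * s * t) ^ 3 * (64 * C i * C i' * P 1 3) := by
    rw [← e0, ← e1, ← e2, ← e3, C_mul, C_mul]
    linear_combination 64 * C i * C i' * key
  have hcc : c * i = 0 ∧ c' * i' = 0 := by
    generalize c * i = c1 at key2 ⊢
    generalize c' * i' = c2 at key2 ⊢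
    rcases g2_root hi hκ e0 e1 hb with h | h
    · obtain ⟨r, hr⟩ := g2_dvd (t := t) (Q := (C κ * s) ^ 3 * (64 * C i * C i' * P 1 3))
        (g2_cop hc h) (key2.trans (by ring))
      obtain ⟨z0, z2⟩ := g2_kill hc dt (z0 := c1 * κ + c2 * κ ^ 5)
        (z1 := c1 * (-1 - 5 * κ ^ 2) + c2 * (5 * κ ^ 4 + κ ^ 6))
        (z2 := c1 * (5 * κ + 10 * κ ^ 3) + c2 * (10 * κ ^ 3 + 5 * κ ^ 5))
        (r := r - (C c1 * (-(10 * C κ ^ 2 + 10 * C κ ^ 4) * s ^ 3 +
            (10 * C κ ^ 3 + 5 * C κ ^ 5) * s ^ 2 * t - (5 * C κ ^ 4 + C κ ^ 6) * s * t ^ 2 +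
            C κ ^ 5 * t ^ 3) +
          C c2 * ((10 * C κ ^ 2 + 10 * C κ ^ 4) * s ^ 3 + (5 * C κ + 10 * C κ ^ 3) * s ^ 2 * t +
            (1 + 5 * C κ ^ 2) * s * t ^ 2 + C κ * t ^ 3))) (by
          simp only [map_add, map_mul, map_sub, map_pow, map_neg, map_one, map_ofNat]
          linear_combination hr)
      exact g2_solve hκ hκ1 hκ2 z0 z2
    · obtain ⟨r, hr⟩ := g2_dvd (t := s) (Q := (C κ * t) ^ 3 * (64 * C i * C i' * P 1 3))
        (g2_cop hc.symm h) (key2.trans (by ring))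
      obtain ⟨z0, z2⟩ := g2_kill hc.symm ds (z0 := c2 * κ + c1 * κ ^ 5)
        (z1 := c2 * (1 + 5 * κ ^ 2) - c1 * (5 * κ ^ 4 + κ ^ 6))
        (z2 := c2 * (5 * κ + 10 * κ ^ 3) + c1 * (10 * κ ^ 3 + 5 * κ ^ 5))
        (r := r - (C c1 * (-(10 * C κ ^ 2 + 10 * C κ ^ 4) * t ^ 3 +
            (5 * C κ + 10 * C κ ^ 3) * t ^ 2 * s - (1 + 5 * C κ ^ 2) * t * s ^ 2 +
            C κ * s ^ 3) +
          C c2 * ((10 * C κ ^ 2 + 10 * C κ ^ 4) * t ^ 3 + (10 * C κ ^ 3 + 5 * C κ ^ 5) * t ^ 2 * s +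
            (5 * C κ ^ 4 + C κ ^ 6) * t * s ^ 2 + C κ ^ 5 * s ^ 3))) (by
          simp only [map_add, map_mul, map_sub, map_pow, map_one, map_ofNat]
          linear_combination hr)
      exact (g2_solve hκ hκ1 hκ2 z0 z2).symm
  have i0 : i ≠ 0 := fun h => by simp [h] at hi
  have i0' : i' ≠ 0 := fun h => by simp [h] at hi'
  have c0 : c = 0 := (mul_eq_zero.1 hcc.1).resolve_right i0
  have c0' : c' = 0 := (mul_eq_zero.1 hcc.2).resolve_right i0'
  rw [c0, C_0, mul_zero] at hc1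
  rw [c0', C_0, mul_zero] at hc2
  rw [c0, c0', C_0] at key
  have hs : s ≠ 0 := ne_zero_of_natDegree_gt (n := 0) (by omega)
  have ht : t ≠ 0 := ne_zero_of_natDegree_gt (n := 0) (by omega)
  have p13 : P 1 3 = 0 := (mul_eq_zero.1 (by linear_combination -key)).resolve_left
    (pow_ne_zero 3 (mul_ne_zero (mul_ne_zero (C_ne_zero.2 hκ) hs) ht))
  have a1 : a 1 ≠ 0 := fun h => w 1 0 (by decide) (by rw [h, wronskian_zero_left])
  have a3 : a 3 ≠ 0 := fun h => w 3 0 (by decide) (by rw [h, wronskian_zero_left])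
  have p31 : P 3 1 = 0 := by rw [hP.anti, p13, neg_zero]
  have p30 : P 3 0 = 0 := (mul_eq_zero.1 (by
    linear_combination hP.cyc 0 1 3 - a 0 * p13 - a 3 * hc1)).resolve_left a1
  have p12 : P 1 2 = 0 := (mul_eq_zero.1 (by
    linear_combination hP.cyc 1 2 3 - a 1 * hc2 - a 2 * p31)).resolve_left a3
  have p20 : P 2 0 = 0 := (mul_eq_zero.1 (by
    linear_combination hP.cyc 0 1 2 - a 0 * p12 - a 2 * hc1)).resolve_left a1
  obtain ⟨u, v, huv⟩ := hne
  refine huv ?_
  fin_cases u <;> fin_cases v <;> simp only [Fin.zero_eta, Fin.mk_one, Fin.reduceFinMk] <;>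
    first
    | exact diag _
    | assumption
    | (rw [hP.anti, neg_eq_zero]; assumption)

end Pool.Agent.FS
end
end

-- part Pool.Agent.P.MP_57148c_nt.G3
section

open Polynomial

noncomputable section
namespace Pool.Agent.FS

section
variable {k : Type} [Field k] [IsAlgClosed k] [CharP k 3]

omit [IsAlgClosed k] in
theorem g3_cube (u s t : k) : (u * s ^ 3) ^ 2 + (u * t ^ 3) ^ 2 = u ^ 2 * (s ^ 2 + t ^ 2) ^ 3 := by
  linear_combination (-(u ^ 2 * (s ^ 4 * t ^ 2 + s ^ 2 * t ^ 4))) * (three_eq_zero' (k := k))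

omit [IsAlgClosed k] [CharP k 3] in
theorem g3_rm_le {p : k[X]} {b : k} (h : ¬ (X - C b) ^ 2 ∣ p) :
    p ≠ 0 ∧ rootMultiplicity b p ≤ 1 := by
  have hp : p ≠ 0 := fun e => h (e ▸ dvd_zero _)
  refine ⟨hp, ?_⟩
  by_contra hlt
  exact h ((le_rootMultiplicity_iff hp).1 (by omega))

omit [IsAlgClosed k] [CharP k 3] in
theorem g3_rm_neg (p : k[X]) (b : k) : rootMultiplicity b (-p) = rootMultiplicity b p := by
  by_cases hp : p = 0
  · rw [hp, neg_zero]
  · have e : -p = C (-1) * p := by simp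
    have h1 : (C (-1 : k) * p) ≠ 0 := e ▸ neg_ne_zero.2 hp
    rw [e, rootMultiplicity_mul h1, rootMultiplicity_C, zero_add]

omit [IsAlgClosed k] [CharP k 3] in
theorem g3_rm_pow {p : k[X]} (hp : p ≠ 0) (b : k) (n : ℕ) :
    rootMultiplicity b (p ^ n) = n * rootMultiplicity b p := by
  induction n with
  | zero => rw [pow_zero, zero_mul, ← C_1, rootMultiplicity_C]
  | succ n ih =>
    rw [pow_succ, rootMultiplicity_mul (mul_ne_zero (pow_ne_zero n hp) hp), ih]
    ring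

omit [IsAlgClosed k] [CharP k 3] in
theorem g3_const {f g : k[X]} (hf : f.natDegree ≤ 1) (hg : g.natDegree ≤ 1)
    (hw : wronskian f g ≠ 0) (b : k) : (wronskian f g).eval b ≠ 0 := by
  have h0 : (wronskian f g).natDegree = 0 := by
    have := natDegree_wronskian_le hf hg hw
    omega
  rw [eq_C_of_natDegree_eq_zero h0] at hw ⊢
  rw [eval_C]
  intro e
  exact hw (by rw [e, C_0])

theorem g3_step {a : Fin 4 → k[X]} (d : ∀ i, (a i).natDegree ≤ 1) (h2 : ∑ i, a i ^ 2 = 0)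
    (w : ∀ i j, i ≠ j → wronskian (a i) (a j) ≠ 0)
    (ns : ∀ i j, i ≠ j → (a i ^ 2 + a j ^ 2).natDegree = 2) {P : Fin 4 → Fin 4 → k[X]}
    (hP : Rel a P) (dP : ∀ i j, (P i j).natDegree ≤ 2) {b : k}
    (hr : ∃ i j, (P i j).eval b ≠ 0) (hb : (a 0).eval b ^ 2 + (a 1).eval b ^ 2 = 0)
    {N g : ℕ} {u : k} (hu : u ≠ 0) {o : Fin 4 → Fin 4 → ℕ}
    (ho : ∀ i j, P i j ≠ 0 → o i j = g + 3 * rootMultiplicity b (P i j))
    (hI : Ineq N (fun i => u * (a i).eval b ^ 3) o) : 4 * N ≤ 2 * g + 3 := by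
  obtain ⟨ha, hs⟩ := one_type d h2 w ns hb
  have hne : ∃ i j, P i j ≠ 0 := by
    obtain ⟨i, j, hij⟩ := hr
    exact ⟨i, j, fun e => hij (by rw [e, eval_zero])⟩
  have hnd := no_double d h2 w ns hP dP hne hb
  have hanti : ∀ i j, (P i j).eval b = -(P j i).eval b := fun i j => by
    rw [hP.anti i j, eval_neg]
  have hone : ∀ i j l, i ≠ j → i ≠ l → j ≠ l → (a j).eval b ^ 2 + (a l).eval b ^ 2 ≠ 0 →
      4 * N ≤ o i j + o i l := fun i j l h1 h2 h3 h4 =>
    hI.one (fun i => mul_ne_zero hu (pow_ne_zero 3 (ha i))) i j l h1 h2 h3 (by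
      show (u * (a j).eval b ^ 3) ^ 2 + (u * (a l).eval b ^ 3) ^ 2 ≠ 0
      rw [g3_cube]
      exact mul_ne_zero (pow_ne_zero 2 hu) (pow_ne_zero 3 h4))
  have ho0 : ∀ i j, (P i j).eval b ≠ 0 → o i j = g ∧ o j i = g := fun i j hij => by
    have hji : (P j i).eval b ≠ 0 := by rw [hanti j i]; exact neg_ne_zero.2 hij
    rw [ho i j fun e => hij (by rw [e, eval_zero]), ho j i fun e => hji (by rw [e, eval_zero]),
      rootMultiplicity_eq_zero hij, rootMultiplicity_eq_zero hji]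
    simp
  have ho1 : ∀ i j, ¬ (X - C b) ^ 2 ∣ P i j → o i j ≤ g + 3 ∧ o j i ≤ g + 3 := fun i j hij => by
    obtain ⟨h1, h3⟩ := g3_rm_le hij
    have h4 : P j i ≠ 0 := by rw [hP.anti j i]; exact neg_ne_zero.2 h1
    rw [ho i j h1, ho j i h4, hP.anti j i, g3_rm_neg]
    omega
  have hex : (P 0 2).eval b ≠ 0 ∨ (P 0 3).eval b ≠ 0 ∨ (P 1 2).eval b ≠ 0 ∨
      (P 1 3).eval b ≠ 0 := by
    by_contra hn
    simp only [not_or, not_not] at hn
    obtain ⟨e02, e03, e12, e13⟩ := hn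
    have e20 : (P 2 0).eval b = 0 := by rw [hanti, e02, neg_zero]
    have e30 : (P 3 0).eval b = 0 := by rw [hanti, e03, neg_zero]
    have e21 : (P 2 1).eval b = 0 := by rw [hanti, e12, neg_zero]
    have e31 : (P 3 1).eval b = 0 := by rw [hanti, e13, neg_zero]
    have e01 : (P 0 1).eval b = 0 := by
      have := congrArg (eval b) (hP.cyc 0 1 2)
      simp only [eval_add, eval_mul, eval_zero, e12, e20, mul_zero, zero_add] at this
      exact (mul_eq_zero.1 this).resolve_left (ha 2)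
    have e23 : (P 2 3).eval b = 0 := by
      have := congrArg (eval b) (hP.cyc 0 2 3)
      simp only [eval_add, eval_mul, eval_zero, e30, e02, mul_zero, add_zero] at this
      exact (mul_eq_zero.1 this).resolve_left (ha 0)
    have e10 : (P 1 0).eval b = 0 := by rw [hanti, e01, neg_zero]
    have e32 : (P 3 2).eval b = 0 := by rw [hanti, e23, neg_zero]
    have ed : ∀ i, (P i i).eval b = 0 := fun i => by
      linear_combination (-1 : k) * hanti i i + (P i i).eval b * (three_eq_zero' (k := k))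
    obtain ⟨i, j, hij⟩ := hr
    apply hij
    fin_cases i <;> fin_cases j <;> first | exact ed _ | assumption
  have s02 := hs 0 2 (Or.inl rfl) (Or.inl rfl)
  have s03 := hs 0 3 (Or.inl rfl) (Or.inr rfl)
  have s12 := hs 1 2 (Or.inr rfl) (Or.inl rfl)
  have s13 := hs 1 3 (Or.inr rfl) (Or.inr rfl)
  rcases not_and_or.1 hnd with h01 | h23
  · obtain ⟨o1, o2⟩ := ho1 0 1 h01
    rcases hex with e | e | e | e
    · have := hone 0 1 2 (by decide) (by decide) (by decide) s12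
      have := ho0 _ _ e
      omega
    · have := hone 0 1 3 (by decide) (by decide) (by decide) s13
      have := ho0 _ _ e
      omega
    · have := hone 1 0 2 (by decide) (by decide) (by decide) s02
      have := ho0 _ _ e
      omega
    · have := hone 1 0 3 (by decide) (by decide) (by decide) s03
      have := ho0 _ _ e
      omega
  · obtain ⟨o1, o2⟩ := ho1 2 3 h23
    rcases hex with e | e | e | e
    · have := hone 2 0 3 (by decide) (by decide) (by decide) s03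
      have := ho0 _ _ e
      omega
    · have := hone 3 0 2 (by decide) (by decide) (by decide) s02
      have := ho0 _ _ e
      omega
    · have := hone 2 1 3 (by decide) (by decide) (by decide) s13
      have := ho0 _ _ e
      omega
    · have := hone 3 1 2 (by decide) (by decide) (by decide) s12
      have := ho0 _ _ e
      omega

theorem g3_step' {a : Fin 4 → k[X]} (d : ∀ i, (a i).natDegree ≤ 1) (h2 : ∑ i, a i ^ 2 = 0)
    (w : ∀ i j, i ≠ j → wronskian (a i) (a j) ≠ 0)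
    (ns : ∀ i j, i ≠ j → (a i ^ 2 + a j ^ 2).natDegree = 2) {P : Fin 4 → Fin 4 → k[X]}
    (hP : Rel a P) (dP : ∀ i j, (P i j).natDegree ≤ 2) {b : k}
    (hr : ∃ i j, (P i j).eval b ≠ 0) {N g : ℕ} (hN : 0 < N) {u : k} (hu : u ≠ 0)
    {o : Fin 4 → Fin 4 → ℕ}
    (ho : ∀ i j, P i j ≠ 0 → o i j = g + 3 * rootMultiplicity b (P i j))
    (hI : Ineq N (fun i => u * (a i).eval b ^ 3) o) : 4 * N ≤ 2 * g + 3 := by
  obtain ⟨j, l, hjl, e⟩ := hI.line hN
  have e' : (a j).eval b ^ 2 + (a l).eval b ^ 2 = 0 := by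
    have e1 : (u * (a j).eval b ^ 3) ^ 2 + (u * (a l).eval b ^ 3) ^ 2 = 0 := e
    rw [g3_cube] at e1
    exact pow_eq_zero_iff (by norm_num) |>.1 ((mul_eq_zero.1 e1).resolve_left (pow_ne_zero 2 hu))
  obtain ⟨σ, h0, h1⟩ := exists_perm hjl
  refine g3_step (a := fun i => a (σ i)) (fun i => d _) ?_
    (fun i j hij => w _ _ (σ.injective.ne hij)) (fun i j hij => ns _ _ (σ.injective.ne hij))
    (hP.perm σ) (fun i j => dP _ _) (b := b) ?_ ?_ hu (o := fun i j => o (σ i) (σ j))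
    (fun i j hij => ho _ _ hij) (hI.perm σ)
  · rw [Equiv.sum_comp σ fun i => a i ^ 2]
    exact h2
  · obtain ⟨i, j, hij⟩ := hr
    exact ⟨σ.symm i, σ.symm j, by simpa using hij⟩
  · simpa only [h0, h1] using e'

end

variable {A : ValuationSubring ℂ} [Three A]

omit [Three A] in
theorem g3_rel {D : ℕ} {x : Fin 4 → A[X]} (H : Sol D x) {h : (kk A)[X]}
    {a : Fin 4 → (kk A)[X]} (hg : Good D x h a) {c : A} (hc : c ≠ 0) {q : Fin 4 → Fin 4 → A[X]}
    (hq : ∀ i j, wronskian (x i) (x j) = C c * q i j) :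
    Rel (fun i => a i ^ 3) fun i j => bar (q i j) := by
  have hC : (C c : A[X]) ≠ 0 := C_ne_zero.2 hc
  have R := H.rel
  refine ⟨fun i j => ?_, fun i j l => ?_, fun j => ?_⟩
  · have h1 := R.anti i j
    simp only [hq] at h1
    have h2 : q i j = -q j i := mul_left_cancel₀ hC (by rw [h1]; ring)
    rw [h2, bar_neg]
  · have h1 := R.cyc i j l
    simp only [hq] at h1
    have h2 : x i * q j l + x j * q l i + x l * q i j = 0 :=
      mul_left_cancel₀ hC (by linear_combination h1)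
    have h3 := congrArg bar h2
    simp only [bar_add, bar_mul, bar_zero, hg.eq] at h3
    exact mul_left_cancel₀ hg.ne (by linear_combination h3)
  · have h1 := R.syz j
    simp only [hq, Fin.sum_univ_four] at h1
    have h2 : x 0 ^ 5 * q 0 j + x 1 ^ 5 * q 1 j + x 2 ^ 5 * q 2 j + x 3 ^ 5 * q 3 j = 0 :=
      mul_left_cancel₀ hC (by linear_combination h1)
    have h3 := congrArg bar h2
    simp only [bar_add, bar_mul, bar_pow, bar_zero, hg.eq] at h3
    simp only [Fin.sum_univ_four]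
    exact mul_left_cancel₀ (pow_ne_zero 5 hg.ne) (by linear_combination h3)

/-- the Frobenius of a line that is not special does not occur -/
theorem insep_general {D : ℕ} (hD : D ≤ 5) {x : Fin 4 → A[X]} (H : Sol D x) {h : (kk A)[X]}
    {a : Fin 4 → (kk A)[X]} (hg : Good D x h a) (ns : ∀ i j, i ≠ j → a i ^ 2 + a j ^ 2 ≠ 0)
    (hC : ∀ b, Claim x b (rootMultiplicity b h)) : False := by
  have h2 := hg.quad H
  have w := indep_of_not_special hg.dega h2 hg.nc ns
  have ha : ∀ i, a i ≠ 0 := fun i e => by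
    obtain ⟨j, hj⟩ := exists_ne i
    exact w j i hj (by rw [e, wronskian_zero_right])
  have d1 : ∀ i, (a i).natDegree = 1 := fun i => hg.one i (ha i)
  have ns2 : ∀ i j, i ≠ j → (a i ^ 2 + a j ^ 2).natDegree = 2 := fun i j hij =>
    hg.two i j (ns i j hij)
  have hdh := hg.degh
  obtain ⟨c, G, hc, hG, hG0⟩ := exists_prim
    (fun p : Fin 4 × Fin 4 => wronskian (x p.1) (x p.2)) ⟨(0, 1), H.ind 0 1 (by decide)⟩
  obtain ⟨q, hq, hq0⟩ : ∃ q : Fin 4 → Fin 4 → A[X],
      (∀ i j, wronskian (x i) (x j) = C c * q i j) ∧ ∃ i j, bar (q i j) ≠ 0 := by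
    obtain ⟨p, hp⟩ := hG0
    exact ⟨fun i j => G (i, j), fun i j => hG (i, j), p.1, p.2, hp⟩
  have hCc : (C c : A[X]) ≠ 0 := C_ne_zero.2 hc
  have hdeg : ∀ i j, (bar (q i j)).natDegree + 2 ≤ 2 * D := fun i j => by
    have h1 := natDegree_bar_le (q i j)
    by_cases h0 : q i j = 0
    · rw [h0, bar_zero, natDegree_zero]
      omega
    · have h3 := natDegree_wronskian_le (H.deg i) (H.deg j)
        (by rw [hq]; exact mul_ne_zero hCc h0)
      rw [hq, natDegree_C_mul hc] at h3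
      omega
  obtain ⟨P, γ, hP, dP, ⟨i0, j0, hd2⟩, hr, hγ, hqP⟩ := rel_descend d1 w (g3_rel H hg hc hq)
    (fun i j => by have := hdeg i j; omega) hq0
  have hP0 : P i0 j0 ≠ 0 := fun e => by rw [e, natDegree_zero] at hd2; omega
  have hdγ : γ.natDegree + 2 ≤ 2 * h.natDegree := by
    have h1 := hdeg i0 j0
    rw [hqP, natDegree_mul hγ (pow_ne_zero 3 hP0), natDegree_pow, hd2] at h1
    omega
  have hZ : ∀ i j, ∃ Z : A[X], C (3 : A) * Z = C c * derivative (derivative (x i * q j i)) ∧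
      bar Z = h ^ 3 * a i ^ 3 * wronskian (a i) (a j) ^ 3 := fun i j => by
    obtain ⟨Z, e1, e2⟩ := hasse (hg.eq i) (hg.eq j)
    refine ⟨Z, ?_, e2⟩
    rw [hq, mul_left_comm, derivative_C_mul, derivative_C_mul] at e1
    rw [e1]
    rfl
  obtain ⟨ε, hε⟩ : ∃ ε : A, 3 = c * ε := by
    obtain ⟨Z, e1, e2⟩ := hZ 0 1
    obtain ⟨e, he, _⟩ := dvd_of_C_mul_eq e1 (by
      rw [e2]
      exact mul_ne_zero (mul_ne_zero (pow_ne_zero 3 hg.ne) (pow_ne_zero 3 (ha 0)))
        (pow_ne_zero 3 (w 0 1 (by decide)))) hc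
    exact ⟨e, he⟩
  have hT : ∀ i j, P j i ^ 3 * derivative (derivative (h * γ)) =
      C (res ε) * h ^ 3 * wronskian (a i) (a j) ^ 3 := fun i j => by
    obtain ⟨Z, e1, e2⟩ := hZ i j
    rw [hε, C_mul, mul_assoc] at e1
    have e3 := congrArg bar (mul_left_cancel₀ hCc e1)
    rw [bar_mul, bar_C, e2, bar_derivative, bar_derivative, bar_mul, hg.eq, hqP] at e3
    have e4 : h * a i ^ 3 * (γ * P j i ^ 3) = (a i * P j i) ^ 3 * (h * γ) := by ring
    rw [e4, derivative_cube_mul, derivative_cube_mul] at e3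
    exact mul_left_cancel₀ (pow_ne_zero 3 (ha i)) (by linear_combination -e3)
  have hT0 : derivative (derivative (h * γ)) = 0 := by
    by_contra hne
    have hij : j0 ≠ i0 := fun e => by
      have e1 := hT j0 i0
      rw [e, wronskian_self_eq_zero, zero_pow (by norm_num), mul_zero] at e1
      rw [e] at hP0
      exact mul_ne_zero (pow_ne_zero 3 hP0) hne e1
    obtain ⟨b, hb⟩ := IsAlgClosed.exists_root (P i0 j0) (by
      rw [degree_eq_natDegree hP0, hd2]; decide)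
    obtain ⟨i, j, hij'⟩ := hr b
    have e1 : P i0 j0 ^ 3 * wronskian (a j) (a i) ^ 3 = P i j ^ 3 * wronskian (a j0) (a i0) ^ 3 :=
      mul_left_cancel₀ hne (by
        linear_combination wronskian (a j) (a i) ^ 3 * hT j0 i0 -
          wronskian (a j0) (a i0) ^ 3 * hT j i)
    have e2 := congrArg (eval b) e1
    have hb' : (P i0 j0).eval b = 0 := hb
    simp only [eval_mul, eval_pow, hb'] at e2
    exact mul_ne_zero (pow_ne_zero 3 hij')
      (pow_ne_zero 3 (g3_const (hg.dega j0) (hg.dega i0) (w _ _ hij) b)) (by rw [← e2]; ring)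
  have hrm : ∀ b, 2 * rootMultiplicity b h ≤ rootMultiplicity b γ := fun b => by
    rcases Nat.eq_zero_or_pos (rootMultiplicity b h) with h0 | hN
    · omega
    obtain ⟨h0, e0, hnd⟩ := exists_eq_pow_rootMultiplicity_mul_and_not_dvd h hg.ne b
    have hu : h0.eval b ≠ 0 := fun e => hnd (dvd_iff_isRoot.2 e)
    have hI := hC b (fun i => h0 * a i ^ 3)
      (fun i => by rw [hg.eq, ← mul_assoc, ← e0]) (by
        by_contra hn
        simp only [not_exists, not_not, eval_mul, eval_pow, mul_eq_zero, hu, false_or,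
          pow_eq_zero_iff (show (3 : ℕ) ≠ 0 by norm_num)] at hn
        apply g3_const (hg.dega 0) (hg.dega 1) (w 0 1 (by decide)) b
        simp only [wronskian, eval_sub, eval_mul, hn, zero_mul, mul_zero, sub_zero])
    simp only [eval_mul, eval_pow] at hI
    have h4 := g3_step' hg.dega h2 w ns2 hP dP (hr b) hN hu (g := rootMultiplicity b γ)
      (fun i j hij => by
        have hne : γ * P i j ^ 3 ≠ 0 := mul_ne_zero hγ (pow_ne_zero 3 hij)
        show rootMultiplicity b (nred (wronskian (x i) (x j))) = _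
        rw [rm_nred (hq i j) hc (by rw [hqP]; exact hne), hqP, rootMultiplicity_mul hne,
          g3_rm_pow hij]) hI
    have h5 := rm_mod_three (mul_ne_zero hg.ne hγ) hT0 b
    rw [rootMultiplicity_mul (mul_ne_zero hg.ne hγ)] at h5
    omega
  have hdvd : h ^ 2 ∣ γ := dvd_of_rm_le (pow_ne_zero 2 hg.ne) hγ fun b => by
    rw [g3_rm_pow hg.ne]
    exact hrm b
  have h6 := natDegree_le_of_dvd hdvd hγ
  rw [natDegree_pow] at h6
  omega

end Pool.Agent.FS
end
end

-- part Pool.Agent.P.MP_57148c_nt.Shrink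
section

open Polynomial

noncomputable section
namespace Pool.Agent.FS

variable {A : ValuationSubring ℂ}

theorem shrink_min {ι : Type} (s : Finset ι) (hs : s.Nonempty) (f : ι → A) :
    ∃ i ∈ s, ∀ j ∈ s, f i ∣ f j := by
  classical
  induction hs using Finset.Nonempty.cons_induction with
  | singleton a => exact ⟨a, by simp, by simp⟩
  | cons a s ha hs ih =>
    obtain ⟨i, hi, h⟩ := ih
    rcases ValuationRing.dvd_total (f a) (f i) with h1 | h1
    · refine ⟨a, by simp, fun j hj => ?_⟩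
      rcases Finset.mem_cons.mp hj with rfl | hj
      · exact dvd_rfl
      · exact h1.trans (h j hj)
    · refine ⟨i, Finset.mem_cons.mpr (Or.inr hi), fun j hj => ?_⟩
      rcases Finset.mem_cons.mp hj with rfl | hj
      · exact h1
      · exact h j hj

theorem shrink_comp (f : A[X]) (a s : A) :
    f.comp (C a + C s * X) = (taylor a f).comp (C s * X) := by
  rw [taylor_apply, comp_assoc]
  simp [add_comm]

theorem shrink_coeff (f : A[X]) (a s : A) (m : ℕ) :
    (f.comp (C a + C s * X)).coeff m = (taylor a f).coeff m * s ^ m := by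
  rw [shrink_comp, comp_C_mul_X_coeff]

theorem shrink_ne {f : A[X]} (hf : f ≠ 0) (a : A) {s : A} (hs : s ≠ 0) :
    f.comp (C a + C s * X) ≠ 0 := by
  intro h
  have h1 := shrink_coeff f a s (taylor a f).natDegree
  rw [h, coeff_zero] at h1
  have h2 : taylor a f ≠ 0 := fun e => hf (taylor_injective a (by rw [e, map_zero]))
  exact mul_ne_zero (leadingCoeff_ne_zero.mpr h2) (pow_ne_zero _ hs) h1.symm

theorem shrink_wr (f g : A[X]) (a s : A) :
    wronskian (f.comp (C a + C s * X)) (g.comp (C a + C s * X)) =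
      C s * (wronskian f g).comp (C a + C s * X) := by
  simp only [wronskian, derivative_comp, sub_comp, mul_comp, derivative_add, derivative_C,
    derivative_mul, derivative_X]
  ring

theorem shrink_wr_C (c : A) (f g : A[X]) :
    wronskian (C c * f) (C c * g) = C (c ^ 2) * wronskian f g := by
  simp only [wronskian, derivative_mul, derivative_C, C_pow]
  ring

/-- passage from an open disc of weight `n` to a closed disc of the same weight -/
theorem shrink {D : ℕ} {x : Fin 4 → A[X]} (H : Sol D x) {b : kk A} {n : ℕ} (hn : 0 < n)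
    {Z : Fin 4 → (kk A)[X]} (hZ : ∀ i, bar (x i) = (X - C b) ^ n * Z i)
    (hne : ∃ i, (Z i).eval b ≠ 0) :
    ∃ z : Fin 4 → A[X], Sol D z ∧ (∀ i, (bar (z i)).natDegree ≤ n) ∧
      (∀ i, (bar (z i)).coeff n = (Z i).eval b) ∧
      (∀ b', ¬ ∀ i, (X - C b') ^ n ∣ bar (z i)) ∧
      ∀ i j, i ≠ j → (nred (wronskian (z i) (z j))).natDegree ≤
        rootMultiplicity b (nred (wronskian (x i) (x j))) := by
  obtain ⟨i0, hi0⟩ := hne
  have hZ0 : Z i0 ≠ 0 := fun e => hi0 (by rw [e, eval_zero])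
  have hb0 : bar (x i0) ≠ 0 := by
    rw [hZ]; exact mul_ne_zero (pow_ne_zero _ (X_sub_C_ne_zero b)) hZ0
  obtain ⟨a, ha, ha0⟩ := exists_root hb0 (b := b) (by
    rw [hZ]; simp [hn.ne'])
  have hy : ∀ i, bar (taylor a (x i)) = X ^ n * taylor b (Z i) := fun i => by
    have h1 : bar (taylor a (x i)) = taylor b (bar (x i)) := by
      rw [← ha]; exact map_taylor _ _ _
    rw [h1, hZ, taylor_mul, taylor_pow]
    simp [taylor_apply]
  have hlow : ∀ i m, m < n → res ((taylor a (x i)).coeff m) = 0 := fun i m hm => by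
    rw [← coeff_bar, hy, coeff_X_pow_mul', if_neg (by omega)]
  have htop : ∀ i, res ((taylor a (x i)).coeff n) = (Z i).eval b := fun i => by
    rw [← coeff_bar, hy, coeff_X_pow_mul', if_pos le_rfl, Nat.sub_self, taylor_coeff_zero]
  have hr : ∀ p : Fin 4 × Fin n, ∃ r : A, r ^ (n - p.2) = (taylor a (x p.1)).coeff p.2 :=
    fun p => exists_pow_eq _ (by have := p.2.2; omega)
  choose r hr using hr
  obtain ⟨p1, -, hp1⟩ := shrink_min Finset.univ ⟨(i0, ⟨0, hn⟩), Finset.mem_univ _⟩ r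
  obtain ⟨s, hs⟩ : ∃ s, s = r p1 := ⟨_, rfl⟩
  rw [← hs] at hp1
  have hs0 : s ≠ 0 := by
    obtain ⟨i, hi⟩ := H.cop (a : ℂ)
    intro e
    have h1 := hp1 (i, ⟨0, hn⟩) (Finset.mem_univ _)
    rw [e, zero_dvd_iff] at h1
    have h2 := hr (i, ⟨0, hn⟩)
    simp only [h1, Nat.sub_zero, zero_pow hn.ne', taylor_coeff_zero] at h2
    apply hi
    have h3 : (a : ℂ) = algebraMap A ℂ a := rfl
    rw [h3, aeval_algebraMap_apply, coe_aeval_eq_eval, ← h2, map_zero]
  have hsr : res s = 0 := by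
    have h1 := hlow p1.1 p1.2 p1.2.2
    rw [← hr p1, ← hs] at h1
    have h2 : res s ^ (n - p1.2) = 0 := by rw [← h1]; exact (map_pow _ _ _).symm
    exact pow_eq_zero_iff (by have := p1.2.2; omega) |>.mp h2
  have hsn : s ^ n ≠ 0 := pow_ne_zero _ hs0
  have hd : ∀ i, ∃ z, (x i).comp (C a + C s * X) = C (s ^ n) * z := fun i => by
    refine (C_dvd_iff_dvd_coeff _ _).mpr fun m => ?_
    rw [shrink_coeff]
    by_cases hm : m < n
    · have h1 := hr (i, ⟨m, hm⟩)
      simp only at h1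
      rw [← h1]
      have h2 : s ^ n = s ^ (n - m) * s ^ m := by rw [← pow_add]; congr 1; omega
      rw [h2]
      exact mul_dvd_mul_right (pow_dvd_pow_of_dvd (hp1 _ (Finset.mem_univ _)) _) _
    · exact Dvd.dvd.mul_left (pow_dvd_pow s (by omega)) _
  choose z hz using hd
  have hc : ∀ i m, s ^ n * (z i).coeff m = (taylor a (x i)).coeff m * s ^ m := fun i m => by
    rw [← shrink_coeff, hz, coeff_C_mul]
  have hcn : ∀ i, (bar (z i)).coeff n = (Z i).eval b := fun i => by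
    have h1 := hc i n
    rw [mul_comm] at h1
    rw [coeff_bar, mul_right_cancel₀ hsn h1, htop]
  have hdeg : ∀ i, (bar (z i)).natDegree ≤ n := fun i => by
    refine natDegree_le_iff_coeff_eq_zero.mpr fun m hm => ?_
    have h1 := hc i m
    have h2 : s ^ m = s ^ n * (s * s ^ (m - n - 1)) := by
      rw [← pow_succ', ← pow_add]; congr 1; omega
    rw [h2, mul_left_comm] at h1
    rw [coeff_bar, mul_left_cancel₀ hsn h1]
    simp only [res, map_mul]
    rw [show IsLocalRing.residue A s = 0 from hsr]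
    simp
  have hW : ∀ i j, C ((s ^ n) ^ 2) * wronskian (z i) (z j) =
      C s * (wronskian (x i) (x j)).comp (C a + C s * X) := fun i j => by
    rw [← shrink_wr_C, ← hz, ← hz, shrink_wr]
  have hzn : bar (z i0) ≠ 0 := fun e => hi0 (by rw [← hcn, e, coeff_zero])
  refine ⟨z, ⟨fun i => ?_, ?_, ?_, fun i j hij e => ?_, fun t => ?_, ⟨i0, hzn⟩⟩, hdeg, hcn,
    fun b' hb' => ?_, fun i j hij => ?_⟩
  · refine natDegree_le_iff_coeff_eq_zero.mpr fun m hm => ?_
    have h1 := hc i m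
    rw [coeff_eq_zero_of_natDegree_lt (p := taylor a (x i))
      (by rw [natDegree_taylor]; exact lt_of_le_of_lt (H.deg i) hm), zero_mul] at h1
    exact (mul_eq_zero.mp h1).resolve_left hsn
  · obtain ⟨i, hi⟩ := H.full
    refine ⟨i, fun e => ?_⟩
    have h1 := hc i D
    rw [e, mul_zero] at h1
    have h2 : (x i).natDegree = D := le_antisymm (H.deg i) (le_natDegree_of_ne_zero hi)
    have h3 : x i ≠ 0 := fun e' => hi (by rw [e', coeff_zero])
    have h4 : taylor a (x i) ≠ 0 := fun e' => h3 (taylor_injective a (by rw [e', map_zero]))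
    have h5 := leadingCoeff_ne_zero.mpr h4
    rw [leadingCoeff, natDegree_taylor, h2] at h5
    exact mul_ne_zero h5 (pow_ne_zero _ hs0) h1.symm
  · have h1 : C (s ^ n) ^ 6 * ∑ i, z i ^ 6 = (∑ i, x i ^ 6).comp (C a + C s * X) := by
      rw [Finset.mul_sum, sum_comp]
      exact Finset.sum_congr rfl fun i _ => by rw [pow_comp, hz, mul_pow]
    rw [H.sum, zero_comp] at h1
    exact (mul_eq_zero.mp h1).resolve_left (pow_ne_zero _ (C_ne_zero.mpr hsn))
  · have h1 := hW i j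
    rw [e, mul_zero] at h1
    exact mul_ne_zero (C_ne_zero.mpr hs0) (shrink_ne (H.ind i j hij) a hs0) h1.symm
  · obtain ⟨i, hi⟩ := H.cop (aeval t (C a + C s * X))
    refine ⟨i, fun e => hi ?_⟩
    rw [← aeval_comp, hz, map_mul, e, mul_zero]
  · obtain ⟨q, hq⟩ := hb' i0
    have hq0 : q ≠ 0 := fun e => hzn (by rw [hq, e, mul_zero])
    have h1 := hdeg i0
    rw [hq, natDegree_mul (pow_ne_zero _ (X_sub_C_ne_zero b')) hq0, natDegree_pow,
      natDegree_X_sub_C, mul_one] at h1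
    have h2 : q = C (q.coeff 0) := eq_C_of_natDegree_eq_zero (by omega)
    have h3 : (z i0).coeff 0 = 0 := by
      have h4 := hc i0 0
      rw [taylor_coeff_zero, ha0, zero_mul] at h4
      exact (mul_eq_zero.mp h4).resolve_left hsn
    have h4 : (bar (z i0)).eval 0 = 0 := by
      rw [← coeff_zero_eq_eval_zero, coeff_bar, h3]; exact map_zero _
    rw [hq, h2] at h4
    simp only [eval_mul, eval_pow, eval_sub, eval_X, eval_C, zero_sub] at h4
    have h5 : q.coeff 0 ≠ 0 := fun e => hq0 (by rw [h2, e, C_0])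
    have h6 : b' = 0 := neg_eq_zero.mp (pow_eq_zero_iff hn.ne' |>.mp
      ((mul_eq_zero.mp h4).resolve_right h5))
    have h7 := hb' p1.1
    rw [h6, C_0, sub_zero] at h7
    have h8 := X_pow_dvd_iff.mp h7 p1.2 p1.2.2
    have h9 := hc p1.1 p1.2
    rw [← hr p1, ← hs, ← pow_add, Nat.sub_add_cancel p1.2.2.le] at h9
    have h10 : (z p1.1).coeff p1.2 = 1 := mul_left_cancel₀ hsn (by rw [h9, mul_one])
    rw [coeff_bar, h10] at h8
    exact one_ne_zero ((map_one (IsLocalRing.residue A)).symm.trans h8)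
  · rw [← nd_nred_C_mul (pow_ne_zero 2 hsn), hW, nd_nred_C_mul hs0, ← ha]
    exact nd_nred_comp_le (H.ind i j hij) a hs0 hsr

end Pool.Agent.FS
end
end

-- part Pool.Agent.P.MP_57148c_nt.Refl
section

open Polynomial

noncomputable section
namespace Pool.Agent.FS

variable {A : ValuationSubring ℂ}

section

variable {R : Type} [CommRing R]

/-- the substitution `X ↦ b + 1 / X` on polynomials of degree at most `n` -/
def refl_M (n : ℕ) (b : R) (f : R[X]) : R[X] := reflect n (taylor b f)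

theorem refl_zero (n : ℕ) (b : R) : refl_M n b 0 = 0 := by simp [refl_M]

theorem refl_ne {n : ℕ} {b : R} {f : R[X]} (h : f ≠ 0) : refl_M n b f ≠ 0 := by
  simpa [refl_M] using h

theorem refl_add (n : ℕ) (b : R) (f g : R[X]) : refl_M n b (f + g) = refl_M n b f + refl_M n b g := by
  simp only [refl_M, map_add, reflect_add]

theorem refl_mul (b : R) {n m : ℕ} {f g : R[X]} (hf : f.natDegree ≤ n) (hg : g.natDegree ≤ m) :
    refl_M (n + m) b (f * g) = refl_M n b f * refl_M m b g := by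
  rw [refl_M, taylor_mul, reflect_mul _ _ ((natDegree_taylor _ _).le.trans hf)
    ((natDegree_taylor _ _).le.trans hg)]
  rfl

theorem refl_pow (b : R) {n : ℕ} {f : R[X]} (hf : f.natDegree ≤ n) (e : ℕ) :
    refl_M (e * n) b (f ^ e) = refl_M n b f ^ e := by
  induction e with
  | zero => simp [refl_M]
  | succ e ih => rw [Nat.succ_mul, pow_succ, refl_mul b (natDegree_pow_le_of_le e hf) hf, ih, pow_succ]

theorem refl_map {S : Type} [CommRing S] (φ : R →+* S) (n : ℕ) (b : R) (f : R[X]) :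
    (refl_M n b f).map φ = refl_M n (φ b) (f.map φ) := by
  rw [refl_M, ← reflect_map, map_taylor, refl_M]

theorem refl_deg (b : R) {n : ℕ} {f : R[X]} (hf : f.natDegree ≤ n) :
    (refl_M n b f).natDegree ≤ n :=
  natDegree_reflect_le.trans (max_le le_rfl ((natDegree_taylor _ _).le.trans hf))

theorem refl_coeff (n : ℕ) (b : R) (f : R[X]) : (refl_M n b f).coeff n = f.eval b := by
  rw [refl_M, coeff_reflect, revAt_le le_rfl, Nat.sub_self, taylor_coeff_zero]

theorem refl_deg_eq {b : R} {n : ℕ} {f : R[X]} (hf : f.natDegree ≤ n) (h : f.eval b ≠ 0) :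
    (refl_M n b f).natDegree = n :=
  le_antisymm (refl_deg b hf) (le_natDegree_of_ne_zero (by rwa [refl_coeff]))

theorem refl_euler (f : R[X]) (i : ℕ) : (X * derivative f).coeff i = i * f.coeff i := by
  cases i with
  | zero => simp
  | succ i => rw [coeff_X_mul, coeff_derivative, mul_comm]; push_cast; rfl

theorem refl_der {n : ℕ} {f : R[X]} (hf : f.natDegree ≤ n) :
    (C (n : R) * f - X * derivative f).natDegree ≤ n ∧
      X * derivative (reflect n f) = reflect n (C (n : R) * f - X * derivative f) := by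
  constructor
  · refine natDegree_le_iff_coeff_eq_zero.2 fun i hi => ?_
    rw [coeff_sub, coeff_C_mul, refl_euler, coeff_eq_zero_of_natDegree_lt (hf.trans_lt hi)]
    simp
  · ext i
    rw [refl_euler, coeff_reflect, coeff_reflect, coeff_sub, coeff_C_mul, refl_euler]
    rcases le_or_gt i n with h | h
    · rw [revAt_le h, Nat.cast_sub h]; ring
    · rw [revAt_eq_self_of_lt h, coeff_eq_zero_of_natDegree_lt (hf.trans_lt h)]
      simp

theorem refl_wr (b : R) {n : ℕ} {f g : R[X]} (hf : f.natDegree ≤ n) (hg : g.natDegree ≤ n)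
    (h : wronskian f g ≠ 0) : wronskian (refl_M n b f) (refl_M n b g) ≠ 0 := by
  intro e
  have h1 : wronskian (taylor b f) (taylor b g) = taylor b (wronskian f g) := by
    simp [wronskian, taylor_apply, derivative_comp]
  have hf' := (natDegree_taylor f b).le.trans hf
  have hg' := (natDegree_taylor g b).le.trans hg
  have h2 : reflect (n + n) (-(X * wronskian (taylor b f) (taylor b g))) =
      X * wronskian (refl_M n b f) (refl_M n b g) := by
    rw [refl_M, refl_M]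
    generalize taylor b f = f' at hf'
    generalize taylor b g = g' at hg'
    rw [wronskian, wronskian, mul_sub X (reflect n f' * _), mul_left_comm, ← mul_assoc X,
      (refl_der hf').2, (refl_der hg').2, ← reflect_mul _ _ hf' (refl_der hg').1,
      ← reflect_mul _ _ (refl_der hf').1 hg', ← reflect_sub]
    congr 1
    ring
  rw [e, mul_zero, reflect_eq_zero_iff, neg_eq_zero, monic_X.mul_right_eq_zero_iff, h1,
    taylor_eq_zero] at h2
  exact h h2

end

/-- a Moebius transformation puts infinity in general position -/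
theorem exists_good {D : ℕ} {x : Fin 4 → A[X]} (H : Sol D x) (hx : Insep x) :
    ∃ (z : Fin 4 → A[X]) (h : (kk A)[X]) (a : Fin 4 → (kk A)[X]), Sol D z ∧ Good D z h a := by
  obtain ⟨h, a, h0, he, hd, i₀, j₀, hw⟩ := hx
  have hev : ∀ p : (kk A)[X], ∀ᶠ b in Filter.cofinite, p ≠ 0 → p.eval b ≠ 0 := fun p => by
    by_cases hp : p = 0
    · exact Filter.Eventually.of_forall fun _ h' => absurd hp h'
    · exact Filter.eventually_cofinite.2 ((finite_setOfPred_isRoot hp).subset fun b hb => by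
        by_contra h'
        exact hb fun _ => h')
  obtain ⟨b, b1, b2, b3⟩ := ((hev h).and ((Filter.eventually_all.2 fun i => hev (a i)).and
    (Filter.eventually_all.2 fun i => Filter.eventually_all.2 fun j =>
      hev (a i ^ 2 + a j ^ 2)))).exists
  obtain ⟨t₀, rfl⟩ := res_surj b
  obtain ⟨l, hl⟩ : ∃ l, (a l).natDegree = 1 := by
    by_contra hn
    have : ∀ l, derivative (a l) = 0 := fun l =>
      derivative_of_natDegree_zero (by have := hd l; have := not_exists.1 hn l; omega)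
    exact hw (by rw [wronskian, this, this]; simp)
  have hl0 : a l ≠ 0 := fun e => by simp [e] at hl
  have hD : h.natDegree + 3 ≤ D := by
    have := (natDegree_bar_le (x l)).trans (H.deg l)
    rwa [he, natDegree_mul h0 (pow_ne_zero _ hl0), natDegree_pow, hl] at this
  obtain ⟨n, rfl⟩ : ∃ n, D = n + 3 := ⟨D - 3, by omega⟩
  have hn : h.natDegree ≤ n := by omega
  have hz : ∀ i, bar (refl_M (n + 3) t₀ (x i)) =
      refl_M n (res t₀) h * refl_M 1 (res t₀) (a i) ^ 3 := fun i => by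
    rw [bar, refl_map, ← refl_pow _ (hd i), ← refl_mul _ hn (natDegree_pow_le_of_le 3 (hd i)),
      ← he]
    rfl
  have hinj : Function.Injective (algebraMap A ℂ) := Subtype.val_injective
  refine ⟨fun i => refl_M (n + 3) t₀ (x i), refl_M n (res t₀) h, fun i => refl_M 1 (res t₀) (a i),
    ⟨fun i => refl_deg _ (H.deg i), ?_, ?_,
      fun i j hij => refl_wr _ (H.deg i) (H.deg j) (H.ind i j hij), fun t => ?_, l, ?_⟩,
    refl_ne h0, hz, by rw [refl_deg_eq hn (b1 h0)], fun i => refl_deg _ (hd i),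
    ⟨i₀, j₀, refl_wr _ (hd i₀) (hd j₀) hw⟩,
    fun i hi => refl_deg_eq (hd i) (b2 i fun e => hi (by rw [e, refl_zero])), fun i j hij => ?_⟩
  · obtain ⟨i, hi⟩ := H.cop (algebraMap A ℂ t₀)
    refine ⟨i, fun e => hi ?_⟩
    rw [refl_coeff] at e
    rw [aeval_algebraMap_apply_eq_algebraMap_eval, e, map_zero]
  · have := H.sum
    simp only [Fin.sum_univ_four] at this ⊢
    simp only [← refl_pow _ (H.deg _), ← refl_add, this, refl_zero]
  · by_cases ht : t = 0
    · obtain ⟨i, hi⟩ := H.full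
      refine ⟨i, fun e => hi ?_⟩
      rw [ht, ← map_zero (algebraMap A ℂ), aeval_algebraMap_apply_eq_algebraMap_eval,
        hinj.eq_iff, ← coeff_zero_eq_eval_zero, refl_M, coeff_reflect, revAt_zero] at e
      have h1 : (x i).natDegree = n + 3 := le_antisymm (H.deg i) (le_natDegree_of_ne_zero hi)
      rwa [← h1, coeff_taylor_natDegree, leadingCoeff, h1] at e
    · obtain ⟨i, hi⟩ := H.cop (t⁻¹ + algebraMap A ℂ t₀)
      refine ⟨i, fun e => hi ?_⟩
      let _ := invertibleOfNonzero (inv_ne_zero ht)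
      have h1 := eval₂_reflect_eq_zero_iff (algebraMap A ℂ) t⁻¹ (n + 3) (taylor t₀ (x i))
        ((natDegree_taylor _ _).le.trans (H.deg i))
      rw [invOf_eq_inv, inv_inv] at h1
      have h2 : aeval t⁻¹ (taylor t₀ (x i)) = 0 := h1.1 e
      rwa [taylor_apply, aeval_comp, map_add, aeval_X, aeval_C] at h2
  · rw [hz]
    exact mul_ne_zero (refl_ne h0) (pow_ne_zero _ (refl_ne hl0))
  · rw [← refl_pow _ (hd i), ← refl_pow _ (hd j), ← refl_add] at hij ⊢
    exact refl_deg_eq (natDegree_add_le_of_degree_le (natDegree_pow_le_of_le 2 (hd i))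
      (natDegree_pow_le_of_le 2 (hd j))) (b3 i j fun e => hij (by rw [e, refl_zero]))

end Pool.Agent.FS
end
end

-- part Pool.Agent.P.MP_57148c_nt.Init
section

open Polynomial

noncomputable section
namespace Pool.Agent.FS

theorem init_gcd (f : ℂ[X]) {g : ℂ[X]} (hg : g ≠ 0) :
    ∃ d f' g' : ℂ[X], d ≠ 0 ∧ g' ≠ 0 ∧ f = d * f' ∧ g = d * g' ∧ IsCoprime f' g' := by
  classical
  obtain ⟨f', g', h1, h2, h3⟩ := extract_gcd f g
  refine ⟨gcd f g, f', g', fun h => hg ?_, fun h => hg ?_, h1, h2, (gcd_isUnit_iff _ _).1 h3⟩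
  · rw [h2, h, zero_mul]
  · rw [h2, h, mul_zero]

theorem init_const {d f g : ℂ[X]} (hg : g ≠ 0) (h1 : f.natDegree = 0) (h2 : g.natDegree = 0) :
    ∃ c : ℂ, d * f = C c * (d * g) := by
  rw [eq_C_of_natDegree_eq_zero h2] at hg ⊢
  rw [eq_C_of_natDegree_eq_zero h1]
  refine ⟨f.coeff 0 / g.coeff 0, ?_⟩
  rw [mul_left_comm, ← C_mul, div_mul_cancel₀ _ (C_ne_zero.1 hg)]

theorem init_dep {f g : ℂ[X]} (hg : g ≠ 0) (hw : wronskian f g = 0) : ∃ c : ℂ, f = C c * g := by
  obtain ⟨d, f', g', hd, hg', rfl, rfl, hc⟩ := init_gcd f hg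
  have e : wronskian (d * f') (d * g') = d ^ 2 * wronskian f' g' := by
    simp only [wronskian, derivative_mul]; ring
  rw [e, mul_eq_zero, or_iff_right (pow_ne_zero 2 hd), hc.wronskian_eq_zero_iff] at hw
  exact init_const hg' (derivative_eq_zero.1 hw.1) (derivative_eq_zero.1 hw.2)

theorem init_three {a b e : ℂ[X]} {u : ℂ} (ha : a ≠ 0) (hb : b ≠ 0) (he : e ≠ 0)
    (h : a ^ 6 + b ^ 6 + C u * e ^ 6 = 0) : ∃ c : ℂ, a = C c * b := by
  obtain ⟨d, a', b', hd, hb', rfl, rfl, hc⟩ := init_gcd a hb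
  have ha' : a' ≠ 0 := right_ne_zero_of_mul ha
  by_cases hu : u = 0
  · have h1 : a' ^ 6 + b' ^ 6 = 0 := mul_left_cancel₀ (pow_ne_zero 6 hd) (by
      rw [hu, C_0, zero_mul] at h; linear_combination h)
    have h2 : a' ∣ b' ^ 6 := ⟨-a' ^ 5, by linear_combination h1⟩
    have h3 : b' ∣ a' ^ 6 := ⟨-b' ^ 5, by linear_combination h1⟩
    exact init_const hb' (natDegree_eq_zero_of_isUnit (hc.pow_right.isUnit_of_dvd h2))
      (natDegree_eq_zero_of_isUnit (hc.symm.pow_right.isUnit_of_dvd h3))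
  have h1 : d ^ 6 ∣ C u * e ^ 6 := ⟨-(a' ^ 6 + b' ^ 6), by linear_combination h⟩
  rw [(isUnit_C.2 (Ne.isUnit hu)).dvd_mul_left,
    IsIntegrallyClosed.pow_dvd_pow_iff (by norm_num)] at h1
  obtain ⟨e', rfl⟩ := h1
  have h2 : C 1 * a' ^ 6 + C 1 * b' ^ 6 + C u * e' ^ 6 = 0 :=
    mul_left_cancel₀ (pow_ne_zero 6 hd) (by rw [C_1]; linear_combination h)
  have := flt_catalan (p := 6) (q := 6) (r := 6) (by norm_num) (by norm_num) (by norm_num)
    (by norm_num) (by norm_num) (by norm_num) (by norm_num) ha' hb' (right_ne_zero_of_mul he) hc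
    one_ne_zero one_ne_zero hu h2
  exact init_const hb' this.1 this.2.1

theorem init_ind {Y : Fin 4 → ℂ[X]} (hs : ∑ i, Y i ^ 6 = 0) (h0 : Y 0 ≠ 0)
    (hn : ∀ j, j ≠ 0 → ∀ c : ℂ, Y j ≠ C c * Y 0) {i j : Fin 4} (hij : i ≠ j) :
    wronskian (Y i) (Y j) ≠ 0 := by
  have hne : ∀ l, Y l ≠ 0 := fun l => by
    by_cases hl : l = 0
    · rwa [hl]
    · simpa using hn l hl 0
  intro hw
  by_cases hj : j = 0
  · obtain ⟨c, hc⟩ := init_dep (hne j) hw
    subst hj; exact hn i hij c hc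
  by_cases hi : i = 0
  · obtain ⟨c, hc⟩ := init_dep (hne i) (by rw [← wronskian_neg_eq, hw, neg_zero])
    subst hi; exact hn j hj c hc
  obtain ⟨c, hc⟩ := init_dep (hne j) hw
  obtain ⟨l, hl, e⟩ : ∃ l, l ≠ 0 ∧ Y l ^ 6 + Y 0 ^ 6 + (Y i ^ 6 + Y j ^ 6) = 0 := by
    rw [Fin.sum_univ_four] at hs
    clear hc hw
    fin_cases i <;> fin_cases j <;> simp only [ne_eq, not_true_eq_false] at hi hj hij <;>
      first
      | exact absurd rfl hi
      | exact absurd rfl hj
      | exact ⟨1, by decide, by simp only [Fin.reduceFinMk]; linear_combination hs⟩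
      | exact ⟨2, by decide, by simp only [Fin.reduceFinMk]; linear_combination hs⟩
      | exact ⟨3, by decide, by simp only [Fin.reduceFinMk]; linear_combination hs⟩
  obtain ⟨c', hc'⟩ := init_three (u := c ^ 6 + 1) (hne l) h0 (hne j) (by
    rw [hc] at e; rw [C_add, C_pow, C_1]; linear_combination e)
  exact hn l hl c' hc'

theorem init_scale (A : ValuationSubring ℂ) {D : ℕ} {Y : Fin 4 → ℂ[X]}
    (hd : ∀ i, (Y i).natDegree ≤ D) (hf : ∃ i, (Y i).coeff D ≠ 0) :
    ∃ (κ t : ℂ) (x : Fin 4 → A[X]), κ ≠ 0 ∧ t ≠ 0 ∧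
      (∀ i, (x i).map (algebraMap A ℂ) = C κ * (Y i).comp (C t * X)) ∧ ∃ i, (x i).coeff D = 1 := by
  obtain ⟨i0, hi0⟩ := Finite.exists_max fun i => A.valuation ((Y i).coeff D)
  obtain ⟨i1, hi1⟩ := hf
  have hl : (Y i0).coeff D ≠ 0 := fun h => hi1 (by
    have := hi0 i1
    rwa [h, map_zero, le_zero_iff, map_eq_zero] at this)
  obtain ⟨⟨s, hs⟩, hs'⟩ := IsLocalization.exist_integer_multiples_of_finite (nonZeroDivisors A)
    fun q : Fin 4 × Fin D => (Y q.1).coeff q.2 / (Y i0).coeff D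
  have hs0 : (s : ℂ) ≠ 0 := fun h => nonZeroDivisors.ne_zero hs (Subtype.ext h)
  have hc : ∀ i m, (C ((s : ℂ) ^ D / (Y i0).coeff D) * (Y i).comp (C (s : ℂ)⁻¹ * X)).coeff m =
      (s : ℂ) ^ D / (Y i0).coeff D * ((Y i).coeff m * ((s : ℂ) ^ m)⁻¹) := fun i m => by
    rw [coeff_C_mul, comp_C_mul_X_coeff, inv_pow]
  have hx : ∀ i, ∃ x : A[X], x.map (algebraMap A ℂ) =
      C ((s : ℂ) ^ D / (Y i0).coeff D) * (Y i).comp (C (s : ℂ)⁻¹ * X) := fun i => by
    refine (mem_lifts _).1 ((lifts_iff_coeff_lifts _).2 fun m => ?_)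
    rw [hc]
    rcases lt_trichotomy m D with h | rfl | h
    · obtain ⟨a, ha⟩ := hs' (i, ⟨m, h⟩)
      obtain ⟨n, rfl⟩ := Nat.exists_eq_add_of_lt h
      refine ⟨s ^ n * a, ?_⟩
      rw [map_mul, map_pow, ha, Algebra.smul_def]
      change (s : ℂ) ^ n * ((s : ℂ) * _) = _
      field_simp
      ring
    · obtain ⟨a, ha⟩ := (A.valuation_le_iff _ _).1 (hi0 i)
      refine ⟨a, ?_⟩
      rw [← ha]
      change (a : ℂ) = _
      field_simp
    · rw [coeff_eq_zero_of_natDegree_lt ((hd i).trans_lt h), zero_mul, mul_zero]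
      exact ⟨0, map_zero _⟩
  choose x hx using hx
  refine ⟨_, _, x, div_ne_zero (pow_ne_zero _ hs0) hl, inv_ne_zero hs0, hx, i0, ?_⟩
  apply IsFractionRing.injective A ℂ
  rw [← coeff_map, hx, hc, map_one]
  field_simp

/-- normalisation of a complex solution -/
theorem exists_sol (A : ValuationSubring ℂ) {f : Fin 4 → ℂ[X]} (hd : ∀ i, (f i).natDegree ≤ 5)
    (h0 : f 0 ≠ 0) (hs : f 1 ^ 6 + f 2 ^ 6 + f 3 ^ 6 = f 0 ^ 6)
    (hn : ∀ j, j ≠ 0 → ∀ c : ℂ, f j ≠ C c * f 0) :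
    ∃ (D : ℕ) (x : Fin 4 → A[X]), D ≤ 5 ∧ 0 < D ∧ Sol D x ∧ ∃ i, (bar (x i)).coeff D ≠ 0 := by
  obtain ⟨ζ, hζ⟩ := IsAlgClosed.exists_pow_nat_eq (-1 : ℂ) (n := 6) (by norm_num)
  have hζ0 : ζ ≠ 0 := fun h => by simp [h] at hζ
  have hF0 : C ζ * f 0 ≠ 0 := mul_ne_zero (C_ne_zero.2 hζ0) h0
  obtain ⟨h, Y, hh, hY, hc⟩ := exists_gcd_tuple (F := Function.update f 0 (C ζ * f 0))
    ⟨0, by simpa using hF0⟩
  have e0 : C ζ * f 0 = h * Y 0 := by simpa using hY 0
  have ej : ∀ j, j ≠ 0 → f j = h * Y j := fun j hj => by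
    rw [← hY j, Function.update_of_ne hj]
  have hY0 : Y 0 ≠ 0 := right_ne_zero_of_mul (e0 ▸ hF0)
  have hsum : ∑ i, Y i ^ 6 = 0 := by
    refine mul_left_cancel₀ (pow_ne_zero 6 hh) ?_
    have e1 : (h * Y 0) ^ 6 = -f 0 ^ 6 := by
      rw [← e0, mul_pow, ← C_pow, hζ, C_neg, C_1, neg_one_mul]
    rw [ej 1 (by decide), ej 2 (by decide), ej 3 (by decide)] at hs
    rw [Fin.sum_univ_four]
    linear_combination e1 + hs
  have hYn : ∀ j, j ≠ 0 → ∀ c : ℂ, Y j ≠ C c * Y 0 := fun j hj c e =>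
    hn j hj (c * ζ) (by rw [ej j hj, e, C_mul, mul_assoc, e0]; ring)
  have hW : ∀ i j, i ≠ j → wronskian (Y i) (Y j) ≠ 0 := fun i j => init_ind hsum hY0 hYn
  obtain ⟨i1, hi1⟩ := Finite.exists_max fun i => (Y i).natDegree
  have hne : ∀ l, Y l ≠ 0 := fun l => by
    by_cases hl : l = 0
    · rwa [hl]
    · simpa using hYn l hl 0
  have hD : (Y i1).natDegree ≤ 5 := by
    have h1 : (h * Y i1).natDegree ≤ 5 := by
      by_cases hl : i1 = 0
      · rw [hl, ← e0]; exact (natDegree_C_mul_le _ _).trans (hd 0)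
      · rw [← ej i1 hl]; exact hd i1
    rw [natDegree_mul hh (hne i1)] at h1
    omega
  obtain ⟨κ, t, x, hκ, ht, hx, i0, hi0⟩ := init_scale A hi1
    ⟨i1, leadingCoeff_ne_zero.2 (hne i1)⟩
  have hinj : Function.Injective (algebraMap A ℂ) := IsFractionRing.injective A ℂ
  have hb : (bar (x i0)).coeff (Y i1).natDegree ≠ 0 := by
    rw [coeff_bar, hi0, res, map_one]; exact one_ne_zero
  refine ⟨_, x, hD, ?_, ⟨fun i => ?_, ⟨i0, by rw [hi0]; exact one_ne_zero⟩, ?_, fun i j hij hw => ?_,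
    fun τ => ?_, ⟨i0, fun e => hb (by rw [e, coeff_zero])⟩⟩, i0, hb⟩
  · have := natDegree_wronskian_lt_add (hW 0 1 (by decide))
    have h1 := hi1 0
    have h2 := hi1 1
    omega
  · rw [← natDegree_map_eq_of_injective hinj, hx]
    refine (natDegree_C_mul_le _ _).trans (natDegree_comp_le.trans ?_)
    rw [natDegree_C_mul_X t ht, mul_one]
    exact hi1 i
  · apply map_injective _ hinj
    have := congrArg (fun p : ℂ[X] => C κ ^ 6 * p.comp (C t * X)) hsum
    simp only [Fin.sum_univ_four, add_comp, pow_comp, zero_comp, mul_zero] at this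
    simp only [Fin.sum_univ_four, Polynomial.map_add, Polynomial.map_pow, hx, Polynomial.map_zero]
    linear_combination this
  · have e : (wronskian (x i) (x j)).map (algebraMap A ℂ) =
        C (κ ^ 2 * t) * (wronskian (Y i) (Y j)).comp (C t * X) := by
      simp only [wronskian, Polynomial.map_sub, Polynomial.map_mul, ← derivative_map, hx,
        derivative_mul, derivative_C, derivative_comp, derivative_X, sub_comp, mul_comp, C_mul,
        C_pow]
      ring
    rw [hw, Polynomial.map_zero, eq_comm, mul_eq_zero, C_eq_zero,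
      comp_C_mul_X_eq_zero_iff (mem_nonZeroDivisors_of_ne_zero ht)] at e
    exact e.elim (mul_ne_zero (pow_ne_zero 2 hκ) ht) (hW i j hij)
  · obtain ⟨i, hi⟩ := hc (t * τ)
    refine ⟨i, ?_⟩
    rw [← eval_map_algebraMap, hx, eval_mul, eval_C, eval_comp, eval_mul, eval_C, eval_X]
    exact mul_ne_zero hκ hi

end Pool.Agent.FS
end
end

-- part Pool.Agent.P.MP_57148c_nt.Main
section

open Polynomial

noncomputable section
namespace Pool.Agent.FS

variable {A : ValuationSubring ℂ} [Three A]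

theorem top_of_claims {D : ℕ} (hD : D ≤ 5) {z : Fin 4 → A[X]} (H : Sol D z) (hi : ¬ Insep z)
    {n : ℕ} (hd : ∀ i, (bar (z i)).natDegree ≤ n)
    (hC : ∀ b m, m ≤ n → (∀ i, (X - C b) ^ m ∣ bar (z i)) → Claim z b m) : Top z n := by
  obtain ⟨h, X', hh, e, hc⟩ := exists_gcd_tuple H.prim
  have hC' : ∀ b, Claim z b (rootMultiplicity b h) := fun b => by
    refine hC b _ ?_ fun i => ?_
    · obtain ⟨i, hi⟩ := H.prim
      have h1 : h.natDegree ≤ n :=
        (natDegree_le_of_dvd (Dvd.intro _ (e i).symm) hi).trans (hd i)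
      have h2 := natDegree_le_of_dvd (pow_rootMultiplicity_dvd h b) hh
      rw [natDegree_pow, natDegree_X_sub_C, mul_one] at h2
      exact h2.trans h1
    · rw [e i]
      exact (pow_rootMultiplicity_dvd h b).mul_right _
  by_cases hw : ∃ i j, wronskian (X' i) (X' j) ≠ 0
  · exact sep_vertex hD H hh e hc hw hC' n
  push Not at hw
  choose a ha using fun i => exists_cube (derivative_eq_zero_of_wronskian hc hw i)
  have hda : ∀ i, (a i).natDegree ≤ 1 := fun i => by
    by_cases h0 : a i = 0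
    · simp [h0]
    have h1 := (natDegree_bar_le (z i)).trans ((H.deg i).trans hD)
    rw [e i, ha i, natDegree_mul hh (pow_ne_zero 3 h0), natDegree_pow] at h1
    omega
  by_cases hw' : ∃ i j, wronskian (a i) (a j) ≠ 0
  · exact absurd ⟨h, a, hh, fun i => by rw [e i, ha i], hda, hw'⟩ hi
  push Not at hw'
  have hca : ∀ b, ∃ i, (a i).eval b ≠ 0 := fun b => by
    obtain ⟨i, hi⟩ := hc b
    exact ⟨i, fun h0 => hi (by rw [ha i, eval_pow, h0]; norm_num)⟩
  have hP : ∀ i, ∃ p : kk A, X' i = C p := fun i => by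
    obtain ⟨g, hg⟩ := exists_cube (derivative_eq_zero_of_wronskian hca hw' i)
    have h1 := hda i
    rw [hg, natDegree_pow] at h1
    refine ⟨(g.coeff 0) ^ 9, ?_⟩
    rw [ha i, hg, eq_C_of_natDegree_eq_zero (show g.natDegree = 0 by omega), ← pow_mul, C_pow,
      coeff_C_zero]
  choose P hP using hP
  exact const_vertex H hh (fun i => by rw [e i, hP i]) hC' n

theorem claim_of_no_insep {D : ℕ} (hD : D ≤ 5) {n₀ : ℕ}
    (hno : ∀ z : Fin 4 → A[X], Sol D z → (∀ i, (bar (z i)).natDegree ≤ n₀) → ¬ Insep z) :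
    ∀ n, n ≤ n₀ → ∀ x : Fin 4 → A[X], Sol D x → ∀ b, Claim x b n := by
  intro n
  induction n using Nat.strong_induction_on with
  | _ n ih =>
    intro hn x H b Z hZ hne
    rcases Nat.eq_zero_or_pos n with rfl | hpos
    · exact Ineq.zero _ _
    obtain ⟨z, Hz, hd, hco, hpw, ho⟩ := shrink H hpos hZ hne
    have ht : Top z n := top_of_claims hD Hz (hno z Hz fun i => (hd i).trans hn) hd
      fun b' m hm hdv => by
        rcases hm.lt_or_eq with hlt | rfl
        · exact ih m hlt (hlt.le.trans hn) z Hz b'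
        · exact absurd hdv (hpw b')
    obtain ⟨i0, hi0⟩ := hne
    have := (ht hd ⟨i0, by rw [hco]; exact hi0⟩).mono ho
    simpa only [hco] using this

theorem no_insep {D : ℕ} (hD : D ≤ 5) {x : Fin 4 → A[X]} (H : Sol D x) : ¬ Insep x := by
  intro hx
  obtain ⟨z, h, a, Hz, hg⟩ := exists_good H hx
  by_cases hs : ∃ i j, i ≠ j ∧ a i ^ 2 + a j ^ 2 = 0
  · obtain ⟨i, j, hij, e⟩ := hs
    obtain ⟨σ, h0, h1⟩ := exists_perm hij
    exact insep_special hD (Hz.perm σ) (hg.perm σ) (by simpa only [h0, h1] using e)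
  push Not at hs
  refine insep_general hD Hz hg hs fun b => claim_of_no_insep hD (n₀ := 2) ?_ _ ?_ z Hz b
  · rintro y - hd ⟨h', a', hh', e', hd', i, j, hw⟩
    have key : ∀ l, (a' l).natDegree = 0 := fun l => by
      by_cases h0 : a' l = 0
      · simp [h0]
      have h1 := hd l
      rw [e' l, natDegree_mul hh' (pow_ne_zero 3 h0), natDegree_pow] at h1
      omega
    apply hw
    rw [eq_C_of_natDegree_eq_zero (key i), eq_C_of_natDegree_eq_zero (key j)]
    simp [wronskian]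
  · have h2 := natDegree_le_of_dvd (pow_rootMultiplicity_dvd h b) hg.ne
    rw [natDegree_pow, natDegree_X_sub_C, mul_one] at h2
    have := hg.degh
    omega

theorem no_sol {D : ℕ} (hD : D ≤ 5) (hpos : 0 < D) {x : Fin 4 → A[X]} (H : Sol D x)
    (hf : ∃ i, (bar (x i)).coeff D ≠ 0) : False := by
  have hd : ∀ i, (bar (x i)).natDegree ≤ D := fun i => (natDegree_bar_le _).trans (H.deg i)
  have hI := top_of_claims hD H (no_insep hD H) hd (fun b m hm _ =>
    claim_of_no_insep hD (n₀ := D) (fun z Hz _ => no_insep hD Hz) m hm x H b) hd hf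
  have hb : ∀ i j, i ≠ j → (nred (wronskian (x i) (x j))).natDegree + 2 ≤ 2 * D :=
    fun i j hij => (Nat.add_le_add_right (nd_nred_le _) 2).trans
      (natDegree_wronskian_le (H.deg i) (H.deg j) (H.ind i j hij))
  set P : Fin 4 → kk A := fun i => (bar (x i)).coeff D with hP
  have h3 : (3 : kk A) = 0 := three_eq_zero'
  have hsum : P 0 ^ 2 + P 1 ^ 2 + P 2 ^ 2 + P 3 ^ 2 = 0 := by
    have h1 := (H.quad one_ne_zero fun i => (one_mul _).symm).1
    have h2 : ∀ i, (bar (x i) ^ 2).coeff (2 * D) = P i ^ 2 := fun i =>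
      coeff_pow_of_natDegree_le (hd i)
    have h4 := congrArg (fun p => coeff p (2 * D)) h1
    simp only [Fin.sum_univ_four, coeff_add, h2, coeff_zero] at h4
    exact h4
  have two : ∀ i j, i ≠ j → P i = 0 → P j = 0 → False := fun i j hij hi hj => by
    have := hI.two hpos i j hij hi hj
    have := hb i j hij
    omega
  have one : (∀ i, P i ≠ 0) → ∀ i j l, i ≠ j → i ≠ l → j ≠ l → P j ^ 2 + P l ^ 2 = 0 :=
    fun hne i j l hij hil hjl => by
      by_contra hc
      have := hI.one hne i j l hij hil hjl hc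
      have := hb i j hij
      have := hb i l hil
      omega
  by_cases hne : ∀ i, P i ≠ 0
  · have e1 := one hne 0 1 2 (by decide) (by decide) (by decide)
    have e2 := one hne 0 1 3 (by decide) (by decide) (by decide)
    have e3 := one hne 0 2 3 (by decide) (by decide) (by decide)
    apply hne 1
    have : P 1 ^ 2 = 0 := by linear_combination -e1 - e2 + e3 + P 1 ^ 2 * h3
    exact pow_eq_zero_iff two_ne_zero |>.1 this
  · push Not at hne
    obtain ⟨m, hm⟩ := hne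
    obtain ⟨j, l, hjl, e⟩ := hI.line hpos
    obtain ⟨σ, h0, h1⟩ := exists_perm hjl
    have hs' : P (σ 0) ^ 2 + P (σ 1) ^ 2 + P (σ 2) ^ 2 + P (σ 3) ^ 2 = 0 := by
      have := Equiv.sum_comp σ fun i => P i ^ 2
      simp only [Fin.sum_univ_four] at this
      rw [this, hsum]
    have e01 : P (σ 0) ^ 2 + P (σ 1) ^ 2 = 0 := by rw [h0, h1]; exact e
    have e23 : P (σ 2) ^ 2 + P (σ 3) ^ 2 = 0 := by linear_combination hs' - e01
    have z2 : ∀ u v : kk A, u ^ 2 + v ^ 2 = 0 → u = 0 → v = 0 := fun u v huv hu => by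
      rw [hu] at huv
      exact pow_eq_zero_iff two_ne_zero |>.1 (by simpa using huv)
    obtain ⟨m', rfl⟩ := σ.surjective m
    fin_cases m'
    · exact two _ _ (σ.injective.ne (by decide : (0 : Fin 4) ≠ 1)) hm (z2 _ _ e01 hm)
    · exact two _ _ (σ.injective.ne (by decide : (1 : Fin 4) ≠ 0)) hm
        (z2 _ _ (by rw [add_comm]; exact e01) hm)
    · exact two _ _ (σ.injective.ne (by decide : (2 : Fin 4) ≠ 3)) hm (z2 _ _ e23 hm)
    · exact two _ _ (σ.injective.ne (by decide : (3 : Fin 4) ≠ 2)) hm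
        (z2 _ _ (by rw [add_comm]; exact e23) hm)

theorem main_poly {f : Fin 4 → ℂ[X]} (hd : ∀ i, (f i).natDegree ≤ 5) (h0 : f 0 ≠ 0)
    (hs : f 1 ^ 6 + f 2 ^ 6 + f 3 ^ 6 = f 0 ^ 6) : ∃ j, j ≠ 0 ∧ ∃ c : ℂ, f j = C c * f 0 := by
  by_contra hn
  push Not at hn
  obtain ⟨A, hA⟩ := exists_three
  obtain ⟨D, x, hD, hpos, H, hf⟩ := exists_sol A hd h0 hs hn
  exact no_sol hD hpos H hf

end Pool.Agent.FS
end
end
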